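import Mathlib

/-!
# Elements on which a character of the centraliser does not vanish
-/

set_option autoImplicit false

namespace Pool.Agent.H416

/-- `RC g`: there is a function `l` with rational values which is additive on the centraliser of
`g` and for which `l g = 1`. -/
def RC {G : Type*} [Group G] (g : G) : Prop :=
  ∃ l : G → ℚ, (∀ a b : G, a * g = g * a → b * g = g * b → l (a * b) = l a + l b) ∧ l g = 1

namespace RCT

/-- An element of infinite order of an abelian group is mapped to `1` by a homomorphism to the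
rational numbers. -/
theorem exists_rat {A : Type*} [AddCommGroup A] (a : A) (ha : ∀ n : ℤ, n • a = 0 → n = 0) :
    ∃ f : A →+ ℚ, f a = 1 := by
  have hinj : Function.Injective (zmultiplesHom A a) := by
    rw [injective_iff_map_eq_zero]
    intro n hn
    rw [zmultiplesHom_apply] at hn
    exact ha n hn
  obtain ⟨h, hh⟩ := (Module.Baer.of_divisible ℚ).extension_property_addMonoidHom
    (zmultiplesHom A a) hinj (Int.castAddHom ℚ)
  refine ⟨h, ?_⟩
  have h1 := DFunLike.congr_fun hh 1
  simpa using h1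

/-- The same for a multiplicative homomorphism to an abelian group. -/
theorem exists_ratHom {C A : Type*} [Group C] [AddCommGroup A] (χ : C →* Multiplicative A) (g : C)
    (hg : ∀ n : ℤ, n • (χ g).toAdd = 0 → n = 0) :
    ∃ ψ : C →* Multiplicative ℚ, (ψ g).toAdd = 1 := by
  obtain ⟨f, hf⟩ := exists_rat (χ g).toAdd hg
  exact ⟨(AddMonoidHom.toMultiplicative f).comp χ, hf⟩

theorem exists_ratHom_real {C : Type*} [Group C] (χ : C →* Multiplicative ℝ) (g : C)
    (hg : (χ g).toAdd ≠ 0) : ∃ ψ : C →* Multiplicative ℚ, (ψ g).toAdd = 1 := by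
  refine exists_ratHom χ g fun n hn => ?_
  rw [zsmul_eq_mul, mul_eq_zero] at hn
  exact_mod_cast hn.resolve_right hg

/-- Transfer from a subgroup of finite index. -/
theorem transfer_char {C : Type*} [Group C] (D : Subgroup C) [D.FiniteIndex] (g : C)
    (hg : ∀ h, h * g = g * h) (ψ : D →* Multiplicative ℚ) (k : ℕ) (hk : g ^ k ∈ D)
    (hψ : (ψ ⟨g ^ k, hk⟩).toAdd ≠ 0) : ∃ χ : C →* Multiplicative ℚ, (χ g).toAdd = 1 := by
  have hkey : ∀ (k : ℕ) (g₀ : C), g₀⁻¹ * g ^ k * g₀ ∈ D → g₀⁻¹ * g ^ k * g₀ = g ^ k := by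
    intro k g₀ _
    have h1 : g₀ * g ^ k = g ^ k * g₀ := Commute.pow_right (hg g₀) k
    rw [mul_assoc, ← h1, inv_mul_cancel_left]
  have h1 := MonoidHom.transfer_eq_pow ψ g hkey
  have hm := MonoidHom.transfer_eq_pow_aux (H := D) g hkey
  apply exists_ratHom (A := ℚ) (MonoidHom.transfer ψ) g
  intro n hn
  by_contra hne
  rw [smul_eq_zero] at hn
  have h2 := hn.resolve_left hne
  rw [h1] at h2
  apply hψ
  have h3 : (⟨g ^ k, hk⟩ : D) ^ D.index = ⟨g ^ D.index, hm⟩ ^ k := by
    apply Subtype.ext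
    simp only [Subgroup.coe_pow]
    rw [← pow_mul, ← pow_mul, mul_comm]
  have h4 : (ψ (⟨g ^ k, hk⟩ ^ D.index)).toAdd = 0 := by
    rw [h3, map_pow, toAdd_pow, h2, smul_zero]
  rw [map_pow, toAdd_pow, smul_eq_zero] at h4
  exact h4.resolve_left Subgroup.FiniteIndex.index_ne_zero

/-- Characters of the centraliser give functions on the group. -/
theorem of_centralizer {G : Type*} [Group G] (g : G)
    (χ : Subgroup.centralizer {g} →* Multiplicative ℚ)
    (hχ : (χ ⟨g, Subgroup.mem_centralizer_singleton_iff.2 rfl⟩).toAdd = 1) : RC g := by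
  classical
  refine ⟨fun a => if h : a ∈ Subgroup.centralizer {g} then (χ ⟨a, h⟩).toAdd else 0, ?_, ?_⟩
  · intro a b ha hb
    have ha' : a ∈ Subgroup.centralizer {g} := Subgroup.mem_centralizer_singleton_iff.2 ha
    have hb' : b ∈ Subgroup.centralizer {g} := Subgroup.mem_centralizer_singleton_iff.2 hb
    dsimp only
    rw [dif_pos ha', dif_pos hb', dif_pos (mul_mem ha' hb')]
    have h1 : (⟨a * b, mul_mem ha' hb'⟩ : Subgroup.centralizer {g}) = ⟨a, ha'⟩ * ⟨b, hb'⟩ := rfl
    rw [h1, map_mul, toAdd_mul]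
  · have hg : g ∈ Subgroup.centralizer {g} := Subgroup.mem_centralizer_singleton_iff.2 rfl
    dsimp only
    rw [dif_pos hg]
    exact hχ

theorem RC.ne_one {G : Type*} [Group G] {g : G} (h : RC g) : g ≠ 1 := by
  rintro rfl
  obtain ⟨l, h1, h2⟩ := h
  have h3 := h1 1 1 rfl rfl
  rw [mul_one, h2] at h3
  norm_num at h3

/-- Pull back along a homomorphism. -/
theorem RC.comap {G H : Type*} [Group G] [Group H] (φ : G →* H) {g : G} (h : RC (φ g)) : RC g := by
  obtain ⟨l, h1, h2⟩ := h
  refine ⟨fun a => l (φ a), fun a b ha hb => ?_, h2⟩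
  dsimp only
  rw [map_mul]
  apply h1
  · rw [← map_mul, ha, map_mul]
  · rw [← map_mul, hb, map_mul]

theorem additive_pow {G : Type*} [Group G] {g : G} {l : G → ℚ}
    (h1 : ∀ a b : G, a * g = g * a → b * g = g * b → l (a * b) = l a + l b) (n : ℕ) :
    l (g ^ n) = n * l g := by
  induction n with
  | zero =>
    have h3 := h1 1 1 (by rw [one_mul, mul_one]) (by rw [one_mul, mul_one])
    rw [mul_one] at h3
    rw [pow_zero, Nat.cast_zero, zero_mul]
    linarith
  | succ n ih =>
    rw [pow_succ, h1 _ _ ((Commute.refl g).pow_left n) rfl, ih]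
    push_cast
    ring

/-- An element has the property if one of its powers has it. -/
theorem RC.of_pow {G : Type*} [Group G] {g : G} {n : ℕ} (h : RC (g ^ n)) : RC g := by
  obtain ⟨l, h1, h2⟩ := h
  have h3 : ∀ a : G, a * g = g * a → a * g ^ n = g ^ n * a := fun a ha =>
    Commute.pow_right (show Commute a g from ha) n
  have h4 : ∀ a b : G, a * g = g * a → b * g = g * b → l (a * b) = l a + l b := fun a b ha hb =>
    h1 a b (h3 a ha) (h3 b hb)
  have h5 := additive_pow h4 n
  rw [h2] at h5
  have h6 : l g ≠ 0 := by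
    intro h6
    rw [h6, mul_zero] at h5
    exact one_ne_zero h5
  refine ⟨fun a => l a / l g, fun a b ha hb => ?_, div_self h6⟩
  dsimp only
  rw [h4 a b ha hb, add_div]

end RCT

end Pool.Agent.H416
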