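import Mathlib

/-!
# Two-sided averages of stationary sequences

For a stationary sequence in a pre-Hilbert space the difference of the forward and the backward
averages tends to zero.
-/

set_option autoImplicit false
set_option linter.unusedSectionVars false

namespace Pool.Agent.H416.Stat

open Filter Topology Finset

variable {V : Type*} [SeminormedAddCommGroup V] [InnerProductSpace ℝ V]

/-- A stationary sequence. -/
def Stationary (x : ℤ → V) : Prop :=
  ∀ m n : ℤ, inner ℝ (x (m + 1)) (x (n + 1)) = inner ℝ (x m) (x n)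

variable {x : ℤ → V}

theorem Stationary.shift_nat (h : Stationary x) (k : ℕ) (m n : ℤ) :
    inner ℝ (x (m + k)) (x (n + k)) = inner ℝ (x m) (x n) := by
  induction k with
  | zero => simp
  | succ k ih =>
    rw [← ih, ← h (m + k) (n + k)]
    push_cast
    rw [add_assoc, add_assoc]

theorem Stationary.shift (h : Stationary x) (k m n : ℤ) :
    inner ℝ (x (m + k)) (x (n + k)) = inner ℝ (x m) (x n) := by
  obtain ⟨j, rfl | rfl⟩ := k.eq_nat_or_neg
  · exact h.shift_nat j m n
  · have := h.shift_nat j (m + -(j : ℤ)) (n + -(j : ℤ))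
    rw [neg_add_cancel_right, neg_add_cancel_right] at this
    exact this.symm

/-- The sum over an interval. -/
noncomputable def S (x : ℤ → V) (a : ℤ) (N : ℕ) : V := ∑ i ∈ range N, x (a + i)

theorem norm_S (h : Stationary x) (a b : ℤ) (N : ℕ) : ‖S x a N‖ = ‖S x b N‖ := by
  have h1 : inner ℝ (S x a N) (S x a N) = (inner ℝ (S x b N) (S x b N) : ℝ) := by
    unfold S
    simp only [sum_inner, inner_sum]
    refine Finset.sum_congr rfl fun i _ => Finset.sum_congr rfl fun j _ => ?_
    rw [← h.shift (a - b) (b + j) (b + i)]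
    congr 2 <;> ring
  rw [real_inner_self_eq_norm_sq, real_inner_self_eq_norm_sq] at h1
  exact (sq_eq_sq₀ (norm_nonneg _) (norm_nonneg _)).1 h1

theorem S_add (a : ℤ) (M N : ℕ) : S x a (M + N) = S x a M + S x (a + M) N := by
  unfold S
  rw [sum_range_add]
  congr 1
  refine Finset.sum_congr rfl fun i _ => ?_
  push_cast
  rw [add_assoc]

theorem subadd (h : Stationary x) : Subadditive fun N => ‖S x 0 N‖ := by
  intro M N
  dsimp only
  rw [S_add]
  refine (norm_add_le _ _).trans ?_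
  rw [norm_S h (0 + (M : ℤ)) 0 N]

theorem exists_lim (h : Stationary x) :
    ∃ m : ℝ, Tendsto (fun N : ℕ => ‖S x 0 N‖ / N) atTop (𝓝 m) := by
  refine ⟨_, (subadd h).tendsto_lim ⟨0, ?_⟩⟩
  rintro _ ⟨N, rfl⟩
  positivity

/-- The difference of the forward and the backward averages tends to zero. -/
theorem tendsto_two_sided (h : Stationary x) :
    Tendsto (fun N : ℕ => ‖∑ i ∈ range N, (x i - x (-(i : ℤ)))‖ / N) atTop (𝓝 0) := by
  obtain ⟨m, hm⟩ := exists_lim h
  -- backward sums
  have hback : ∀ N : ℕ, ∑ i ∈ range N, x (-(i : ℤ)) = S x (-(N : ℤ) + 1) N := by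
    intro N
    unfold S
    rw [← Finset.sum_range_reflect]
    refine Finset.sum_congr rfl fun i hi => ?_
    have := mem_range.1 hi
    congr 1
    omega
  have hforw : ∀ N : ℕ, ∑ i ∈ range N, x (i : ℤ) = S x 0 N := by
    intro N
    unfold S
    refine Finset.sum_congr rfl fun i _ => ?_
    rw [zero_add]
  -- the sum of both
  have hsum : ∀ N : ℕ, S x (-(N : ℤ) + 1) N + S x 0 N = S x (-(N : ℤ) + 1) (2 * N) -
      (x N - x 0) := by
    intro N
    rw [two_mul, S_add]
    have e : -(N : ℤ) + 1 + N = 0 + 1 := by ring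
    rw [e]
    have h1 : S x 0 (N + 1) = x 0 + S x (0 + 1) N := by
      rw [add_comm N 1, S_add]
      congr 1
      unfold S
      simp
    have h2 : S x 0 (N + 1) = S x 0 N + x N := by
      rw [S_add]
      congr 1
      unfold S
      simp
    have h3 : S x (0 + 1) N = S x 0 N + x N - x 0 := by
      rw [← h2, h1, add_sub_cancel_left]
    rw [h3]
    abel
  have hx : ∀ k : ℤ, ‖x k‖ = ‖x 0‖ := by
    intro k
    have h1 := h.shift k 0 0
    rw [zero_add, real_inner_self_eq_norm_sq, real_inner_self_eq_norm_sq] at h1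
    exact (sq_eq_sq₀ (norm_nonneg _) (norm_nonneg _)).1 h1
  -- the square of the norm
  have hsq : ∀ N : ℕ, ‖∑ i ∈ range N, (x i - x (-(i : ℤ)))‖ ^ 2 =
      4 * ‖S x 0 N‖ ^ 2 - ‖S x (-(N : ℤ) + 1) N + S x 0 N‖ ^ 2 := by
    intro N
    rw [Finset.sum_sub_distrib, hback, hforw]
    have h1 := parallelogram_law_with_norm ℝ (S x 0 N) (S x (-(N : ℤ) + 1) N)
    rw [norm_S h (-(N : ℤ) + 1) 0 N] at h1
    rw [add_comm (S x (-(N : ℤ) + 1) N)]
    nlinarith
  have hlow : ∀ N : ℕ, ‖S x 0 (2 * N)‖ - 2 * ‖x 0‖ ≤ ‖S x (-(N : ℤ) + 1) N + S x 0 N‖ := by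
    intro N
    rw [hsum, norm_S h 0 (-(N : ℤ) + 1) (2 * N)]
    have h1 := norm_sub_norm_le (S x (-(N : ℤ) + 1) (2 * N)) (x N - x 0)
    have h2 : ‖x (N : ℤ) - x 0‖ ≤ 2 * ‖x 0‖ := by
      refine (norm_sub_le _ _).trans ?_
      rw [hx]
      linarith
    linarith
  have hup : ∀ N : ℕ, ‖S x (-(N : ℤ) + 1) N + S x 0 N‖ ≤ 2 * ‖S x 0 N‖ := by
    intro N
    refine (norm_add_le _ _).trans ?_
    rw [norm_S h (-(N : ℤ) + 1) 0 N]
    linarith
  -- limits
  have hm2 : Tendsto (fun N : ℕ => ‖S x 0 (2 * N)‖ / N) atTop (𝓝 (2 * m)) := by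
    have h1 : Tendsto (fun N : ℕ => 2 * N) atTop atTop :=
      tendsto_id.const_mul_atTop' (by norm_num)
    have h2 := (hm.comp h1).const_mul 2
    refine h2.congr' ?_
    filter_upwards [eventually_gt_atTop 0] with N hN
    have : (N : ℝ) ≠ 0 := by exact_mod_cast hN.ne'
    simp only [Function.comp_apply]
    push_cast
    field_simp
  have hc : Tendsto (fun N : ℕ => 2 * ‖x 0‖ / N) atTop (𝓝 0) :=
    tendsto_const_div_atTop_nhds_zero_nat _
  have hmid : Tendsto (fun N : ℕ => ‖S x (-(N : ℤ) + 1) N + S x 0 N‖ / N) atTop (𝓝 (2 * m)) := by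
    have h1 := hm2.sub hc
    rw [sub_zero] at h1
    have h2 := hm.const_mul 2
    refine tendsto_of_tendsto_of_tendsto_of_le_of_le h1 h2 (fun N => ?_) (fun N => ?_)
    · dsimp only
      rw [← sub_div]
      gcongr
      exact hlow N
    · dsimp only
      rw [← mul_div_assoc]
      gcongr
      exact hup N
  have hsqt : Tendsto (fun N : ℕ => (‖∑ i ∈ range N, (x i - x (-(i : ℤ)))‖ / N) ^ 2) atTop
      (𝓝 0) := by
    have h1 := ((hm.pow 2).const_mul 4).sub (hmid.pow 2)
    have e : 4 * m ^ 2 - (2 * m) ^ 2 = 0 := by ring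
    rw [e] at h1
    refine h1.congr fun N => ?_
    rw [div_pow, div_pow, div_pow, hsq, ← mul_div_assoc, ← sub_div]
  have h1 := hsqt.sqrt
  rw [Real.sqrt_zero] at h1
  refine h1.congr fun N => ?_
  rw [Real.sqrt_sq (by positivity)]

end Pool.Agent.H416.Stat
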