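import Mathlib
import Pool.Agent.H416.Stat
import Pool.Agent.H416.RC

/-!
# Isometries of metric spaces of negative type

An isometry with positive translation length has infinite order in the abelianisation of its
centraliser, in every group of isometries of a metric space of negative type.
-/

set_option autoImplicit false
set_option linter.unusedSectionVars false

namespace Pool.Agent.H416

open Filter Topology Finset

/-- The metric is of negative type: it is a conditionally negative definite kernel. -/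
def NegType (X : Type*) [PseudoMetricSpace X] : Prop :=
  ∀ (s : Finset X) (c : X → ℝ), ∑ x ∈ s, c x = 0 → ∑ x ∈ s, ∑ y ∈ s, c x * c y * dist x y ≤ 0

namespace RCT

/-- Real valued functions which are additive on the centraliser. -/
theorem of_real {G : Type*} [Group G] (g : G) (l : G → ℝ)
    (hl : ∀ a b : G, a * g = g * a → b * g = g * b → l (a * b) = l a + l b) (hg : l g ≠ 0) :
    RC g := by
  let χ : Subgroup.centralizer {g} →* Multiplicative ℝ := MonoidHom.mk'
    (fun a => Multiplicative.ofAdd (l a)) (by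
      intro a b
      rw [← ofAdd_add, Subgroup.coe_mul]
      congr 1
      exact hl _ _ (Subgroup.mem_centralizer_singleton_iff.1 a.2)
        (Subgroup.mem_centralizer_singleton_iff.1 b.2))
  have hgm : g ∈ Subgroup.centralizer {g} := Subgroup.mem_centralizer_singleton_iff.2 rfl
  obtain ⟨ψ, hψ⟩ := exists_ratHom_real χ ⟨g, hgm⟩ hg
  exact of_centralizer g ψ hψ

end RCT

namespace Neg

universe u

variable {X : Type u} [PseudoMetricSpace X]

/-- The kernel. -/
noncomputable def k (o x y : X) : ℝ := (dist x o + dist y o - dist x y) / 2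

theorem k_symm (o x y : X) : k o x y = k o y x := by
  unfold k
  rw [dist_comm x y]
  ring

open Classical in
theorem sum_c (s : Finset X) (o : X) (ho : o ∈ s) (f : X → ℝ) (t : ℝ) (h : X → ℝ) :
    ∑ x ∈ s, (f x - if x = o then t else 0) * h x = ∑ x ∈ s, f x * h x - t * h o := by
  have h1 : ∀ x ∈ s, (f x - if x = o then t else 0) * h x =
      f x * h x - if x = o then t * h o else 0 := by
    intro x _
    split_ifs with hx
    · rw [hx]; ring
    · ring
  rw [Finset.sum_congr rfl h1, Finset.sum_sub_distrib, Finset.sum_ite_eq' s o, if_pos ho]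

theorem psd (hX : NegType X) (o : X) (s : Finset X) (ho : o ∈ s) (f : X → ℝ) :
    0 ≤ ∑ x ∈ s, ∑ y ∈ s, f x * f y * k o x y := by
  classical
  set t : ℝ := ∑ x ∈ s, f x with ht
  set Q : ℝ := ∑ x ∈ s, f x * dist x o with hQ
  set P : ℝ := ∑ x ∈ s, ∑ y ∈ s, f x * f y * dist x y with hP
  have h1 : ∑ x ∈ s, ∑ y ∈ s, f x * f y * k o x y = (t * Q + t * Q - P) / 2 := by
    have e : ∀ x ∈ s, ∑ y ∈ s, f x * f y * k o x y =
        (f x * dist x o) * t / 2 + f x * Q / 2 - (∑ y ∈ s, f x * f y * dist x y) / 2 := by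
      intro x _
      rw [ht, hQ, Finset.mul_sum, Finset.mul_sum, Finset.sum_div, Finset.sum_div, Finset.sum_div,
        ← Finset.sum_add_distrib, ← Finset.sum_sub_distrib]
      refine Finset.sum_congr rfl fun y _ => ?_
      unfold k
      ring
    rw [Finset.sum_congr rfl e, Finset.sum_sub_distrib, Finset.sum_add_distrib, ← Finset.sum_div,
      ← Finset.sum_div, ← Finset.sum_div, ← Finset.sum_mul, ← Finset.sum_mul, ← hQ, ← ht, ← hP]
    ring
  have h2 := hX s (fun x => f x - if x = o then t else 0) (by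
    rw [Finset.sum_sub_distrib, Finset.sum_ite_eq' s o, if_pos ho, sub_self])
  have h3 : ∑ x ∈ s, ∑ y ∈ s, (f x - if x = o then t else 0) * (f y - if y = o then t else 0) *
      dist x y = P - 2 * t * Q := by
    have e : ∀ x ∈ s, ∑ y ∈ s, (f x - if x = o then t else 0) * (f y - if y = o then t else 0) *
        dist x y = (f x - if x = o then t else 0) * (∑ y ∈ s, f y * dist x y - t * dist x o) := by
      intro x _
      rw [← sum_c s o ho f t (fun y => dist x y), Finset.mul_sum]
      refine Finset.sum_congr rfl fun y _ => ?_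
      ring
    rw [Finset.sum_congr rfl e, sum_c s o ho f t (fun x => ∑ y ∈ s, f y * dist x y - t * dist x o)]
    have e2 : ∑ x ∈ s, f x * (∑ y ∈ s, f y * dist x y - t * dist x o) = P - t * Q := by
      rw [hP, hQ, Finset.mul_sum, ← Finset.sum_sub_distrib]
      refine Finset.sum_congr rfl fun x _ => ?_
      rw [mul_sub, Finset.mul_sum]
      congr 1
      · refine Finset.sum_congr rfl fun y _ => ?_
        ring
      · ring
    have e3 : ∑ y ∈ s, f y * dist o y = Q := by
      rw [hQ]
      refine Finset.sum_congr rfl fun y _ => ?_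
      rw [dist_comm]
    rw [e2, e3, dist_self]
    ring
  rw [h3] at h2
  rw [h1]
  linarith

/-- The inner product on the finitely supported functions. -/
@[instance_reducible]
noncomputable def core (hX : NegType X) (o : X) : PreInnerProductSpace.Core ℝ (X →₀ ℝ) where
  inner f g := f.sum fun x a => g.sum fun y b => a * b * k o x y
  conj_inner_symm f g := by
    rw [Finsupp.sum_comm]
    simp only [conj_trivial]
    refine Finsupp.sum_congr fun x _ => Finsupp.sum_congr fun y _ => ?_
    rw [k_symm]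
    ring
  re_inner_nonneg f := by
    classical
    change 0 ≤ f.sum fun x a => f.sum fun y b => a * b * k o x y
    have hs : f.support ⊆ insert o f.support := Finset.subset_insert _ _
    rw [Finsupp.sum_of_support_subset f hs _ (by simp)]
    have h1 : ∀ x ∈ insert o f.support, (f.sum fun y b => f x * b * k o x y) =
        ∑ y ∈ insert o f.support, f x * f y * k o x y := fun x _ =>
      Finsupp.sum_of_support_subset f hs _ (by simp)
    rw [Finset.sum_congr rfl h1]
    exact psd hX o _ (Finset.mem_insert_self _ _) f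
  add_left f f' g := by
    rw [Finsupp.sum_add_index']
    · intro x
      simp [Finsupp.sum]
    · intro x a b
      rw [← Finsupp.sum_add]
      refine Finsupp.sum_congr fun y _ => ?_
      ring
  smul_left f g r := by
    rw [Finsupp.sum_smul_index, conj_trivial, Finsupp.mul_sum]
    · refine Finsupp.sum_congr fun x _ => ?_
      rw [Finsupp.mul_sum]
      refine Finsupp.sum_congr fun y _ => ?_
      ring
    · intro x
      simp [Finsupp.sum]

/-- The embedding in a pre-Hilbert space. -/
theorem exists_embedding {X : Type u} [PseudoMetricSpace X] (hX : NegType X) (o : X) :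
    ∃ (V : Type u) (_ : SeminormedAddCommGroup V) (_ : InnerProductSpace ℝ V)
      (F : X → V), ∀ x y, ‖F x - F y‖ ^ 2 = dist x y := by
  let c := core hX o
  let i1 : SeminormedAddCommGroup (X →₀ ℝ) :=
    InnerProductSpace.Core.toSeminormedAddCommGroup (𝕜 := ℝ)
  let i2 : InnerProductSpace ℝ (X →₀ ℝ) := InnerProductSpace.ofCore c
  refine ⟨X →₀ ℝ, i1, i2, fun x => Finsupp.single x 1, fun x y => ?_⟩
  have hin : ∀ x y : X, inner ℝ (Finsupp.single x (1 : ℝ)) (Finsupp.single y (1 : ℝ)) = k o x y := by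
    intro x y
    change (Finsupp.single x (1 : ℝ)).sum (fun x a => (Finsupp.single y (1 : ℝ)).sum
      fun y b => a * b * k o x y) = _
    rw [Finsupp.sum_single_index, Finsupp.sum_single_index]
    · ring
    · simp
    · simp [Finsupp.sum]
  rw [← real_inner_self_eq_norm_sq, inner_sub_left, inner_sub_right, inner_sub_right, hin, hin,
    hin, hin]
  unfold k
  rw [dist_self, dist_self, dist_comm y x]
  ring

theorem polar {V : Type*} [SeminormedAddCommGroup V] [InnerProductSpace ℝ V] (p q r s : V) :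
    2 * inner ℝ (p - q) (r - s) = ‖p - s‖ ^ 2 + ‖q - r‖ ^ 2 - ‖p - r‖ ^ 2 - ‖q - s‖ ^ 2 := by
  rw [← real_inner_self_eq_norm_sq, ← real_inner_self_eq_norm_sq, ← real_inner_self_eq_norm_sq,
    ← real_inner_self_eq_norm_sq]
  simp only [inner_sub_left, inner_sub_right]
  rw [real_inner_comm p s, real_inner_comm q r, real_inner_comm p r, real_inner_comm q s]
  ring

/-- Bounded sequences have limits along an ultrafilter. -/
theorem exists_ulim (u : ℕ → ℝ) (C : ℝ) (h : ∀ n, |u n| ≤ C) :
    ∃ a, Tendsto u (hyperfilter ℕ) (𝓝 a) := by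
  obtain ⟨a, _, ha⟩ := (isCompact_Icc (a := -C) (b := C)).ultrafilter_le_nhds
    (Ultrafilter.map u (hyperfilter ℕ)) (by
      rw [le_principal_iff]
      refine Filter.mem_map.2 (Filter.univ_mem' fun n => ?_)
      exact abs_le.1 (h n))
  exact ⟨a, ha⟩

theorem hyper_le : (hyperfilter ℕ : Filter ℕ) ≤ atTop := by
  rw [← Nat.cofinite_eq_atTop]
  exact hyperfilter_le_cofinite

section char

variable {H : Type*} [Group H] (φ : H →* (X ≃ᵢ X)) (g : H) (x : X)

theorem app_mul (a b : H) (y : X) : φ (a * b) y = φ a (φ b y) := by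
  rw [map_mul]
  rfl

theorem app_one (y : X) : φ 1 y = y := by
  rw [map_one]
  rfl

theorem dist_app (a : H) (y z : X) : dist (φ a y) (φ a z) = dist y z := (φ a).dist_eq y z

theorem dist_neg (i : ℤ) (y : X) : dist (φ (g ^ (-i)) y) y = dist (φ (g ^ i) y) y := by
  rw [← dist_app φ (g ^ i) (φ (g ^ (-i)) y) y, ← app_mul, ← zpow_add, add_neg_cancel, zpow_zero,
    app_one, dist_comm]

/-- The averages. -/
noncomputable def avg (N : ℕ) (c : H) : ℝ :=
  (∑ i ∈ range N, (dist (φ (g ^ (-(i : ℤ))) x) (φ c x) - dist (φ (g ^ (i : ℤ)) x) (φ c x))) / N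

theorem avg_bound (N : ℕ) (c : H) : |avg φ g x N c| ≤ 2 * dist x (φ c x) := by
  unfold avg
  rcases Nat.eq_zero_or_pos N with rfl | hN
  · simp
  · have hN' : (0 : ℝ) < N := by exact_mod_cast hN
    rw [abs_div, abs_of_pos hN', div_le_iff₀ hN']
    refine (Finset.abs_sum_le_sum_abs _ _).trans ?_
    have h1 : ∀ i ∈ range N, |dist (φ (g ^ (-(i : ℤ))) x) (φ c x) -
        dist (φ (g ^ (i : ℤ)) x) (φ c x)| ≤ 2 * dist x (φ c x) := by
      intro i _
      have e1 := abs_dist_sub_le x (φ c x) (φ (g ^ (-(i : ℤ))) x)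
      have e2 := abs_dist_sub_le x (φ c x) (φ (g ^ (i : ℤ)) x)
      rw [dist_comm x, dist_comm (φ c x) (φ _ x), dist_neg] at e1
      rw [dist_comm x, dist_comm (φ c x) (φ _ x)] at e2
      rw [abs_le] at e1 e2 ⊢
      constructor <;> linarith [e1.1, e1.2, e2.1, e2.2]
    refine (Finset.sum_le_sum h1).trans ?_
    rw [Finset.sum_const, Finset.card_range, nsmul_eq_mul]
    linarith

theorem sum_dist (N : ℕ) :
    ∑ i ∈ range (N + 1), (dist (φ (g ^ (-(i : ℤ))) x) (φ g x) - dist (φ (g ^ (i : ℤ)) x) (φ g x)) =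
      dist x (φ (g ^ (N + 1)) x) + dist x (φ (g ^ N) x) - dist x (φ g x) := by
  have e1 : ∀ i : ℕ, dist (φ (g ^ (-(i : ℤ))) x) (φ g x) = dist x (φ (g ^ (i + 1)) x) := by
    intro i
    rw [← dist_app φ (g ^ (i : ℤ)) (φ (g ^ (-(i : ℤ))) x) (φ g x), ← app_mul, ← app_mul, ← zpow_add,
      add_neg_cancel, zpow_zero, app_one, zpow_natCast, pow_succ]
  have e2 : ∀ i : ℕ, dist (φ (g ^ ((i + 1 : ℕ) : ℤ)) x) (φ g x) = dist x (φ (g ^ i) x) := by
    intro i
    rw [zpow_natCast, pow_succ', app_mul, dist_app, dist_comm]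
  induction N with
  | zero =>
    rw [zero_add, Finset.sum_range_one, e1]
    simp only [Nat.cast_zero, zpow_zero, zero_add, pow_one, pow_zero]
    rw [app_one, dist_self]
    ring
  | succ N ih =>
    rw [Finset.sum_range_succ, ih, e1, e2]
    ring

/-- The limit of the averages is additive on the centraliser. -/
theorem avg_add (hX : NegType X) {c c' : H} (hc : c * g = g * c) :
    Tendsto (fun N => avg φ g x N (c * c') - avg φ g x N c - avg φ g x N c') atTop (𝓝 0) := by
  obtain ⟨V, i1, i2, F, hF⟩ := exists_embedding hX x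
  have hpol : ∀ p q r s : X, 2 * inner ℝ (F p - F q) (F r - F s) =
      dist p s + dist q r - dist p r - dist q s := by
    intro p q r s
    rw [polar, hF, hF, hF, hF]
  have hcomm : ∀ (a : H), a * g = g * a → ∀ i : ℤ, a * g ^ i = g ^ i * a := by
    intro a ha i
    exact Commute.zpow_right (show Commute a g from ha) i
  -- the averages are inner products
  have h1 : ∀ (N : ℕ) (a : H), avg φ g x N a =
      2 * inner ℝ (∑ i ∈ range N, (F (φ (g ^ (i : ℤ)) x) - F (φ (g ^ (-(i : ℤ))) x)))
        (F (φ a x) - F x) / N := by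
    intro N a
    unfold avg
    rw [sum_inner, Finset.mul_sum]
    congr 1
    refine Finset.sum_congr rfl fun i _ => ?_
    rw [hpol, dist_neg]
    ring
  have h2 : ∀ N : ℕ, inner ℝ (∑ i ∈ range N, (F (φ (g ^ (i : ℤ)) x) - F (φ (g ^ (-(i : ℤ))) x)))
      (F (φ (c * c') x) - F (φ c x)) =
      (inner ℝ (∑ i ∈ range N, (F (φ (g ^ (i : ℤ)) (φ c⁻¹ x)) -
        F (φ (g ^ (-(i : ℤ))) (φ c⁻¹ x)))) (F (φ c' x) - F x) : ℝ) := by
    intro N
    rw [sum_inner, sum_inner]
    refine Finset.sum_congr rfl fun i _ => ?_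
    have h3 : (2 : ℝ) ≠ 0 := two_ne_zero
    apply mul_left_cancel₀ h3
    rw [hpol, hpol]
    have e : ∀ (j : ℤ) (y : X), dist (φ (g ^ j) x) (φ c y) = dist (φ (g ^ j) (φ c⁻¹ x)) y := by
      intro j y
      rw [← dist_app φ c (φ (g ^ j) (φ c⁻¹ x)) y, ← app_mul φ c, hcomm c hc, app_mul, ← app_mul φ c,
        mul_inv_cancel, app_one]
    rw [app_mul, e, e, e, e]
  -- the stationary sequence
  let y : ℤ → V := fun n => F (φ (g ^ n) (φ c⁻¹ x)) - F (φ (g ^ n) x)
  have hy : Stat.Stationary y := by
    intro m n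
    have h3 : (2 : ℝ) ≠ 0 := two_ne_zero
    apply mul_left_cancel₀ h3
    change 2 * inner ℝ (F _ - F _) (F _ - F _) = 2 * inner ℝ (F _ - F _) (F _ - F _)
    rw [hpol, hpol]
    have e : ∀ (i j : ℤ) (p q : X), dist (φ (g ^ (i + 1)) p) (φ (g ^ (j + 1)) q) =
        dist (φ (g ^ i) p) (φ (g ^ j) q) := by
      intro i j p q
      rw [add_comm i, add_comm j, zpow_add, zpow_add, zpow_one, app_mul, app_mul, dist_app]
    rw [e, e, e, e]
  have h4 := Stat.tendsto_two_sided hy
  have h5 : ∀ N : ℕ, avg φ g x N (c * c') - avg φ g x N c - avg φ g x N c' =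
      2 * (inner ℝ (∑ i ∈ range N, (y i - y (-(i : ℤ)))) (F (φ c' x) - F x) : ℝ) / N := by
    intro N
    have h6 : ∑ i ∈ range N, (y i - y (-(i : ℤ))) =
        (∑ i ∈ range N, (F (φ (g ^ (i : ℤ)) (φ c⁻¹ x)) - F (φ (g ^ (-(i : ℤ))) (φ c⁻¹ x)))) -
        ∑ i ∈ range N, (F (φ (g ^ (i : ℤ)) x) - F (φ (g ^ (-(i : ℤ))) x)) := by
      rw [← Finset.sum_sub_distrib]
      refine Finset.sum_congr rfl fun i _ => ?_
      change F _ - F _ - (F _ - F _) = _
      abel
    rw [h6, inner_sub_left, ← h2, h1, h1, h1]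
    have h7 : F (φ (c * c') x) - F x = (F (φ (c * c') x) - F (φ c x)) + (F (φ c x) - F x) := by
      abel
    rw [h7, inner_add_right]
    ring
  have h8 : Tendsto (fun N : ℕ => 2 * ‖F (φ c' x) - F x‖ *
      (‖∑ i ∈ range N, (y i - y (-(i : ℤ)))‖ / N)) atTop (𝓝 0) := by
    have := h4.const_mul (2 * ‖F (φ c' x) - F x‖)
    rwa [mul_zero] at this
  refine squeeze_zero_norm (fun N => ?_) h8
  rw [h5, Real.norm_eq_abs, abs_div, abs_mul, Nat.abs_cast, abs_two]
  have h9 := abs_real_inner_le_norm (∑ i ∈ range N, (y i - y (-(i : ℤ)))) (F (φ c' x) - F x)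
  rw [mul_div_assoc, mul_assoc]
  refine mul_le_mul_of_nonneg_left ?_ zero_le_two
  rw [← mul_div_assoc]
  gcongr
  linarith

/-- **Isometries with positive translation length.** -/
theorem rc_of_negType (hX : NegType X) (c : ℝ) (hc : 0 < c)
    (hd : ∀ n : ℕ, c * n ≤ dist x (φ (g ^ n) x)) : RC g := by
  have hlim : ∀ a : H, ∃ r, Tendsto (fun N => avg φ g x N a) (hyperfilter ℕ) (𝓝 r) := fun a =>
    exists_ulim _ _ fun N => avg_bound φ g x N a
  choose l hl using hlim
  refine RCT.of_real g l (fun a b ha _ => ?_) ?_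
  · have h1 := (avg_add φ g x hX ha (c' := b)).mono_left hyper_le
    have h2 := ((hl (a * b)).sub (hl a)).sub (hl b)
    have h3 := tendsto_nhds_unique h1 h2
    linarith
  · have h1 : ∀ᶠ N : ℕ in hyperfilter ℕ, 2 * c - (c + dist x (φ g x)) / N ≤ avg φ g x N g := by
      apply Filter.Eventually.filter_mono hyper_le
      filter_upwards [eventually_gt_atTop 0] with N hN
      obtain ⟨M, rfl⟩ := Nat.exists_eq_succ_of_ne_zero hN.ne'
      unfold avg
      rw [Nat.succ_eq_add_one, sum_dist]
      have hM : (0 : ℝ) < ((M + 1 : ℕ) : ℝ) := by positivity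
      rw [le_div_iff₀ hM, sub_mul, div_mul_cancel₀ _ hM.ne']
      have e1 := hd (M + 1)
      have e2 := hd M
      push_cast at e1 ⊢
      linarith
    have h2 : Tendsto (fun N : ℕ => 2 * c - (c + dist x (φ g x)) / N) (hyperfilter ℕ)
        (𝓝 (2 * c)) := by
      have h3 : Tendsto (fun N : ℕ => 2 * c - (c + dist x (φ g x)) / N) atTop (𝓝 (2 * c - 0)) :=
        tendsto_const_nhds.sub (tendsto_const_div_atTop_nhds_zero_nat _)
      rw [sub_zero] at h3
      exact h3.mono_left hyper_le
    have h4 := le_of_tendsto_of_tendsto h2 (hl g) h1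
    intro h0
    rw [h0] at h4
    linarith

end char

end Neg

end Pool.Agent.H416
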