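import Mathlib
import Pool.Agent.H416.NegType

/-!
# Isometries of CAT(0) spaces

An isometry with positive translation length has infinite order in the abelianisation of its
centraliser, in every group of isometries of a CAT(0) space (not necessarily complete or proper).
-/

set_option autoImplicit false
set_option linter.unusedSectionVars false

namespace Pool.Agent.H416

open Filter Topology Finset

/-- CAT(0) spaces: between all points `y`, `z` there are points `m` at the proportions `t` for which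
the comparison inequality holds. -/
def IsCAT0 (X : Type*) [PseudoMetricSpace X] : Prop :=
  ∀ (y z : X) (t : ℝ), 0 ≤ t → t ≤ 1 → ∃ m : X, ∀ x : X,
    dist x m ^ 2 ≤ (1 - t) * dist x y ^ 2 + t * dist x z ^ 2 - t * (1 - t) * dist y z ^ 2

namespace Cat0

variable {X : Type*} [PseudoMetricSpace X]

/-- The quadruple comparison with the sides. -/
theorem round_two (hX : IsCAT0 X) (y z p q : X) :
    dist y q ^ 2 + dist z p ^ 2 - dist y p ^ 2 - dist z q ^ 2 ≤ dist y z ^ 2 + dist p q ^ 2 := by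
  obtain ⟨m, hm⟩ := hX y q (1 / 2) (by norm_num) (by norm_num)
  have h1 := hm z
  have h2 := hm p
  have h3 : dist z p ≤ dist z m + dist p m := by
    rw [dist_comm p m]
    exact dist_triangle _ _ _
  have h4 : dist z p ^ 2 ≤ 2 * dist z m ^ 2 + 2 * dist p m ^ 2 := by
    have h5 : dist z p ^ 2 ≤ (dist z m + dist p m) ^ 2 := by
      gcongr
    nlinarith [sq_nonneg (dist z m - dist p m)]
  rw [dist_comm z y] at h1
  rw [dist_comm p y] at h2
  nlinarith

/-- Equidistant chains. -/
theorem exists_chain (hX : IsCAT0 X) (y z : X) (N : ℕ) (hN : 0 < N) :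
    ∃ m : ℕ → X, (∀ x, dist x (m 0) = dist x y) ∧ (∀ x, dist x (m N) = dist x z) ∧
      ∀ i, i < N → dist (m i) (m (i + 1)) ≤ dist y z / N := by
  have hN' : (0 : ℝ) < N := by exact_mod_cast hN
  have hex : ∀ i : ℕ, ∃ m : X, i ≤ N → ∀ x : X,
      dist x m ^ 2 ≤ (1 - (i / N : ℝ)) * dist x y ^ 2 + (i / N : ℝ) * dist x z ^ 2 -
        (i / N : ℝ) * (1 - (i / N : ℝ)) * dist y z ^ 2 := by
    intro i
    by_cases hi : i ≤ N
    · obtain ⟨m, hm⟩ := hX y z (i / N : ℝ) (by positivity) (by
        rw [div_le_one hN']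
        exact_mod_cast hi)
      exact ⟨m, fun _ => hm⟩
    · exact ⟨y, fun h => absurd h hi⟩
  choose m hm using hex
  have h0 : dist y (m 0) = 0 := by
    have h1 := hm 0 (Nat.zero_le _) y
    rw [Nat.cast_zero, zero_div, dist_self] at h1
    have h2 : dist y (m 0) ^ 2 ≤ 0 := by linarith
    exact pow_eq_zero_iff two_ne_zero |>.1 (le_antisymm h2 (sq_nonneg _))
  have h1 : dist z (m N) = 0 := by
    have h1 := hm N le_rfl z
    rw [div_self hN'.ne', dist_self] at h1
    have h2 : dist z (m N) ^ 2 ≤ 0 := by linarith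
    exact pow_eq_zero_iff two_ne_zero |>.1 (le_antisymm h2 (sq_nonneg _))
  have key : ∀ {a b : X}, dist a b = 0 → ∀ x, dist x b = dist x a := by
    intro a b hab x
    apply le_antisymm
    · have := dist_triangle x a b
      linarith
    · have := dist_triangle x b a
      rw [dist_comm b a] at this
      linarith
  refine ⟨m, key h0, key h1, fun i hi => ?_⟩
  set s : ℝ := (i / N : ℝ) with hs
  set t : ℝ := ((i + 1 : ℕ) / N : ℝ) with ht
  set a : ℝ := dist y z with ha
  have hst : t - s = 1 / N := by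
    rw [hs, ht]
    push_cast
    field_simp
    ring
  have hs0 : 0 ≤ s := by positivity
  have ht0 : 0 ≤ t := by positivity
  have hs1 : s ≤ 1 := by
    rw [hs, div_le_one hN']
    exact_mod_cast hi.le
  have ht1 : t ≤ 1 := by
    rw [ht, div_le_one hN']
    exact_mod_cast hi
  have e1 := hm (i + 1) hi (m i)
  have e2 := hm i hi.le y
  have e3 := hm i hi.le z
  rw [dist_self] at e2 e3
  rw [dist_comm z y, ← ha] at e3
  rw [← ha] at e2
  rw [dist_comm (m i) y, dist_comm (m i) z] at e1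
  have e4 : dist (m i) (m (i + 1)) ^ 2 ≤ (a / N) ^ 2 := by
    have e5 : (a / N) ^ 2 = (t - s) ^ 2 * a ^ 2 := by
      rw [hst]
      ring
    rw [e5]
    have e6 : dist y (m i) ^ 2 ≤ s ^ 2 * a ^ 2 := by
      have : (1 - s) * 0 ^ 2 + s * a ^ 2 - s * (1 - s) * a ^ 2 = s ^ 2 * a ^ 2 := by ring
      linarith
    have e7 : dist z (m i) ^ 2 ≤ (1 - s) ^ 2 * a ^ 2 := by
      have : (1 - s) * a ^ 2 + s * 0 ^ 2 - s * (1 - s) * a ^ 2 = (1 - s) ^ 2 * a ^ 2 := by ring
      linarith
    have e8 : (1 - t) * dist y (m i) ^ 2 ≤ (1 - t) * (s ^ 2 * a ^ 2) :=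
      mul_le_mul_of_nonneg_left e6 (by linarith)
    have e9 : t * dist z (m i) ^ 2 ≤ t * ((1 - s) ^ 2 * a ^ 2) :=
      mul_le_mul_of_nonneg_left e7 ht0
    have e10 : (1 - t) * (s ^ 2 * a ^ 2) + t * ((1 - s) ^ 2 * a ^ 2) - t * (1 - t) * a ^ 2 =
      (t - s) ^ 2 * a ^ 2 := by ring
    linarith
  exact (sq_le_sq₀ dist_nonneg (by positivity)).1 e4

/-- The quadruple comparison for the products. -/
theorem quad_rat (hX : IsCAT0 X) (y z p q : X) (N M : ℕ) (hN : 0 < N) (hM : 0 < M) :
    dist y q ^ 2 + dist z p ^ 2 - dist y p ^ 2 - dist z q ^ 2 ≤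
      M / N * dist y z ^ 2 + N / M * dist p q ^ 2 := by
  obtain ⟨u, hu0, hu1, hu⟩ := exists_chain hX y z N hN
  obtain ⟨v, hv0, hv1, hv⟩ := exists_chain hX p q M hM
  have hN' : (0 : ℝ) < N := by exact_mod_cast hN
  have hM' : (0 : ℝ) < M := by exact_mod_cast hM
  -- the telescoping sum
  have h1 : ∑ i ∈ range N, ∑ j ∈ range M, (dist (u i) (v (j + 1)) ^ 2 + dist (u (i + 1)) (v j) ^ 2 -
      dist (u i) (v j) ^ 2 - dist (u (i + 1)) (v (j + 1)) ^ 2) =
      dist y q ^ 2 + dist z p ^ 2 - dist y p ^ 2 - dist z q ^ 2 := by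
    have h2 : ∀ i ∈ range N, ∑ j ∈ range M, (dist (u i) (v (j + 1)) ^ 2 +
        dist (u (i + 1)) (v j) ^ 2 - dist (u i) (v j) ^ 2 - dist (u (i + 1)) (v (j + 1)) ^ 2) =
        (dist (u i) (v M) ^ 2 - dist (u i) (v 0) ^ 2) -
          (dist (u (i + 1)) (v M) ^ 2 - dist (u (i + 1)) (v 0) ^ 2) := by
      intro i _
      rw [← Finset.sum_range_sub (fun j => dist (u i) (v j) ^ 2),
        ← Finset.sum_range_sub (fun j => dist (u (i + 1)) (v j) ^ 2), ← Finset.sum_sub_distrib]
      refine Finset.sum_congr rfl fun j _ => ?_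
      ring
    rw [Finset.sum_congr rfl h2,
      Finset.sum_range_sub' (fun i => dist (u i) (v M) ^ 2 - dist (u i) (v 0) ^ 2)]
    rw [hv1, hv1, hv0, hv0, dist_comm (u 0), dist_comm (u N), dist_comm (u 0), dist_comm (u N), hu0,
      hu1, hu0, hu1, dist_comm q, dist_comm q, dist_comm p, dist_comm p]
    ring
  rw [← h1]
  have h3 : ∀ i ∈ range N, ∀ j ∈ range M, dist (u i) (v (j + 1)) ^ 2 +
      dist (u (i + 1)) (v j) ^ 2 - dist (u i) (v j) ^ 2 - dist (u (i + 1)) (v (j + 1)) ^ 2 ≤
      (dist y z / N) ^ 2 + (dist p q / M) ^ 2 := by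
    intro i hi j hj
    refine (round_two hX (u i) (u (i + 1)) (v j) (v (j + 1))).trans ?_
    have e1 := hu i (mem_range.1 hi)
    have e2 := hv j (mem_range.1 hj)
    gcongr
  refine (Finset.sum_le_sum fun i hi => Finset.sum_le_sum fun j hj => h3 i hi j hj).trans ?_
  rw [Finset.sum_const, Finset.sum_const, Finset.card_range, Finset.card_range, nsmul_eq_mul,
    nsmul_eq_mul]
  apply le_of_eq
  field_simp

theorem le_two_mul {a b D : ℝ} (ha : 0 ≤ a) (hb : 0 ≤ b)
    (h : ∀ N M : ℕ, 0 < N → 0 < M → D ≤ (M / N : ℝ) * a ^ 2 + (N / M : ℝ) * b ^ 2) :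
    D ≤ 2 * a * b := by
  -- all positive real ratios
  have h1 : ∀ r : ℝ, 0 < r → D ≤ r⁻¹ * a ^ 2 + r * b ^ 2 := by
    intro r hr
    have hq : ∀ q : ℚ, 0 < q → D ≤ (q : ℝ)⁻¹ * a ^ 2 + q * b ^ 2 := by
      intro q hq
      have hnum : 0 < q.num := Rat.num_pos.2 hq
      have h2 := h q.num.toNat q.den (by omega) q.den_pos
      have h3 : ((q.num.toNat : ℕ) : ℝ) = (q.num : ℝ) := by
        have : ((q.num.toNat : ℕ) : ℤ) = q.num := Int.toNat_of_nonneg hnum.le
        exact_mod_cast this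
      rw [h3] at h2
      have h4 : (q : ℝ) = (q.num : ℝ) / (q.den : ℝ) := Rat.cast_def q
      rw [h4, inv_div]
      exact h2
    have hcont : ContinuousAt (fun s : ℝ => s⁻¹ * a ^ 2 + s * b ^ 2) r := by
      have : r ≠ 0 := hr.ne'
      fun_prop (disch := assumption)
    by_contra hcon
    push Not at hcon
    have h2 : ∀ᶠ s in 𝓝 r, s⁻¹ * a ^ 2 + s * b ^ 2 < D := hcont.eventually_lt_const hcon
    obtain ⟨l, u, ⟨hl, hu⟩, hlu⟩ := mem_nhds_iff_exists_Ioo_subset.1 h2
    obtain ⟨q, hq1, hq2⟩ := exists_rat_btwn (show max 0 (max l (r / 2)) < u by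
      rw [max_lt_iff, max_lt_iff]
      exact ⟨hr.trans hu, hl.trans hu, by linarith⟩)
    rw [max_lt_iff, max_lt_iff] at hq1
    have h3 := hlu ⟨hq1.2.1, hq2⟩
    have h4 := hq q (by exact_mod_cast hq1.1)
    have h5 : (q : ℝ)⁻¹ * a ^ 2 + q * b ^ 2 < D := h3
    linarith
  rcases eq_or_lt_of_le ha with rfl | ha'
  · by_contra hcon
    push Not at hcon
    have hD : 0 < D := by
      have : 2 * (0 : ℝ) * b = 0 := by ring
      linarith
    have h2 := h1 (D / (2 * (b ^ 2 + 1))) (by positivity)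
    have h3 : D / (2 * (b ^ 2 + 1)) * b ^ 2 ≤ D / 2 := by
      rw [div_mul_eq_mul_div, div_le_div_iff₀ (by positivity) (by norm_num)]
      nlinarith
    have h4 : (D / (2 * (b ^ 2 + 1)))⁻¹ * (0 : ℝ) ^ 2 = 0 := by ring
    linarith
  · rcases eq_or_lt_of_le hb with rfl | hb'
    · by_contra hcon
      push Not at hcon
      have hD : 0 < D := by
        have : 2 * a * (0 : ℝ) = 0 := by ring
        linarith
      have h2 := h1 (2 * a ^ 2 / D) (by positivity)
      have h3 : (2 * a ^ 2 / D)⁻¹ * a ^ 2 = D / 2 := by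
        field_simp
      have h4 : (2 * a ^ 2 / D) * (0 : ℝ) ^ 2 = 0 := by ring
      linarith
    · have h2 := h1 (a / b) (by positivity)
      have h3 : (a / b)⁻¹ * a ^ 2 + a / b * b ^ 2 = 2 * a * b := by
        field_simp
        ring
      linarith

/-- **The quadruple comparison** (Berg–Nikolaev, Korevaar–Schoen). -/
theorem quad (hX : IsCAT0 X) (y z p q : X) :
    dist y q ^ 2 + dist z p ^ 2 - dist y p ^ 2 - dist z q ^ 2 ≤ 2 * dist y z * dist p q :=
  le_two_mul dist_nonneg dist_nonneg fun N M hN hM => quad_rat hX y z p q N M hN hM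

theorem quad_abs (hX : IsCAT0 X) (y z p q : X) :
    |dist y q ^ 2 - dist z q ^ 2 - (dist y p ^ 2 - dist z p ^ 2)| ≤ 2 * dist y z * dist p q := by
  rw [abs_le]
  have h1 := quad hX y z p q
  have h2 := quad hX y z q p
  rw [dist_comm q p] at h2
  constructor <;> linarith

/-- Differences of distances to far points. -/
theorem diff_bound (hX : IsCAT0 X) (y z p q : X) :
    |(dist y q - dist z q) - (dist y p - dist z p)| * (dist z p - dist p q) ≤
      4 * dist y z * dist p q := by
  set A := dist y q with hA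
  set B := dist z q with hB
  set C := dist y p with hC
  set E := dist z p with hE
  set a := dist y z with ha
  set b := dist p q with hb
  have h1 : |A ^ 2 - B ^ 2 - (C ^ 2 - E ^ 2)| ≤ 2 * a * b := quad_abs hX y z p q
  have h2 : |C - E| ≤ a := by
    rw [hC, hE, ha]
    have := abs_dist_sub_le y z p
    exact this
  have h3 : |A - C| ≤ b := by
    rw [hA, hC, hb, dist_comm y q, dist_comm y p, dist_comm p q]
    exact abs_dist_sub_le q p y
  have h4 : |B - E| ≤ b := by
    rw [hB, hE, hb, dist_comm z q, dist_comm z p, dist_comm p q]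
    exact abs_dist_sub_le q p z
  have hA0 : 0 ≤ A := dist_nonneg
  have ha0 : 0 ≤ a := dist_nonneg
  have hb0 : 0 ≤ b := dist_nonneg
  set e := (A - B) - (C - E) with he
  have h5 : e * (A + B) = (A ^ 2 - B ^ 2 - (C ^ 2 - E ^ 2)) - (C - E) * ((A - C) + (B - E)) := by
    rw [he]
    ring
  have h6 : |e| * (A + B) ≤ 4 * a * b := by
    have hAB : 0 ≤ A + B := add_nonneg dist_nonneg dist_nonneg
    rw [← abs_of_nonneg hAB, ← abs_mul, h5]
    refine (abs_sub _ _).trans ?_
    have h7 : |(C - E) * ((A - C) + (B - E))| ≤ a * (2 * b) := by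
      rw [abs_mul]
      refine mul_le_mul h2 ?_ (abs_nonneg _) ha0
      refine (abs_add_le _ _).trans ?_
      linarith
    linarith
  have h8 : E - b ≤ A + B := by
    have := (abs_le.1 h4).1
    linarith
  exact (mul_le_mul_of_nonneg_left h8 (abs_nonneg e)).trans h6

section char

variable {H : Type*} [Group H] (φ : H →* (X ≃ᵢ X)) (g : H) (x : X)

open Neg (app_mul app_one dist_app exists_ulim hyper_le)

/-- The averages. -/
noncomputable def avg (N : ℕ) (h : H) : ℝ :=
  (∑ n ∈ range N, (dist (φ h⁻¹ x) (φ (g ^ n) x) - dist x (φ (g ^ n) x))) / N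

theorem avg_bound (N : ℕ) (h : H) : |avg φ g x N h| ≤ dist (φ h⁻¹ x) x := by
  unfold avg
  rcases Nat.eq_zero_or_pos N with rfl | hN
  · simp
  · have hN' : (0 : ℝ) < N := by exact_mod_cast hN
    rw [abs_div, abs_of_pos hN', div_le_iff₀ hN']
    refine (Finset.abs_sum_le_sum_abs _ _).trans ?_
    refine (Finset.sum_le_sum fun n _ => abs_dist_sub_le (φ h⁻¹ x) x (φ (g ^ n) x)).trans ?_
    rw [Finset.sum_const, Finset.card_range, nsmul_eq_mul, mul_comm]

theorem avg_add (hX : IsCAT0 X) (c : ℝ) (hc : 0 < c) (hd : ∀ n : ℕ, c * n ≤ dist x (φ (g ^ n) x))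
    {h k : H} (hk : k * g = g * k) :
    Tendsto (fun N => avg φ g x N (h * k) - avg φ g x N h - avg φ g x N k) atTop (𝓝 0) := by
  have hcomm : ∀ n : ℕ, k * g ^ n = g ^ n * k := fun n =>
    Commute.pow_right (show Commute k g from hk) n
  -- the error terms
  let e : ℕ → ℝ := fun n => (dist (φ h⁻¹ x) (φ (g ^ n) (φ k x)) - dist x (φ (g ^ n) (φ k x))) -
    (dist (φ h⁻¹ x) (φ (g ^ n) x) - dist x (φ (g ^ n) x))
  have h1 : ∀ N, avg φ g x N (h * k) - avg φ g x N h - avg φ g x N k =
      (N : ℝ)⁻¹ * ∑ n ∈ range N, e n := by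
    intro N
    unfold avg
    rw [← sub_div, ← sub_div, ← Finset.sum_sub_distrib, ← Finset.sum_sub_distrib, div_eq_inv_mul]
    congr 1
    refine Finset.sum_congr rfl fun n _ => ?_
    have e1 : dist (φ (h * k)⁻¹ x) (φ (g ^ n) x) = dist (φ h⁻¹ x) (φ (g ^ n) (φ k x)) := by
      rw [← dist_app φ k (φ (h * k)⁻¹ x) (φ (g ^ n) x), ← app_mul, ← app_mul, ← app_mul, hcomm,
        mul_inv_rev, mul_inv_cancel_left]
    have e2 : dist (φ k⁻¹ x) (φ (g ^ n) x) = dist x (φ (g ^ n) (φ k x)) := by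
      rw [← dist_app φ k (φ k⁻¹ x) (φ (g ^ n) x), ← app_mul, ← app_mul, ← app_mul, hcomm,
        mul_inv_cancel, app_one]
    change _ = (_ - _) - (_ - _)
    rw [e1, e2]
    ring
  have h2 : Tendsto e atTop (𝓝 0) := by
    set a := dist (φ h⁻¹ x) x with ha
    set b := dist x (φ k x) with hb
    have h3 : ∀ᶠ n : ℕ in atTop, ‖e n‖ ≤ 4 * a * b / (c * n - b) := by
      have h4 : Tendsto (fun n : ℕ => c * (n : ℝ)) atTop atTop :=
        tendsto_natCast_atTop_atTop.const_mul_atTop hc
      filter_upwards [h4.eventually_gt_atTop b] with n hn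
      rw [le_div_iff₀ (by linarith), Real.norm_eq_abs]
      have h5 := diff_bound hX (φ h⁻¹ x) x (φ (g ^ n) x) (φ (g ^ n) (φ k x))
      rw [dist_app, ← ha, ← hb] at h5
      refine le_trans (mul_le_mul_of_nonneg_left ?_ (abs_nonneg _)) h5
      have := hd n
      linarith
    have h4 : Tendsto (fun n : ℕ => 4 * a * b / (c * n - b)) atTop (𝓝 0) := by
      apply Tendsto.const_div_atTop
      have h5 : Tendsto (fun n : ℕ => c * (n : ℝ)) atTop atTop :=
        tendsto_natCast_atTop_atTop.const_mul_atTop hc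
      exact tendsto_atTop_add_const_right atTop (-b) h5
    exact squeeze_zero_norm' h3 h4
  have h3 := h2.cesaro
  refine h3.congr fun N => ?_
  rw [h1]

/-- **Isometries with positive translation length.** -/
theorem rc_of_cat0 (hX : IsCAT0 X) (c : ℝ) (hc : 0 < c)
    (hd : ∀ n : ℕ, c * n ≤ dist x (φ (g ^ n) x)) : RC g := by
  have hlim : ∀ a : H, ∃ r, Tendsto (fun N => avg φ g x N a) (hyperfilter ℕ) (𝓝 r) := fun a =>
    exists_ulim _ _ fun N => avg_bound φ g x N a
  choose l hl using hlim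
  refine RCT.of_real g l (fun a b _ hb => ?_) ?_
  · have h1 := (avg_add φ g x hX c hc hd (h := a) hb).mono_left hyper_le
    have h2 := ((hl (a * b)).sub (hl a)).sub (hl b)
    have h3 := tendsto_nhds_unique h1 h2
    linarith
  · have hs : ∀ N : ℕ, ∑ n ∈ range N, (dist (φ g⁻¹ x) (φ (g ^ n) x) - dist x (φ (g ^ n) x)) =
        dist x (φ (g ^ N) x) := by
      intro N
      have h1 : ∀ n : ℕ, dist (φ g⁻¹ x) (φ (g ^ n) x) = dist x (φ (g ^ (n + 1)) x) := by
        intro n
        rw [← dist_app φ g (φ g⁻¹ x) (φ (g ^ n) x), ← app_mul, ← app_mul, mul_inv_cancel, app_one,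
          pow_succ']
      simp only [h1]
      rw [Finset.sum_range_sub (fun n => dist x (φ (g ^ n) x)), pow_zero, app_one, dist_self,
        sub_zero]
    have h1 : ∀ᶠ N : ℕ in hyperfilter ℕ, c ≤ avg φ g x N g := by
      apply Filter.Eventually.filter_mono hyper_le
      filter_upwards [eventually_gt_atTop 0] with N hN
      unfold avg
      rw [hs]
      have hN' : (0 : ℝ) < N := by exact_mod_cast hN
      rw [le_div_iff₀ hN']
      exact hd N
    have h4 := ge_of_tendsto (hl g) h1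
    intro h0
    rw [h0] at h4
    linarith

end char

end Cat0

end Pool.Agent.H416
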