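import Mathlib

/-!
# Hölder's theorem for bi-invariant total preorders with a central cofinal element

A group with a bi-invariant total preorder and a central element `g > 1` such that every element is
below a power of `g` has a homomorphism to the additive group of the real numbers which maps `g`
to `1`.
-/

set_option autoImplicit false

namespace Pool.Agent.H416.Holder

open Filter Topology

universe u

variable {C : Type u} [Group C]

/-- A bi-invariant total preorder on a group. -/
structure BiOrd (le : C → C → Prop) : Prop where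
  trans : ∀ a b c, le a b → le b c → le a c
  total : ∀ a b, le a b ∨ le b a
  mul_left : ∀ c a b, le a b → le (c * a) (c * b)
  mul_right : ∀ c a b, le a b → le (a * c) (b * c)

namespace BiOrd

variable {le : C → C → Prop} (H : BiOrd le)

include H

theorem refl (a : C) : le a a := (H.total a a).elim id id

theorem mul {a b c d : C} (h1 : le a b) (h2 : le c d) : le (a * c) (b * d) :=
  H.trans _ _ _ (H.mul_right c _ _ h1) (H.mul_left b _ _ h2)

theorem inv {a b : C} (h : le a b) : le b⁻¹ a⁻¹ := by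
  have h1 := H.mul_left b⁻¹ _ _ (H.mul_right a⁻¹ _ _ h)
  simpa [mul_assoc] using h1

theorem symm : BiOrd fun a b => le b a where
  trans a b c h1 h2 := H.trans _ _ _ h2 h1
  total a b := H.total b a
  mul_left c a b h := H.mul_left c _ _ h
  mul_right c a b h := H.mul_right c _ _ h

theorem pow_mul_le {a b : C} (h : le (a * b) (b * a)) (n : ℕ) : le (a ^ n * b) (b * a ^ n) := by
  induction n with
  | zero => rw [pow_zero, one_mul, mul_one]; exact H.refl _
  | succ n ih =>
    have h1 : le (a ^ n * (a * b)) (a ^ n * (b * a)) := H.mul_left _ _ _ h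
    have h2 : le (a ^ n * b * a) (b * a ^ n * a) := H.mul_right _ _ _ ih
    have h3 := H.trans _ _ _ h1 (by rw [← mul_assoc]; exact h2)
    rw [pow_succ]
    simpa [mul_assoc] using h3

theorem mul_pow_le {a b : C} (h : le (a * b) (b * a)) (n : ℕ) : le (a * b ^ n) (b ^ n * a) := by
  induction n with
  | zero => rw [pow_zero, one_mul, mul_one]; exact H.refl _
  | succ n ih =>
    have h1 : le (a * b * b ^ n) (b * a * b ^ n) := H.mul_right _ _ _ h
    have h2 : le (b * (a * b ^ n)) (b * (b ^ n * a)) := H.mul_left _ _ _ ih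
    have h3 := H.trans _ _ _ h1 (by rw [mul_assoc]; exact h2)
    rw [pow_succ']
    simpa [mul_assoc] using h3

theorem pow_le_mul_pow {a b : C} (h : le (a * b) (b * a)) (n : ℕ) :
    le (a ^ n * b ^ n) ((a * b) ^ n) := by
  induction n with
  | zero => simp only [pow_zero, mul_one]; exact H.refl _
  | succ n ih =>
    have h1 : le (a ^ n * b ^ n * (a * b)) ((a * b) ^ n * (a * b)) := H.mul_right _ _ _ ih
    have h2 : le (a ^ n * (a * b ^ n) * b) (a ^ n * (b ^ n * a) * b) :=
      H.mul_right _ _ _ (H.mul_left _ _ _ (H.mul_pow_le h n))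
    rw [pow_succ a, pow_succ b, pow_succ (a * b)]
    refine H.trans _ _ _ ?_ h1
    simpa [mul_assoc] using h2

theorem mul_pow_le_pow {a b : C} (h : le (a * b) (b * a)) (n : ℕ) :
    le ((a * b) ^ n) (b ^ n * a ^ n) := by
  induction n with
  | zero => simp only [pow_zero, mul_one]; exact H.refl _
  | succ n ih =>
    have h1 : le ((a * b) ^ n * (a * b)) (b ^ n * a ^ n * (a * b)) := H.mul_right _ _ _ ih
    have h2 : le (b ^ n * (a ^ (n + 1) * b)) (b ^ n * (b * a ^ (n + 1))) :=
      H.mul_left _ _ _ (H.pow_mul_le h (n + 1))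
    rw [pow_succ (a * b)]
    refine H.trans _ _ _ h1 ?_
    have e1 : b ^ n * a ^ n * (a * b) = b ^ n * (a ^ (n + 1) * b) := by
      rw [pow_succ]; simp only [mul_assoc]
    have e2 : b ^ (n + 1) * a ^ (n + 1) = b ^ n * (b * a ^ (n + 1)) := by
      rw [pow_succ b n, mul_assoc]
    rw [e1, e2]
    exact h2

variable {g : C} (hpos : ¬ le g 1)

include hpos

theorem one_le : le 1 g := (H.total 1 g).resolve_right hpos

theorem zpow_le {p q : ℤ} (h : p ≤ q) : le (g ^ p) (g ^ q) := by
  obtain ⟨n, rfl⟩ := Int.le.dest h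
  induction n with
  | zero => simp only [Nat.cast_zero, add_zero]; exact H.refl _
  | succ n ih =>
    have h1 : le (g ^ (p + n) * 1) (g ^ (p + n) * g) := H.mul_left _ _ _ (H.one_le hpos)
    rw [mul_one, ← zpow_add_one] at h1
    have h2 := H.trans _ _ _ (ih (by omega)) h1
    rw [Nat.cast_succ, ← add_assoc]
    exact h2

theorem zpow_le_iff {p q : ℤ} : le (g ^ p) (g ^ q) ↔ p ≤ q := by
  refine ⟨fun h => ?_, H.zpow_le hpos⟩
  by_contra hlt
  push Not at hlt
  apply hpos
  have h1 : le (g ^ (q + 1)) (g ^ q) := H.trans _ _ _ (H.zpow_le hpos (by omega)) h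
  have h2 := H.mul_left (g ^ (-q)) _ _ h1
  rw [← zpow_add, ← zpow_add] at h2
  have e1 : -q + (q + 1) = 1 := by ring
  have e2 : -q + q = 0 := by ring
  rwa [e1, e2, zpow_one, zpow_zero] at h2

variable (harch : ∀ h : C, ∃ n : ℕ, le h (g ^ n))

include harch

theorem exists_max (h : C) : ∃ a : ℤ, le (g ^ a) h ∧ ∀ p : ℤ, le (g ^ p) h → p ≤ a := by
  obtain ⟨n, hn⟩ := harch h
  obtain ⟨m, hm⟩ := harch h⁻¹
  apply Int.exists_greatest_of_bdd
  · refine ⟨n, fun p hp => ?_⟩
    rw [← H.zpow_le_iff hpos]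
    refine H.trans _ _ _ hp ?_
    rwa [zpow_natCast]
  · refine ⟨-m, ?_⟩
    have h1 := H.inv hm
    rwa [inv_inv, ← zpow_natCast, ← zpow_neg] at h1

/-- The integral part of `h`. -/
noncomputable def fl (h : C) : ℤ := (H.exists_max hpos harch h).choose

theorem fl_le (h : C) : le (g ^ H.fl hpos harch h) h := (H.exists_max hpos harch h).choose_spec.1

theorem le_fl {h : C} {p : ℤ} (hp : le (g ^ p) h) : p ≤ H.fl hpos harch h :=
  (H.exists_max hpos harch h).choose_spec.2 p hp

theorem lt_fl (h : C) : le h (g ^ (H.fl hpos harch h + 1)) := by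
  refine (H.total _ _).resolve_right fun h1 => ?_
  have := H.le_fl hpos harch h1
  omega

theorem fl_mono {a b : C} (h : le a b) : H.fl hpos harch a ≤ H.fl hpos harch b :=
  H.le_fl hpos harch (H.trans _ _ _ (H.fl_le hpos harch a) h)

theorem fl_mul_ge (a b : C) :
    H.fl hpos harch a + H.fl hpos harch b ≤ H.fl hpos harch (a * b) := by
  apply H.le_fl hpos harch
  rw [zpow_add]
  exact H.mul (H.fl_le hpos harch a) (H.fl_le hpos harch b)

theorem fl_mul_le (a b : C) :
    H.fl hpos harch (a * b) ≤ H.fl hpos harch a + H.fl hpos harch b + 2 := by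
  have h1 := H.mul (H.lt_fl hpos harch a) (H.lt_fl hpos harch b)
  rw [← zpow_add] at h1
  have h2 := H.trans _ _ _ (H.fl_le hpos harch (a * b)) h1
  rw [H.zpow_le_iff hpos] at h2
  omega

theorem fl_pow (n : ℕ) : H.fl hpos harch (g ^ n) = n := by
  apply le_antisymm
  · have h1 := H.fl_le hpos harch (g ^ n)
    have h2 : le (g ^ H.fl hpos harch (g ^ n)) (g ^ (n : ℤ)) := by rwa [zpow_natCast]
    rwa [H.zpow_le_iff hpos] at h2
  · apply H.le_fl hpos harch
    rw [zpow_natCast]
    exact H.refl _

theorem subadd (h : C) : Subadditive fun n => -(H.fl hpos harch (h ^ n) : ℝ) := by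
  intro m n
  have h1 := H.fl_mul_ge hpos harch (h ^ m) (h ^ n)
  rw [← pow_add] at h1
  have h2 : (H.fl hpos harch (h ^ m) : ℝ) + H.fl hpos harch (h ^ n) ≤
      H.fl hpos harch (h ^ (m + n)) := by exact_mod_cast h1
  linarith

theorem fl_pow_le (h : C) (n : ℕ) :
    H.fl hpos harch (h ^ n) ≤ n * (H.fl hpos harch h + 2) + (H.fl hpos harch 1) := by
  induction n with
  | zero => simp
  | succ n ih =>
    rw [pow_succ]
    have h1 := H.fl_mul_le hpos harch (h ^ n) h
    push_cast
    linarith

theorem fl_one : H.fl hpos harch 1 = 0 := by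
  have := H.fl_pow hpos harch 0
  rwa [pow_zero] at this

theorem bdd (h : C) :
    BddBelow (Set.range fun n : ℕ => -(H.fl hpos harch (h ^ n) : ℝ) / n) := by
  refine ⟨-|(H.fl hpos harch h + 2 : ℝ)|, ?_⟩
  rintro _ ⟨n, rfl⟩
  rcases Nat.eq_zero_or_pos n with rfl | hn
  · simp
  · have h1 := H.fl_pow_le hpos harch h n
    rw [H.fl_one hpos harch, add_zero] at h1
    have h2 : (H.fl hpos harch (h ^ n) : ℝ) ≤ n * (H.fl hpos harch h + 2) := by exact_mod_cast h1
    have hn' : (0 : ℝ) < n := by exact_mod_cast hn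
    change _ ≤ -(H.fl hpos harch (h ^ n) : ℝ) / n
    rw [le_div_iff₀ hn']
    have h3 : (H.fl hpos harch h + 2 : ℝ) ≤ |(H.fl hpos harch h + 2 : ℝ)| := le_abs_self _
    nlinarith

/-- The homomorphism. -/
noncomputable def chi (h : C) : ℝ := -(H.subadd hpos harch h).lim

theorem tendsto_chi (h : C) :
    Tendsto (fun n : ℕ => (H.fl hpos harch (h ^ n) : ℝ) / n) atTop (𝓝 (H.chi hpos harch h)) := by
  have h1 := ((H.subadd hpos harch h).tendsto_lim (H.bdd hpos harch h)).neg
  unfold chi
  refine h1.congr fun n => ?_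
  rw [neg_div, neg_neg]

theorem chi_mul (a b : C) :
    H.chi hpos harch (a * b) = H.chi hpos harch a + H.chi hpos harch b := by
  have key : ∀ n : ℕ, |(H.fl hpos harch ((a * b) ^ n) : ℝ) -
      (H.fl hpos harch (a ^ n) + H.fl hpos harch (b ^ n))| ≤ 2 := by
    intro n
    have h1 : H.fl hpos harch (a ^ n) + H.fl hpos harch (b ^ n) ≤ H.fl hpos harch ((a * b) ^ n) ∧
        H.fl hpos harch ((a * b) ^ n) ≤ H.fl hpos harch (a ^ n) + H.fl hpos harch (b ^ n) + 2 := by
      rcases H.total (a * b) (b * a) with h | h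
      · constructor
        · exact (H.fl_mul_ge hpos harch _ _).trans (H.fl_mono hpos harch (H.pow_le_mul_pow h n))
        · have h2 := H.fl_mono hpos harch (H.mul_pow_le_pow h n)
          have h3 := H.fl_mul_le hpos harch (b ^ n) (a ^ n)
          omega
      · constructor
        · have h2 := H.fl_mono hpos harch (H.symm.mul_pow_le_pow h n)
          have h3 := H.fl_mul_ge hpos harch (b ^ n) (a ^ n)
          omega
        · have h2 := H.fl_mono hpos harch (H.symm.pow_le_mul_pow h n)
          have h3 := H.fl_mul_le hpos harch (a ^ n) (b ^ n)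
          omega
    obtain ⟨h2, h3⟩ := h1
    have h2' : (H.fl hpos harch (a ^ n) : ℝ) + H.fl hpos harch (b ^ n) ≤
      H.fl hpos harch ((a * b) ^ n) := by exact_mod_cast h2
    have h3' : (H.fl hpos harch ((a * b) ^ n) : ℝ) ≤
      H.fl hpos harch (a ^ n) + H.fl hpos harch (b ^ n) + 2 := by exact_mod_cast h3
    rw [abs_le]
    constructor <;> linarith
  have h1 := (H.tendsto_chi hpos harch (a * b)).sub
    ((H.tendsto_chi hpos harch a).add (H.tendsto_chi hpos harch b))
  have h2 : Tendsto (fun n : ℕ => (H.fl hpos harch ((a * b) ^ n) : ℝ) / n -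
      ((H.fl hpos harch (a ^ n) : ℝ) / n + (H.fl hpos harch (b ^ n) : ℝ) / n)) atTop (𝓝 0) := by
    have h3 : Tendsto (fun n : ℕ => (2 : ℝ) / n) atTop (𝓝 0) := tendsto_const_div_atTop_nhds_zero_nat 2
    refine squeeze_zero_norm (fun n => ?_) h3
    rw [← add_div, ← sub_div, norm_div, Real.norm_eq_abs, Real.norm_natCast]
    gcongr
    exact key n
  have h3 := tendsto_nhds_unique h1 h2
  linarith

theorem chi_g : H.chi hpos harch g = 1 := by
  have h1 := H.tendsto_chi hpos harch g
  have h2 : Tendsto (fun n : ℕ => (H.fl hpos harch (g ^ n) : ℝ) / n) atTop (𝓝 1) := by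
    refine tendsto_const_nhds.congr' ?_
    filter_upwards [eventually_gt_atTop 0] with n hn
    rw [H.fl_pow hpos harch]
    have : (n : ℝ) ≠ 0 := by exact_mod_cast hn.ne'
    push_cast
    rw [div_self this]
  exact tendsto_nhds_unique h1 h2

end BiOrd

/-- **Hölder's theorem.** -/
theorem holder {le : C → C → Prop} (H : BiOrd le) {g : C} (hpos : ¬ le g 1)
    (harch : ∀ h : C, ∃ n : ℕ, le h (g ^ n)) :
    ∃ χ : C →* Multiplicative ℝ, (χ g).toAdd = 1 := by
  refine ⟨MonoidHom.mk' (fun h => Multiplicative.ofAdd (H.chi hpos harch h)) fun a b => ?_, ?_⟩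
  · rw [H.chi_mul hpos harch]
    rfl
  · exact H.chi_g hpos harch

end Pool.Agent.H416.Holder
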