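import Mathlib
import Pool.Agent.H416.Holder

/-!
# Characters of centralisers of homeomorphisms with few boundary points of the fixed set

A central element of a group of order automorphisms of a linear continuum is mapped to a nonzero
number by a homomorphism to the real numbers, when the fixed sets of the elements of the group have
only finitely many boundary points in an invariant interval in which the central element moves a
point.
-/

set_option autoImplicit false
set_option linter.unusedSectionVars false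

namespace Pool.Agent.H416.Line

open Set Filter Topology Function

variable {X : Type*} [ConditionallyCompleteLinearOrder X] [TopologicalSpace X] [OrderTopology X]

/-- The set of fixed points. -/
def Fix (f : X ≃o X) : Set X := {x | f x = x}

theorem isClosed_Fix (f : X ≃o X) : IsClosed (Fix f) := isClosed_eq f.continuous continuous_id

theorem map_Fix {f k : X ≃o X} (h : k * f = f * k) : k '' Fix f = Fix f := by
  ext x
  constructor
  · rintro ⟨y, hy, rfl⟩
    change f y = y at hy
    change f (k y) = k y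
    have h1 := DFunLike.congr_fun h y
    rw [RelIso.mul_apply, RelIso.mul_apply, hy] at h1
    exact h1.symm
  · intro hx
    change f x = x at hx
    refine ⟨k.symm x, ?_, k.apply_symm_apply x⟩
    change f (k.symm x) = k.symm x
    have h1 := DFunLike.congr_fun h (k.symm x)
    rw [RelIso.mul_apply, RelIso.mul_apply, k.apply_symm_apply, hx] at h1
    apply k.injective
    rw [k.apply_symm_apply]
    exact h1

theorem map_frontier {f k : X ≃o X} (h : k * f = f * k) {x : X} (hx : x ∈ frontier (Fix f)) :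
    k x ∈ frontier (Fix f) := by
  have h1 := k.toHomeomorph.image_frontier (Fix f)
  have h2 : k x ∈ k.toHomeomorph '' frontier (Fix f) := ⟨x, hx, rfl⟩
  rw [h1] at h2
  have h3 : k.toHomeomorph '' Fix f = Fix f := map_Fix h
  rwa [h3] at h2

theorem exists_frontier [DenselyOrdered X] {s : Set X} {a b : X} (ha : a ∈ s) (hb : b ∉ s) :
    ∃ c ∈ uIcc a b, c ∈ frontier s := by
  by_contra hcon
  push Not at hcon
  have h1 := isPreconnected_iff_subset_of_disjoint.1 (isPreconnected_uIcc (a := a) (b := b))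
    (interior s) (closure s)ᶜ isOpen_interior isClosed_closure.isOpen_compl
  have h2 : uIcc a b ⊆ interior s ∪ (closure s)ᶜ := by
    intro c hc
    by_cases h3 : c ∈ interior s
    · exact Or.inl h3
    · right
      intro h4
      exact hcon c hc ⟨h4, h3⟩
  have h3 : uIcc a b ∩ (interior s ∩ (closure s)ᶜ) = ∅ := by
    ext c
    simp only [mem_inter_iff, mem_compl_iff, mem_empty_iff_false, iff_false, not_and, not_not]
    intro _ h4
    exact interior_subset_closure h4
  rcases h1 h2 h3 with h4 | h4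
  · exact hb (interior_subset (h4 right_mem_uIcc))
  · exact h4 left_mem_uIcc (subset_closure ha)

theorem inj_orbit (f : X ≃o X) {s : X} (h : f s ≠ s) : Injective fun n : ℕ => f^[n] s := by
  rcases lt_or_gt_of_ne h with h1 | h1
  · exact (f.strictMono.strictAnti_iterate_of_map_lt h1).injective
  · exact (f.strictMono.strictMono_iterate_of_lt_map h1).injective

/-- An order automorphism which preserves a finite set fixes its points. -/
theorem fix_of_finite (f : X ≃o X) {S : Set X} (hS : S.Finite) (hf : ∀ x ∈ S, f x ∈ S) {s : X}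
    (hs : s ∈ S) : f s = s := by
  by_contra hne
  have h1 : ∀ n : ℕ, f^[n] s ∈ S := by
    intro n
    induction n with
    | zero => exact hs
    | succ n ih =>
      rw [iterate_succ_apply']
      exact hf _ ih
  exact (Set.infinite_of_injective_forall_mem (inj_orbit f hne) h1) hS

variable {C : Type*} [Group C] {φ : C →* (X ≃o X)} {g : C} (hg : ∀ h : C, h * g = g * h)
  {J : Set X} (hJ : J.OrdConnected) (hinv : ∀ h : C, ∀ x ∈ J, φ h x ∈ J)
  (hfin : ∀ h : C, (frontier (Fix (φ h)) ∩ J).Finite) {x₀ : X} (hx₀ : x₀ ∈ J)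
  (hlt : x₀ < φ g x₀)

theorem mul_app (φ : C →* (X ≃o X)) (a b : C) (x : X) : φ (a * b) x = φ a (φ b x) := by
  rw [map_mul, RelIso.mul_apply]

theorem one_app (φ : C →* (X ≃o X)) (x : X) : φ 1 x = x := by
  rw [map_one, RelIso.one_apply]

theorem inv_app (φ : C →* (X ≃o X)) (a : C) (x : X) : φ a⁻¹ (φ a x) = x := by
  rw [← mul_app, inv_mul_cancel, one_app]

include hlt in
theorem mono_orbit : StrictMono fun n : ℤ => φ (g ^ n) x₀ := by
  apply strictMono_int_of_lt_succ
  intro n
  rw [zpow_add_one, mul_app]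
  exact (φ (g ^ n)).strictMono hlt

include hg hJ hinv hfin hx₀ hlt in
theorem escape (h : C) : ∃ n : ℕ, φ h x₀ ≤ φ (g ^ n) x₀ := by
  by_contra hcon
  push Not at hcon
  let u : ℕ → X := fun n => φ (g ^ n) x₀
  have humono : StrictMono u := by
    intro a b hab
    have h1 := mono_orbit hlt (a := (a : ℤ)) (b := (b : ℤ)) (by exact_mod_cast hab)
    simpa only [zpow_natCast] using h1
  have hbdd : BddAbove (Set.range u) := by
    refine ⟨φ h x₀, ?_⟩
    rintro _ ⟨n, rfl⟩
    exact (hcon n).le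
  set b : X := ⨆ n, u n with hb
  have htend : Tendsto u atTop (𝓝 b) := tendsto_atTop_ciSup humono.monotone hbdd
  have hub : ∀ n, u n ≤ b := fun n => le_ciSup hbdd n
  have hble : b ≤ φ h x₀ := ciSup_le fun n => (hcon n).le
  have hgb : φ g b = b := by
    have h1 : Tendsto (fun n => φ g (u n)) atTop (𝓝 (φ g b)) :=
      ((φ g).continuous.tendsto b).comp htend
    have h2 : Tendsto (fun n => φ g (u n)) atTop (𝓝 b) := by
      have h3 : (fun n => φ g (u n)) = fun n => u (n + 1) := by
        funext n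
        change φ g (φ (g ^ n) x₀) = φ (g ^ (n + 1)) x₀
        rw [pow_succ', mul_app]
      rw [h3]
      exact htend.comp (tendsto_add_atTop_nat 1)
    exact tendsto_nhds_unique h1 h2
  have hbJ : b ∈ J := by
    refine hJ.out hx₀ (hinv h x₀ hx₀) ⟨?_, hble⟩
    have h1 := hub 0
    change φ (g ^ 0) x₀ ≤ b at h1
    rwa [pow_zero, one_app] at h1
  have hbf : b ∈ frontier (Fix (φ g)) := by
    refine ⟨subset_closure hgb, ?_⟩
    intro hint
    have h1 : ∀ᶠ n in atTop, u n ∈ interior (Fix (φ g)) :=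
      htend.eventually (isOpen_interior.mem_nhds hint)
    obtain ⟨n, hn⟩ := h1.exists
    have h2 : u n ∈ Fix (φ g) := interior_subset hn
    change φ g (u n) = u n at h2
    have h3 : φ g (u n) = u (n + 1) := by
      change φ g (φ (g ^ n) x₀) = φ (g ^ (n + 1)) x₀
      rw [pow_succ', mul_app]
    rw [h3] at h2
    exact (humono (Nat.lt_succ_self n)).ne' h2
  have hfix : φ h b = b := by
    apply fix_of_finite (φ h) (hfin g) ?_ ⟨hbf, hbJ⟩
    intro x hx
    refine ⟨map_frontier ?_ hx.1, hinv h x hx.2⟩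
    rw [← map_mul, ← map_mul, hg]
  have hxb : x₀ < b := by
    refine lt_of_lt_of_le hlt ?_
    have h1 := hub 1
    change φ (g ^ 1) x₀ ≤ b at h1
    rwa [pow_one] at h1
  have h1 := (φ h).strictMono hxb
  rw [hfix] at h1
  exact absurd hble (not_le.2 h1)

/-- The convex hull of the orbit of `x₀`. -/
def Hull (φ : C →* (X ≃o X)) (g : C) (x₀ : X) : Set X :=
  {y | ∃ m n : ℤ, φ (g ^ m) x₀ ≤ y ∧ y ≤ φ (g ^ n) x₀}

theorem hull_conn {y z c : X} (hy : y ∈ Hull φ g x₀) (hz : z ∈ Hull φ g x₀)
    (hc : c ∈ uIcc y z) : c ∈ Hull φ g x₀ := by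
  obtain ⟨m, n, h1, h2⟩ := hy
  obtain ⟨m', n', h3, h4⟩ := hz
  rcases le_total y z with h | h
  · rw [uIcc_of_le h] at hc
    exact ⟨m, n', h1.trans hc.1, hc.2.trans h4⟩
  · rw [uIcc_of_ge h] at hc
    exact ⟨m', n, h3.trans hc.1, hc.2.trans h2⟩

include hJ hinv hx₀ in
theorem hull_sub : Hull φ g x₀ ⊆ J := by
  rintro y ⟨m, n, h1, h2⟩
  exact hJ.out (hinv _ _ hx₀) (hinv _ _ hx₀) ⟨h1, h2⟩

include hlt in
theorem hull_lt {y : X} (hy : y ∈ Hull φ g x₀) : y < φ g y := by
  obtain ⟨m, n, h1, h2⟩ := hy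
  have hmono := mono_orbit hlt
  obtain ⟨a, ha, hmax⟩ : ∃ a : ℤ, φ (g ^ a) x₀ ≤ y ∧ ∀ p : ℤ, φ (g ^ p) x₀ ≤ y → p ≤ a := by
    apply Int.exists_greatest_of_bdd
    · refine ⟨n, fun p hp => ?_⟩
      exact hmono.le_iff_le.1 (hp.trans h2)
    · exact ⟨m, h1⟩
  have h3 : y < φ (g ^ (a + 1)) x₀ := by
    by_contra h4
    push Not at h4
    have := hmax _ h4
    omega
  refine lt_of_lt_of_le h3 ?_
  have e : φ (g ^ (a + 1)) x₀ = φ g (φ (g ^ a) x₀) := by
    rw [← mul_app, add_comm, zpow_add, zpow_one]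
  rw [e]
  exact (φ g).monotone ha

theorem self_mem : x₀ ∈ Hull φ g x₀ :=
  ⟨0, 0, by rw [zpow_zero, one_app], by rw [zpow_zero, one_app]⟩

include hg hJ hinv hfin hx₀ hlt in
theorem orbit_mem (h : C) : φ h x₀ ∈ Hull φ g x₀ := by
  obtain ⟨n, hn⟩ := escape hg hJ hinv hfin hx₀ hlt h
  obtain ⟨m, hm⟩ := escape hg hJ hinv hfin hx₀ hlt h⁻¹
  refine ⟨-m, n, ?_, by rwa [zpow_natCast]⟩
  have h1 := (φ h).monotone hm
  rw [← mul_app, mul_inv_cancel, one_app, ← mul_app] at h1
  have hc : h * g ^ m = g ^ m * h := (Commute.pow_right (hg h) m)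
  rw [hc, mul_app] at h1
  have h2 := (φ (g ^ (-(m : ℤ)))).monotone h1
  rw [← mul_app, zpow_neg, zpow_natCast, inv_mul_cancel, one_app] at h2
  rw [zpow_neg, zpow_natCast]
  exact h2

include hlt in
theorem iter_mem {c : X} (hc : c ∈ Hull φ g x₀) (n : ℕ) : (φ g)^[n] c ∈ Hull φ g x₀ := by
  induction n with
  | zero => exact hc
  | succ n ih =>
    rw [iterate_succ_apply']
    obtain ⟨m, k, h1, h2⟩ := ih
    refine ⟨m + 1, k + 1, ?_, ?_⟩
    · rw [add_comm, zpow_add, zpow_one, mul_app]
      exact (φ g).monotone h1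
    · rw [add_comm, zpow_add, zpow_one, mul_app]
      exact (φ g).monotone h2

include hg hJ hinv hfin hx₀ hlt in
theorem all_fixed [DenselyOrdered X] (u : C) {y z : X} (hy : y ∈ Hull φ g x₀)
    (hz : z ∈ Hull φ g x₀) (hfix : φ u y = y) : φ u z = z := by
  by_contra hne
  obtain ⟨c, hc, hcf⟩ := exists_frontier (s := Fix (φ u)) (a := y) (b := z) hfix hne
  have hcH := hull_conn hy hz hc
  have hclt := hull_lt hlt hcH
  refine (Set.infinite_of_injective_forall_mem (inj_orbit (φ g) hclt.ne') (s :=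
    frontier (Fix (φ u)) ∩ J) fun n => ⟨?_, ?_⟩) (hfin u)
  · induction n with
    | zero => exact hcf
    | succ n ih =>
      rw [iterate_succ_apply']
      refine map_frontier ?_ ih
      rw [← map_mul, ← map_mul, hg]
  · exact hull_sub hJ hinv hx₀ (iter_mem hlt hcH n)

include hg hJ hinv hfin hx₀ hlt in
theorem compare [DenselyOrdered X] {h k : C} (hhk : φ h x₀ ≤ φ k x₀) {y : X}
    (hy : y ∈ Hull φ g x₀) : φ h y ≤ φ k y := by
  by_contra hcon
  push Not at hcon
  have h1 : φ (k⁻¹ * h) x₀ ≤ x₀ := by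
    rw [mul_app]
    have := (φ k⁻¹).monotone hhk
    rwa [inv_app] at this
  have h2 : y < φ (k⁻¹ * h) y := by
    rw [mul_app]
    have := (φ k⁻¹).strictMono hcon
    rwa [inv_app] at this
  obtain ⟨c, hc, hcf⟩ := exists_mem_uIcc_isFixedPt (a := y) (b := x₀)
    (f := φ (k⁻¹ * h)) (φ (k⁻¹ * h)).continuous.continuousOn h2.le h1
  have h3 := all_fixed hg hJ hinv hfin hx₀ hlt (k⁻¹ * h) (hull_conn hy self_mem hc) hy hcf
  exact h2.ne' h3

include hg hJ hinv hfin hx₀ hlt in
theorem exists_char_of_lt [DenselyOrdered X] : ∃ χ : C →* Multiplicative ℝ, (χ g).toAdd ≠ 0 := by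
  have H : Holder.BiOrd fun a b : C => φ a x₀ ≤ φ b x₀ :=
    { trans := fun a b c h1 h2 => h1.trans h2
      total := fun a b => le_total _ _
      mul_left := fun c a b h => by
        rw [mul_app, mul_app]
        exact (φ c).monotone h
      mul_right := fun c a b h => by
        rw [mul_app, mul_app]
        exact compare hg hJ hinv hfin hx₀ hlt h (orbit_mem hg hJ hinv hfin hx₀ hlt c) }
  obtain ⟨χ, hχ⟩ := Holder.holder H (g := g) (by rw [one_app]; exact not_le.2 hlt)
    (escape hg hJ hinv hfin hx₀ hlt)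
  exact ⟨χ, by rw [hχ]; exact one_ne_zero⟩

include hg hJ hinv hfin hx₀ in
/-- **The character of a central element.** -/
theorem exists_char [DenselyOrdered X] (hne : φ g x₀ ≠ x₀) :
    ∃ χ : C →* Multiplicative ℝ, (χ g).toAdd ≠ 0 := by
  rcases lt_or_gt_of_ne hne with h1 | h1
  · have hg' : ∀ h : C, h * g⁻¹ = g⁻¹ * h := fun h => Commute.inv_right (hg h)
    have h2 : x₀ < φ g⁻¹ x₀ := by
      have := (φ g⁻¹).strictMono h1
      rwa [inv_app] at this
    obtain ⟨χ, hχ⟩ := exists_char_of_lt hg' hJ hinv hfin hx₀ h2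
    refine ⟨χ, fun h3 => hχ ?_⟩
    rw [map_inv, toAdd_inv, h3, neg_zero]
  · exact exists_char_of_lt hg hJ hinv hfin hx₀ h1

end Pool.Agent.H416.Line
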