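import Mathlib
import Pool.Agent.H416.Line

/-!
# Lifts of homeomorphisms of the circle
-/

set_option autoImplicit false

namespace Pool.Agent.H416.Circ

open Set Filter Topology Function CircleDeg1Lift

theorem coe_eq {x y : ℝ} : (x : UnitAddCircle) = (y : UnitAddCircle) ↔ ∃ n : ℤ, y = x + n := by
  rw [← sub_eq_zero, ← AddCircle.coe_sub, AddCircle.coe_eq_zero_iff]
  constructor
  · rintro ⟨n, hn⟩
    refine ⟨-n, ?_⟩
    have : (n : ℝ) = x - y := by simpa using hn
    push_cast
    linarith
  · rintro ⟨n, hn⟩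
    refine ⟨-n, ?_⟩
    rw [hn]
    simp

theorem coe_add_int (x : ℝ) (n : ℤ) : ((x + n : ℝ) : UnitAddCircle) = (x : UnitAddCircle) :=
  (coe_eq.2 ⟨n, rfl⟩).symm

/-- `F` is a lift of `f`. -/
def IsLift (f : UnitAddCircle → UnitAddCircle) (F : CircleDeg1Lift) : Prop :=
  ∀ x : ℝ, f (x : UnitAddCircle) = ((F x : ℝ) : UnitAddCircle)

variable {f f' : UnitAddCircle → UnitAddCircle} {F F' : CircleDeg1Lift}

theorem IsLift.bijective (h : IsLift f F) (hf : Bijective f) : Bijective F := by
  constructor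
  · intro x y hxy
    have h1 : f x = f y := by rw [h x, h y, hxy]
    obtain ⟨n, hn⟩ := coe_eq.1 (hf.1 h1)
    rw [hn, map_add_int] at hxy
    have : (n : ℝ) = 0 := by linarith
    rw [hn, this, add_zero]
  · intro y
    obtain ⟨z, hz⟩ := hf.2 (y : UnitAddCircle)
    obtain ⟨x, rfl⟩ := QuotientAddGroup.mk_surjective z
    have h1 : ((F x : ℝ) : UnitAddCircle) = (y : UnitAddCircle) := by
      rw [← h x]
      exact hz
    obtain ⟨n, hn⟩ := coe_eq.1 h1
    exact ⟨x + n, by rw [map_add_int, hn]⟩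

theorem IsLift.comp (h : IsLift f F) (h' : IsLift f' F') : IsLift (f ∘ f') (F * F') := by
  intro x
  rw [comp_apply, h' x, h, mul_apply]

theorem isLift_one : IsLift id 1 := fun x => rfl

theorem IsLift.add_int (h : IsLift f F) (n : ℤ) :
    IsLift f ((translate (Multiplicative.ofAdd (n : ℝ)) : CircleDeg1Lift) * F) := by
  intro x
  rw [h x, mul_apply, translate_apply, add_comm, coe_add_int]

/-- A lift of the identity is a translation by an integer. -/
theorem lift_id {K : CircleDeg1Lift} (h : ∀ x : ℝ, (x : UnitAddCircle) = ((K x : ℝ) : UnitAddCircle)) :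
    ∃ k : ℤ, ∀ x, K x = x + k := by
  have h1 : ∀ x : ℝ, ∃ k : ℤ, K x = x + k := fun x => coe_eq.1 (h x)
  choose k hk using h1
  have h2 : ∀ x : ℝ, 0 ≤ x → x < 1 → k x = k 0 := by
    intro x h0 h1
    have e1 : K 0 ≤ K x := K.monotone h0
    have e2 : K x ≤ K (0 + 1) := K.monotone (by linarith)
    rw [map_add_one, hk 0, hk x] at e2
    rw [hk 0, hk x] at e1
    rcases eq_or_lt_of_le h0 with h3 | h3
    · rw [← h3]
    · have e3 : (k 0 : ℝ) < k x + 1 := by linarith
      have e4 : (k x : ℝ) < k 0 + 1 := by linarith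
      have e3' : k 0 < k x + 1 := by exact_mod_cast e3
      have e4' : k x < k 0 + 1 := by exact_mod_cast e4
      omega
  refine ⟨k 0, fun x => ?_⟩
  have h3 := hk (Int.fract x)
  rw [h2 _ (Int.fract_nonneg x) (Int.fract_lt_one x)] at h3
  have h4 : K (Int.fract x + ⌊x⌋) = K (Int.fract x) + ⌊x⌋ := map_add_int _ _ _
  rw [Int.fract_add_floor, h3] at h4
  rw [h4]
  have := Int.fract_add_floor x
  linarith

/-- Two invertible lifts of the same map differ by an integer. -/
theorem lift_unique {F K : CircleDeg1Liftˣ} (hf : Injective f) (h : IsLift f F) (h' : IsLift f K) :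
    ∃ k : ℤ, ∀ x, K x = F x + k := by
  obtain ⟨k, hk⟩ := lift_id (K := ((F⁻¹ * K : CircleDeg1Liftˣ) : CircleDeg1Lift)) (by
    intro x
    apply hf
    rw [h (((F⁻¹ * K : CircleDeg1Liftˣ) : CircleDeg1Lift) x), ← mul_apply, ← Units.val_mul,
      mul_inv_cancel_left]
    exact h' x)
  refine ⟨k, fun x => ?_⟩
  have h1 := hk x
  have h2 : F (((F⁻¹ * K : CircleDeg1Liftˣ) : CircleDeg1Lift) x) = K x := by
    rw [← mul_apply, ← Units.val_mul, mul_inv_cancel_left]
  rw [h1, map_add_int] at h2
  exact h2.symm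

/-- The units of the monoid of lifts, with the lifting relation. -/
theorem exists_unit {f : UnitAddCircle → UnitAddCircle} (hf : Bijective f) {F : CircleDeg1Lift}
    (h : IsLift f F) : ∃ K : CircleDeg1Liftˣ, IsLift f K := by
  obtain ⟨K, hK⟩ := isUnit_iff_bijective.2 (h.bijective hf)
  exact ⟨K, by rw [hK]; exact h⟩

/-- Lifts of commuting circle homeomorphisms commute. -/
theorem lift_commute {f c : UnitAddCircle → UnitAddCircle} {F K : CircleDeg1Liftˣ}
    (hf : Injective f) (hc : Injective c)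
    (h : IsLift f F) (hK : IsLift c K) (hcomm : c ∘ f = f ∘ c) (x : ℝ) : K (F x) = F (K x) := by
  have h1 : IsLift (c ∘ f) ((K * F : CircleDeg1Liftˣ) : CircleDeg1Lift) := hK.comp h
  have h2 : IsLift (c ∘ f) ((F * K : CircleDeg1Liftˣ) : CircleDeg1Lift) := by
    rw [hcomm]
    exact h.comp hK
  obtain ⟨k, hk⟩ := lift_unique (hc.comp hf) h2 h1
  have h3 : ((K * F * K⁻¹ : CircleDeg1Liftˣ) : CircleDeg1Lift) =
      (translate (Multiplicative.ofAdd (k : ℝ)) : CircleDeg1Lift) * F := by
    ext y
    have h4 := hk ((K⁻¹ : CircleDeg1Liftˣ) y)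
    rw [Units.val_mul, mul_apply, h4, Units.val_mul, mul_apply, units_apply_inv_apply, mul_apply,
      translate_apply, add_comm]
  have h4 : translationNumber ((K * F * K⁻¹ : CircleDeg1Liftˣ) : CircleDeg1Lift) =
      translationNumber F := by
    rw [Units.val_mul, Units.val_mul]
    exact translationNumber_conj_eq K F
  have h5 : Commute (translate (Multiplicative.ofAdd (k : ℝ)) : CircleDeg1Lift) F := by
    rw [commute_iff_commute]
    intro y
    rw [translate_apply, translate_apply, map_int_add]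
  rw [h3, translationNumber_mul_of_commute h5, translationNumber_translate] at h4
  have h6 : (k : ℝ) = 0 := by linarith
  have h7 := hk x
  rw [h6, add_zero, Units.val_mul, mul_apply, Units.val_mul, mul_apply] at h7
  exact h7

/-- A monotone map of degree one which semiconjugates `F` with an irrational translation changes
under every map which commutes with `F` by a constant. -/
theorem semiconj_const {S : CircleDeg1Lift} {K : ℝ → ℝ} {α : ℝ} (hα : Irrational α)
    (hF1 : ∀ (x : ℝ) (n : ℤ), ∃ y : ℝ, S y = S x + n * α ∧ S (K y) = S (K x) + n * α)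
    (hK : Monotone K) (hK1 : ∀ (x : ℝ) (n : ℤ), K (x + n) = K x + n) (x y : ℝ) :
    S (K x) - S x ≤ S (K y) - S y := by
  by_contra hcon
  push Not at hcon
  set ε := (S (K x) - S x) - (S (K y) - S y) with hε
  have hpos : 0 < ε := by rw [hε]; linarith
  have hd : Dense (AddSubgroup.closure {α, 1} : Set ℝ) :=
    dense_addSubgroupClosure_pair_iff.2 (by simpa using hα)
  obtain ⟨t, ht, ht1, ht2⟩ : ∃ t ∈ (AddSubgroup.closure {α, 1} : Set ℝ),
      S y - S x - ε < t ∧ t < S y - S x := by
    obtain ⟨t, ht, h3⟩ := hd.exists_between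
      (show S y - S x - ε < S y - S x by linarith)
    exact ⟨t, ht, h3.1, h3.2⟩
  rw [SetLike.mem_coe, AddSubgroup.mem_closure_pair] at ht
  obtain ⟨n, m, rfl⟩ := ht
  obtain ⟨x1, h1, h2⟩ := hF1 x n
  have h3 : S (x1 + m) = S x + n * α + m := by rw [map_add_int, h1]
  have h4 : S (K (x1 + m)) = S (K x) + n * α + m := by rw [hK1, map_add_int, h2]
  have e1 : n • α + m • (1 : ℝ) = n * α + m := by simp
  rw [e1] at ht1 ht2
  have h5 : S (x1 + m) < S y := by rw [h3]; linarith
  have h6 : x1 + m < y := S.monotone.reflect_lt h5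
  have h7 : S (K (x1 + m)) ≤ S (K y) := S.monotone (hK h6.le)
  rw [h4] at h7
  linarith

end Pool.Agent.H416.Circ
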