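import Mathlib
import Pool.Agent.H416.Circ
import Pool.Agent.H416.RC

/-!
# Characters of centralisers of circle homeomorphisms
-/

set_option autoImplicit false

namespace Pool.Agent.H416.Circ

open Set Filter Topology Function CircleDeg1Lift Pool.Agent.H416.Line

variable {C : Type*} [Group C] (φ : C →* (UnitAddCircle ≃ₜ UnitAddCircle))

theorem hom_mul (a b : C) (x : UnitAddCircle) : φ (a * b) x = φ a (φ b x) := by
  rw [map_mul]; rfl

theorem hom_one (x : UnitAddCircle) : φ 1 x = x := by
  rw [map_one]; rfl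

theorem hom_inv (a : C) (x : UnitAddCircle) : φ a⁻¹ (φ a x) = x := by
  rw [← hom_mul, inv_mul_cancel, hom_one]

section irrational

variable {φ} {L : C → CircleDeg1Liftˣ} (hL : ∀ h, IsLift (φ h) (L h)) {g : C}
  (hg : ∀ h, h * g = g * h)

include hL hg in
theorem lifts_commute (h : C) (x : ℝ) : L h (L g x) = L g (L h x) := by
  refine lift_commute (φ g).injective (φ h).injective (hL g) (hL h) ?_ x
  funext y
  rw [comp_apply, comp_apply, ← hom_mul, ← hom_mul, hg]

include hL hg in
theorem irrational_char (hirr : Irrational (translationNumber (L g))) :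
    ∃ χ : C →* Multiplicative ℚ, (χ g).toAdd = 1 := by
  set α := translationNumber (L g) with hα
  obtain ⟨S, hS⟩ := units_semiconj_of_translationNumber_eq (f₁ := L g)
    (f₂ := translate (Multiplicative.ofAdd α)) (by rw [translationNumber_translate])
  have hS1 : ∀ x, S (L g x) = S x + α := by
    intro x
    have h1 := hS x
    rw [translate_apply] at h1
    rw [h1, add_comm]
  have hpow : ∀ (n : ℕ) (x : ℝ), S ((L g)^[n] x) = S x + n * α := by
    intro n x
    induction n with
    | zero => simp
    | succ n ih =>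
      rw [iterate_succ_apply', hS1, ih]
      push_cast
      ring
  have hcomm : ∀ (h : C) (n : ℕ) (x : ℝ), L h ((L g)^[n] x) = (L g)^[n] (L h x) := by
    intro h n x
    induction n with
    | zero => rfl
    | succ n ih => rw [iterate_succ_apply', iterate_succ_apply', lifts_commute hL hg, ih]
  have hF1 : ∀ (h : C) (x : ℝ) (n : ℤ), ∃ y : ℝ, S y = S x + n * α ∧
      S (L h y) = S (L h x) + n * α := by
    intro h x n
    obtain ⟨m, rfl | rfl⟩ := n.eq_nat_or_neg
    · refine ⟨(L g)^[m] x, ?_, ?_⟩
      · rw [hpow]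
        push_cast
        rfl
      · rw [hcomm, hpow]
        push_cast
        rfl
    · obtain ⟨y, hy⟩ : ∃ y, (L g)^[m] y = x := by
        have h1 : Surjective (L g : ℝ → ℝ) := (isUnit_iff_bijective.1 (L g).isUnit).2
        exact (h1.iterate m) x
      refine ⟨y, ?_, ?_⟩
      · have h1 := hpow m y
        rw [hy] at h1
        push_cast
        linarith
      · have h1 := hpow m (L h y)
        rw [← hcomm, hy] at h1
        push_cast
        linarith
  have hconst : ∀ (h : C) (x y : ℝ), S (L h x) - S x = S (L h y) - S y := by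
    intro h x y
    exact le_antisymm
      (semiconj_const hirr (hF1 h) (L h : CircleDeg1Lift).monotone (fun x n => map_add_int _ x n) x y)
      (semiconj_const hirr (hF1 h) (L h : CircleDeg1Lift).monotone (fun x n => map_add_int _ x n) y x)
  let χ : C →* Multiplicative UnitAddCircle := MonoidHom.mk'
    (fun h => Multiplicative.ofAdd ((S (L h 0) - S 0 : ℝ) : UnitAddCircle)) (by
      intro h k
      rw [← ofAdd_add]
      congr 1
      rw [← AddCircle.coe_add]
      have h1 : IsLift (φ (h * k)) ((L h * L k : CircleDeg1Liftˣ) : CircleDeg1Lift) := by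
        have h2 := (hL h).comp (hL k)
        intro x
        rw [hom_mul]
        exact h2 x
      obtain ⟨m, hm⟩ := lift_unique (φ (h * k)).injective h1 (hL (h * k))
      rw [hm, Units.val_mul, mul_apply, map_add_int]
      have h3 := hconst h (L k 0) 0
      have h4 : S (L h (L k 0)) + (m : ℝ) - S 0 = (S (L h 0) - S 0 + (S (L k 0) - S 0)) + m := by
        linarith
      rw [h4, coe_add_int])
  apply RCT.exists_ratHom χ g
  intro n hn
  have h1 : (χ g).toAdd = ((α : ℝ) : UnitAddCircle) := by
    change ((S (L g 0) - S 0 : ℝ) : UnitAddCircle) = _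
    rw [hS1, add_sub_cancel_left]
  rw [h1, ← AddCircle.coe_zsmul, AddCircle.coe_eq_zero_iff] at hn
  obtain ⟨m, hm⟩ := hn
  by_contra hne
  have h2 : α * n = m := by
    rw [zsmul_eq_mul, zsmul_eq_mul, mul_one] at hm
    linarith
  have hn' : (n : ℝ) ≠ 0 := by exact_mod_cast hne
  apply hirr
  refine ⟨(m : ℚ) / n, ?_⟩
  push_cast
  rw [← h2, mul_div_cancel_right₀ _ hn']

end irrational

section rational

/-- The subgroup of the elements which fix a point of the circle. -/
def stab (b : UnitAddCircle) : Subgroup C where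
  carrier := {h | φ h b = b}
  mul_mem' := by
    intro a c ha hc
    change φ (a * c) b = b
    rw [hom_mul, show φ c b = b from hc]
    exact ha
  one_mem' := hom_one φ b
  inv_mem' := by
    intro a ha
    change φ a⁻¹ b = b
    have h1 := hom_inv φ a b
    rwa [show φ a b = b from ha] at h1

theorem mem_stab {b : UnitAddCircle} {h : C} : h ∈ stab φ b ↔ φ h b = b := Iff.rfl

theorem stab_finiteIndex {b : UnitAddCircle} {S : Set UnitAddCircle} (hS : S.Finite)
    (h : ∀ c : C, φ c b ∈ S) : (stab φ b).FiniteIndex := by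
  have : Finite S := hS
  rw [Subgroup.finiteIndex_iff_finite_quotient]
  refine Finite.of_injective (fun q : C ⧸ stab φ b => (⟨φ q.out b, h _⟩ : S)) ?_
  intro q q' hqq
  have h1 : φ q.out b = φ q'.out b := congrArg Subtype.val hqq
  rw [← QuotientGroup.out_eq' q, ← QuotientGroup.out_eq' q', QuotientGroup.eq, mem_stab, hom_mul,
    ← h1, hom_inv]

theorem circle_frontier_comm {f k : UnitAddCircle ≃ₜ UnitAddCircle}
    (h : ∀ x, k (f x) = f (k x)) {x : UnitAddCircle} (hx : x ∈ frontier {y | f y = y}) :
    k x ∈ frontier {y | f y = y} := by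
  have h1 := k.image_frontier {y | f y = y}
  have h2 : k x ∈ k '' frontier {y | f y = y} := ⟨x, hx, rfl⟩
  rw [h1] at h2
  have h3 : k '' {y | f y = y} = {y | f y = y} := by
    ext y
    constructor
    · rintro ⟨z, hz, rfl⟩
      change f (k z) = k z
      rw [← h, show f z = z from hz]
    · intro hy
      refine ⟨k.symm y, ?_, k.apply_symm_apply y⟩
      change f (k.symm y) = k.symm y
      apply k.injective
      rw [h, k.apply_symm_apply]
      exact hy
  rwa [h3] at h2

/-- A lift fixing a given point. -/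
theorem exists_lift_fix {f : UnitAddCircle → UnitAddCircle} {F : CircleDeg1Liftˣ}
    (hF : IsLift f F) {b : ℝ} (hb : f b = b) :
    ∃ K : CircleDeg1Liftˣ, IsLift f K ∧ K b = b := by
  have h1 : ((F b : ℝ) : UnitAddCircle) = (b : UnitAddCircle) := by rw [← hF b, hb]
  obtain ⟨n, hn⟩ := coe_eq.1 h1
  refine ⟨translate (Multiplicative.ofAdd (n : ℝ)) * F, ?_, ?_⟩
  · rw [Units.val_mul]
    exact hF.add_int n
  · rw [Units.val_mul, mul_apply, translate_apply, add_comm, ← hn]

theorem lift_fix_unique {f : UnitAddCircle → UnitAddCircle} (hf : Injective f)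
    {F K : CircleDeg1Liftˣ} (hF : IsLift f F) (hK : IsLift f K) {b : ℝ} (h1 : F b = b)
    (h2 : K b = b) : F = K := by
  obtain ⟨k, hk⟩ := lift_unique hf hF hK
  have h3 := hk b
  rw [h1, h2] at h3
  have h4 : (k : ℝ) = 0 := by linarith
  ext x
  rw [hk x, h4, add_zero]

theorem unit_strictMono (F : CircleDeg1Liftˣ) : StrictMono (F : ℝ → ℝ) :=
  (toOrderIso F).strictMono

variable {φ} {L : C → CircleDeg1Liftˣ} (hL : ∀ h, IsLift (φ h) (L h))
  (hfin : ∀ h, (frontier {x | φ h x = x}).Finite) {g : C}
  (hg : ∀ h, h * g = g * h)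

include hL hfin hg in
/-- The case of an element with a fixed point. -/
theorem fixed_char (q : ℕ) {z : UnitAddCircle} (hz : φ (g ^ q) z = z) (hne : φ (g ^ q) ≠ 1) :
    ∃ χ : C →* Multiplicative ℚ, (χ g).toAdd = 1 := by
  have hgq : ∀ h : C, h * g ^ q = g ^ q * h := fun h => Commute.pow_right (hg h) q
  obtain ⟨w, hw⟩ : ∃ w, φ (g ^ q) w ≠ w := by
    by_contra hcon
    push Not at hcon
    exact hne (Homeomorph.ext hcon)
  obtain ⟨b', hb'⟩ : (frontier {x | φ (g ^ q) x = x}).Nonempty := by
    rw [nonempty_frontier_iff]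
    refine ⟨⟨z, hz⟩, fun h => hw ?_⟩
    have : w ∈ {x | φ (g ^ q) x = x} := by rw [h]; exact mem_univ w
    exact this
  have hclosed : IsClosed {x | φ (g ^ q) x = x} :=
    isClosed_eq (φ (g ^ q)).continuous continuous_id
  obtain ⟨b, rfl⟩ := QuotientAddGroup.mk_surjective b'
  change ((b : ℝ) : UnitAddCircle) ∈ _ at hb'
  have hbfix : φ (g ^ q) (b : UnitAddCircle) = (b : UnitAddCircle) := by
    have := frontier_subset_closure hb'
    rwa [hclosed.closure_eq] at this
  set D := stab φ (b : UnitAddCircle) with hD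
  have hDfin : D.FiniteIndex := by
    refine stab_finiteIndex φ (hfin (g ^ q)) fun c => ?_
    refine circle_frontier_comm (fun x => ?_) hb'
    rw [← hom_mul, ← hom_mul, hgq]
  have hgD : g ^ q ∈ D := hbfix
  have hex : ∀ d : D, ∃ K : CircleDeg1Liftˣ, IsLift (φ (d : C)) K ∧ K b = b := fun d =>
    exists_lift_fix (hL d) d.2
  choose M hM hMb using hex
  let Ψ : D →* (ℝ ≃o ℝ) := MonoidHom.mk' (fun d => toOrderIso (M d)) (by
    intro d e
    rw [← map_mul]
    congr 1
    apply lift_fix_unique (φ ((d * e : D) : C)).injective (hM _) ?_ (hMb _)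
    · rw [Units.val_mul, mul_apply, hMb, hMb]
    · rw [Units.val_mul]
      intro x
      have h2 := (hM d).comp (hM e)
      rw [Subgroup.coe_mul, hom_mul]
      exact h2 x)
  have hΨ : ∀ (d : D) (x : ℝ), Ψ d x = M d x := fun d x => rfl
  have hMb1 : ∀ d : D, M d (b + 1) = b + 1 := fun d => by rw [map_add_one, hMb]
  have hinv : ∀ d : D, ∀ x ∈ Ioo b (b + 1), Ψ d x ∈ Ioo b (b + 1) := by
    intro d x hx
    rw [hΨ]
    constructor
    · have := unit_strictMono (M d) hx.1
      rwa [hMb] at this
    · have := unit_strictMono (M d) hx.2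
      rwa [hMb1] at this
  have hfix : ∀ (d : D) (x : ℝ), x ∈ Ioo b (b + 1) →
      φ (d : C) (x : UnitAddCircle) = (x : UnitAddCircle) → M d x = x := by
    intro d x hx h1
    rw [hM d x] at h1
    obtain ⟨n, hn⟩ := coe_eq.1 h1
    have h2 := hinv d x hx
    rw [hΨ] at h2
    have e1 : (n : ℝ) < 1 := by linarith [hx.2, h2.1]
    have e2 : (-1 : ℝ) < n := by linarith [hx.1, h2.2]
    have e1' : n < 1 := by exact_mod_cast e1
    have e2' : -1 < n := by exact_mod_cast e2
    have e3 : n = 0 := by omega
    rw [e3, Int.cast_zero, add_zero] at hn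
    exact hn.symm
  have hfinJ : ∀ d : D, (frontier (Fix (Ψ d)) ∩ Ioo b (b + 1)).Finite := by
    intro d
    refine Set.Finite.of_finite_image (f := fun x : ℝ => (x : UnitAddCircle))
      ((hfin (d : C)).subset ?_) ?_
    · rintro _ ⟨x, ⟨hx, hxJ⟩, rfl⟩
      have h1 : x ∈ Fix (Ψ d) := by
        have := frontier_subset_closure hx
        rwa [(isClosed_Fix (Ψ d)).closure_eq] at this
      have h1' : M d x = x := h1
      refine ⟨subset_closure ?_, fun hint => hx.2 ?_⟩
      · change φ (d : C) (x : UnitAddCircle) = (x : UnitAddCircle)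
        rw [hM d x, h1']
      · have hcont : Continuous fun y : ℝ => (y : UnitAddCircle) := AddCircle.continuous_mk' 1
        have h2 : IsOpen ((fun y : ℝ => (y : UnitAddCircle)) ⁻¹'
            interior {y | φ (d : C) y = y} ∩ Ioo b (b + 1)) :=
          (isOpen_interior.preimage hcont).inter isOpen_Ioo
        refine mem_interior.2 ⟨_, ?_, h2, ⟨hint, hxJ⟩⟩
        rintro y ⟨hy, hyJ⟩
        change Ψ d y = y
        rw [hΨ]
        apply hfix d y hyJ
        exact interior_subset (s := {y | φ (d : C) y = y}) hy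
    · rintro x ⟨_, hx⟩ y ⟨_, hy⟩ hxy
      obtain ⟨n, hn⟩ := coe_eq.1 hxy
      have e1 : (n : ℝ) < 1 := by linarith [hx.1, hy.2]
      have e2 : (-1 : ℝ) < n := by linarith [hx.2, hy.1]
      have e1' : n < 1 := by exact_mod_cast e1
      have e2' : -1 < n := by exact_mod_cast e2
      have e3 : n = 0 := by omega
      rw [e3, Int.cast_zero, add_zero] at hn
      exact hn.symm
  obtain ⟨x₀, hx₀, hx₀ne⟩ : ∃ x₀ ∈ Ioo b (b + 1),
      φ (g ^ q) (x₀ : UnitAddCircle) ≠ (x₀ : UnitAddCircle) := by
    obtain ⟨w', rfl⟩ := QuotientAddGroup.mk_surjective w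
    change φ (g ^ q) (w' : UnitAddCircle) ≠ (w' : UnitAddCircle) at hw
    have h1 : ((b + Int.fract (w' - b) : ℝ) : UnitAddCircle) = (w' : UnitAddCircle) := by
      apply coe_eq.2
      refine ⟨⌊w' - b⌋, ?_⟩
      have := Int.fract_add_floor (w' - b)
      linarith
    have h2 := Int.fract_nonneg (w' - b)
    have h3 := Int.fract_lt_one (w' - b)
    refine ⟨b + Int.fract (w' - b), ⟨?_, by linarith⟩, by rw [h1]; exact hw⟩
    rcases eq_or_lt_of_le h2 with h4 | h4
    · exfalso
      rw [← h4, add_zero] at h1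
      apply hw
      rw [← h1]
      exact hbfix
    · linarith
  obtain ⟨χ, hχ⟩ := exists_char (X := ℝ) (φ := Ψ) (g := ⟨g ^ q, hgD⟩)
    (fun h => Subtype.ext (hgq h)) (J := Ioo b (b + 1)) ordConnected_Ioo hinv hfinJ hx₀ (by
      rw [hΨ]
      intro h1
      apply hx₀ne
      have h2 := hM ⟨g ^ q, hgD⟩ x₀
      rw [h1] at h2
      exact h2)
  obtain ⟨ψ, hψ⟩ := RCT.exists_ratHom_real χ _ hχ
  exact RCT.transfer_char D g hg ψ q hgD (by rw [hψ]; exact one_ne_zero)

end rational

/-- **The character of a central element of a group of circle homeomorphisms.** -/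
theorem circle_char (hor : ∀ h, ∃ F : CircleDeg1Lift, IsLift (φ h) F)
    (hfin : ∀ h, (frontier {x | φ h x = x}).Finite) {g : C}
    (hg : ∀ h, h * g = g * h) (hinf : ∀ n : ℕ, 0 < n → φ (g ^ n) ≠ 1) :
    ∃ χ : C →* Multiplicative ℚ, (χ g).toAdd = 1 := by
  have hex : ∀ h, ∃ K : CircleDeg1Liftˣ, IsLift (φ h) K := fun h => by
    obtain ⟨F, hF⟩ := hor h
    exact exists_unit (φ h).bijective hF
  choose L hL using hex
  by_cases hirr : Irrational (translationNumber (L g))
  · exact irrational_char hL hg hirr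
  · unfold Irrational at hirr
    push Not at hirr
    obtain ⟨r, hr⟩ := hirr
    have hcont : Continuous (L g : ℝ → ℝ) := (toOrderIso (L g)).continuous
    have hr' : translationNumber (L g) = (r.num : ℝ) / (r.den : ℝ) := by
      rw [← hr]
      exact Rat.cast_def r
    obtain ⟨x, hx⟩ := (translationNumber_eq_rat_iff _ hcont r.den_pos).1 hr'
    have hpow : ∀ (n : ℕ) (y : ℝ), φ (g ^ n) (y : UnitAddCircle) =
        ((((L g : CircleDeg1Lift) ^ n) y : ℝ) : UnitAddCircle) := by
      intro n
      induction n with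
      | zero =>
        intro y
        rw [pow_zero, hom_one, pow_zero]
        rfl
      | succ n ih =>
        intro y
        rw [pow_succ, hom_mul, hL g y, ih, pow_succ, mul_apply]
    refine fixed_char hL hfin hg r.den (z := (x : UnitAddCircle)) ?_ (hinf _ r.den_pos)
    rw [hpow, hx, coe_add_int]

end Pool.Agent.H416.Circ
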