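import Mathlib
import Pool.Agent.H416.CircRC

/-!
# All homeomorphisms of the circle
-/

set_option autoImplicit false
set_option linter.unusedSectionVars false

namespace Pool.Agent.H416.Circ

open Set Filter Topology Function CircleDeg1Lift

/-- Strictly increasing continuous lifts have degree one. -/
theorem lift_of_strictMono {f : UnitAddCircle → UnitAddCircle} (hf : Injective f) {F : ℝ → ℝ}
    (hc : Continuous F) (hF : StrictMono F)
    (h : ∀ x : ℝ, f (x : UnitAddCircle) = ((F x : ℝ) : UnitAddCircle)) :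
    ∃ K : CircleDeg1Lift, IsLift f K := by
  have h1 : ∀ x, F (x + 1) = F x + 1 := by
    intro x
    obtain ⟨n, hn⟩ := coe_eq.1 (show ((F x : ℝ) : UnitAddCircle) = ((F (x + 1) : ℝ) : UnitAddCircle)
      by
        rw [← h, ← h]
        congr 1
        exact coe_eq.2 ⟨1, by push_cast; ring⟩)
    have h2 : F x < F (x + 1) := hF (by linarith)
    have h3 : (0 : ℝ) < n := by linarith
    have h3' : 0 < n := by exact_mod_cast h3
    have h4 : n < 2 := by
      by_contra hcon
      push Not at hcon
      have h5 : (2 : ℝ) ≤ n := by exact_mod_cast hcon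
      obtain ⟨s, hs, hs1⟩ := intermediate_value_Icc (show x ≤ x + 1 by linarith) hc.continuousOn
        (show F x + 1 ∈ Icc (F x) (F (x + 1)) from ⟨by linarith, by linarith⟩)
      have h6 : f s = f x := by
        rw [h, h, hs1]
        exact (coe_eq.2 ⟨1, by push_cast; ring⟩ : ((F x : ℝ) : UnitAddCircle) = _).symm
      obtain ⟨m, hm⟩ := coe_eq.1 (hf h6)
      have h7 : x < s := by
        rcases eq_or_lt_of_le hs.1 with h8 | h8
        · rw [← h8] at hs1
          linarith
        · exact h8
      have h9 : s < x + 1 := by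
        rcases eq_or_lt_of_le hs.2 with h8 | h8
        · rw [h8, hn] at hs1
          linarith
        · exact h8
      have e1 : (m : ℝ) < 0 := by linarith
      have e2 : (-1 : ℝ) < m := by linarith
      have e1' : m < 0 := by exact_mod_cast e1
      have e2' : -1 < m := by exact_mod_cast e2
      omega
    have h5 : n = 1 := by omega
    rw [hn, h5]
    norm_num
  exact ⟨⟨⟨F, hF.monotone⟩, h1⟩, h⟩

/-- A continuous real function which takes integral values is constant. -/
theorem const_of_int {G : ℝ → ℝ} (hc : Continuous G) (h : ∀ x, ∃ n : ℤ, G x = n) (x y : ℝ) :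
    G x = G y := by
  by_contra hne
  wlog hlt : G x < G y generalizing x y with H
  · exact H y x (Ne.symm hne) (lt_of_le_of_ne (not_lt.1 hlt) (Ne.symm hne))
  obtain ⟨n, hn⟩ := h x
  obtain ⟨m, hm⟩ := h y
  have h1 : n < m := by
    rw [hn, hm] at hlt
    exact_mod_cast hlt
  have h2 : (n : ℝ) + 1 ≤ m := by exact_mod_cast h1
  obtain ⟨z, hz⟩ := mem_range_of_exists_le_of_exists_ge hc ⟨x, (by linarith : G x ≤ n + 1 / 2)⟩
    ⟨y, (by linarith : (n : ℝ) + 1 / 2 ≤ G y)⟩
  obtain ⟨k, hk⟩ := h z
  have e1 : (n : ℝ) < k := by linarith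
  have e2 : (k : ℝ) < n + 1 := by linarith
  have e1' : n < k := by exact_mod_cast e1
  have e2' : k < n + 1 := by exact_mod_cast e2
  omega

/-- Every homeomorphism of the circle preserves or reverses the orientation. -/
theorem exists_lift (f : UnitAddCircle ≃ₜ UnitAddCircle) :
    (∃ K : CircleDeg1Lift, IsLift f K) ∨ (∃ K : CircleDeg1Lift, IsLift (fun x => -f x) K) := by
  have hc0 : Continuous fun y : ℝ => (y : UnitAddCircle) := AddCircle.continuous_mk' 1
  obtain ⟨e0, he0⟩ := QuotientAddGroup.mk_surjective (f ((0 : ℝ) : UnitAddCircle))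
  obtain ⟨F, ⟨_, hF⟩, _⟩ := (AddCircle.isCoveringMap_coe (1 : ℝ)).existsUnique_continuousMap_lifts
    (⟨fun y : ℝ => f (y : UnitAddCircle), f.continuous.comp hc0⟩ : C(ℝ, UnitAddCircle)) 0 e0 he0
  have hl : ∀ x : ℝ, f (x : UnitAddCircle) = ((F x : ℝ) : UnitAddCircle) := fun x =>
    (congrFun hF x).symm
  have hcF : Continuous F := F.continuous
  -- the degree
  have hint : ∀ x, ∃ n : ℤ, F (x + 1) - F x = n := by
    intro x
    obtain ⟨n, hn⟩ := coe_eq.1 (show ((F x : ℝ) : UnitAddCircle) = ((F (x + 1) : ℝ) : UnitAddCircle)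
      by
        rw [← hl, ← hl]
        congr 1
        exact coe_eq.2 ⟨1, by push_cast; ring⟩)
    exact ⟨n, by rw [hn]; ring⟩
  have hconst := const_of_int (G := fun x => F (x + 1) - F x) (by fun_prop) hint
  obtain ⟨d, hd⟩ := hint 0
  have hd1 : ∀ x, F (x + 1) = F x + d := by
    intro x
    have := hconst x 0
    linarith
  have hdn : ∀ (n : ℕ) (x : ℝ), F (x + n) = F x + n * d := by
    intro n
    induction n with
    | zero => intro x; simp
    | succ n ih =>
      intro x
      have e : x + ((n + 1 : ℕ) : ℝ) = (x + n) + 1 := by push_cast; ring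
      rw [e, hd1, ih]
      push_cast
      ring
  have hinjI : ∀ x y : ℝ, |x - y| < 1 → F x = F y → x = y := by
    intro x y hxy h
    have h1 : f x = f y := by rw [hl, hl, h]
    obtain ⟨n, hn⟩ := coe_eq.1 (f.injective h1)
    rw [abs_lt] at hxy
    have e1 : (n : ℝ) < 1 := by linarith
    have e2 : (-1 : ℝ) < n := by linarith
    have e1' : n < 1 := by exact_mod_cast e1
    have e2' : -1 < n := by exact_mod_cast e2
    have e3 : n = 0 := by omega
    rw [e3, Int.cast_zero, add_zero] at hn
    exact hn.symm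
  have hd0 : d ≠ 0 := by
    intro h0
    have h1 : F 1 = F 0 := by
      have := hd1 0
      rw [h0, Int.cast_zero, add_zero, zero_add] at this
      exact this
    have h2 : F (1 / 2) ≠ F 0 := by
      intro h
      have := hinjI (1 / 2) 0 (by norm_num) h
      norm_num at this
    set w := (F 0 + F (1 / 2)) / 2 with hw
    obtain ⟨s, hs, hs1⟩ : ∃ s ∈ Icc (0 : ℝ) (1 / 2), F s = w := by
      have := intermediate_value_uIcc (a := (0 : ℝ)) (b := 1 / 2) (f := F) hcF.continuousOn
      rw [uIcc_of_le (by norm_num : (0 : ℝ) ≤ 1 / 2)] at this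
      obtain ⟨s, hs, hs1⟩ := this (by
        rw [mem_uIcc]
        rcases le_total (F 0) (F (1 / 2)) with h | h
        · left
          constructor <;> linarith
        · right
          constructor <;> linarith : w ∈ uIcc (F 0) (F (1 / 2)))
      exact ⟨s, hs, hs1⟩
    obtain ⟨t, ht, ht1⟩ : ∃ t ∈ Icc (1 / 2 : ℝ) 1, F t = w := by
      have := intermediate_value_uIcc (a := (1 / 2 : ℝ)) (b := 1) (f := F) hcF.continuousOn
      rw [uIcc_of_le (by norm_num : (1 / 2 : ℝ) ≤ 1)] at this
      obtain ⟨s, hs, hs1⟩ := this (by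
        rw [mem_uIcc, h1]
        rcases le_total (F 0) (F (1 / 2)) with h | h
        · right
          constructor <;> linarith
        · left
          constructor <;> linarith : w ∈ uIcc (F (1 / 2)) (F 1))
      exact ⟨s, hs, hs1⟩
    have h3 : t - s < 1 := by
      rcases eq_or_lt_of_le hs.1 with h4 | h4
      · exfalso
        rw [← h4] at hs1
        apply h2
        linarith
      · linarith [ht.2]
    have h4 := hinjI s t (by
      rw [abs_lt]
      constructor
      · linarith
      · linarith [hs.2, ht.1]) (hs1.trans ht1.symm)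
    have h5 : s = 1 / 2 := le_antisymm hs.2 (by rw [h4]; exact ht.1)
    rw [h5] at hs1
    apply h2
    linarith
  have hinj : Injective F := by
    intro x y hxy
    have h1 : f x = f y := by rw [hl, hl, hxy]
    obtain ⟨n, hn⟩ := coe_eq.1 (f.injective h1)
    have hd0' : (d : ℝ) ≠ 0 := by exact_mod_cast hd0
    obtain ⟨m, rfl | rfl⟩ := n.eq_nat_or_neg
    · have h2 := hdn m x
      push_cast at hn
      rw [← hn, hxy] at h2
      have h3 : (m : ℝ) * d = 0 := by linarith
      have h4 := (mul_eq_zero.1 h3).resolve_right hd0'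
      rw [hn, h4, add_zero]
    · have h2 := hdn m y
      push_cast at hn
      have h5 : y + (m : ℝ) = x := by rw [hn]; ring
      rw [h5, hxy] at h2
      have h3 : (m : ℝ) * d = 0 := by linarith
      have h4 := (mul_eq_zero.1 h3).resolve_right hd0'
      rw [hn, h4, neg_zero, add_zero]
  rcases hcF.strictMono_of_inj hinj with h | h
  · exact Or.inl (lift_of_strictMono f.injective hcF h hl)
  · right
    refine lift_of_strictMono (f := fun x => -f x) (neg_injective.comp f.injective)
      (F := fun x => -F x) hcF.neg (fun x y hxy => neg_lt_neg (h hxy)) fun x => ?_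
    rw [hl, AddCircle.coe_neg]

/-- The reflected lift. -/
def refl (F : CircleDeg1Lift) : CircleDeg1Lift where
  toFun x := -F (-x)
  monotone' x y h := neg_le_neg (F.monotone (neg_le_neg h))
  map_add_one' x := by
    have h1 : F (-(x + 1)) = F (-x) - 1 := by
      have := F.map_add_one (-(x + 1))
      rw [show -(x + 1) + 1 = -x by ring] at this
      linarith
    change -F (-(x + 1)) = -F (-x) + 1
    rw [h1]
    ring

theorem refl_apply (F : CircleDeg1Lift) (x : ℝ) : refl F x = -F (-x) := rfl

variable {C : Type*} [Group C] (φ : C →* (UnitAddCircle ≃ₜ UnitAddCircle))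

/-- The elements which preserve the orientation. -/
def pos : Subgroup C where
  carrier := {h | ∃ F : CircleDeg1Lift, IsLift (φ h) F}
  mul_mem' := by
    rintro a b ⟨F, hF⟩ ⟨K, hK⟩
    refine ⟨F * K, ?_⟩
    intro x
    rw [hom_mul]
    exact (hF.comp hK) x
  one_mem' := ⟨1, fun x => by rw [hom_one]; rfl⟩
  inv_mem' := by
    rintro a ⟨F, hF⟩
    obtain ⟨K, hK⟩ := exists_unit (φ a).bijective hF
    refine ⟨(K⁻¹ : CircleDeg1Liftˣ), fun x => ?_⟩
    apply (φ a).injective
    rw [← hom_mul, mul_inv_cancel, hom_one, hK, ← mul_apply, ← Units.val_mul, mul_inv_cancel]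
    rfl

theorem mem_pos {h : C} : h ∈ pos φ ↔ ∃ F : CircleDeg1Lift, IsLift (φ h) F := Iff.rfl

theorem mul_mem_pos {a b : C} (ha : a ∉ pos φ) (hb : b ∉ pos φ) : a * b ∈ pos φ := by
  obtain ⟨F, hF⟩ := (exists_lift (φ a)).resolve_left ha
  obtain ⟨K, hK⟩ := (exists_lift (φ b)).resolve_left hb
  refine ⟨refl F * K, fun x => ?_⟩
  rw [hom_mul, mul_apply, refl_apply, AddCircle.coe_neg]
  have h1 : φ b (x : UnitAddCircle) = ((-K x : ℝ) : UnitAddCircle) := by
    have := hK x
    dsimp only at this
    rw [AddCircle.coe_neg, ← this, neg_neg]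
  have h2 := hF (-K x)
  dsimp only at h2
  rw [h1, ← h2, neg_neg]

instance pos_finiteIndex : (pos φ).FiniteIndex := by
  by_cases h : ∃ a, a ∉ pos φ
  · obtain ⟨a, ha⟩ := h
    have h2 : (pos φ).index = 2 := by
      rw [Subgroup.index_eq_two_iff]
      refine ⟨a, fun b => ?_⟩
      by_cases hb : b ∈ pos φ
      · right
        exact ⟨hb, fun h => ha (by simpa using (pos φ).mul_mem ((pos φ).inv_mem hb) h)⟩
      · left
        exact ⟨mul_mem_pos φ hb ha, hb⟩
    exact ⟨by rw [h2]; norm_num⟩
  · push Not at h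
    have : pos φ = ⊤ := by
      ext a
      simp [h a]
    rw [this]
    infer_instance

theorem sq_mem_pos (g : C) : g ^ 2 ∈ pos φ := by
  rw [pow_two]
  by_cases h : g ∈ pos φ
  · exact (pos φ).mul_mem h h
  · exact mul_mem_pos φ h h

variable {φ}

/-- **The character of a central element of a group of circle homeomorphisms.** -/
theorem circle_char' (hfin : ∀ h, (frontier {x | φ h x = x}).Finite) {g : C}
    (hg : ∀ h, h * g = g * h) (hinf : ∀ n : ℕ, 0 < n → φ (g ^ n) ≠ 1) :
    ∃ χ : C →* Multiplicative ℚ, (χ g).toAdd = 1 := by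
  obtain ⟨ψ, hψ⟩ := circle_char (φ := φ.comp (pos φ).subtype) (g := ⟨g ^ 2, sq_mem_pos φ g⟩)
    (fun h => h.2) (fun h => hfin h.1)
    (fun h => Subtype.ext (Commute.pow_right (hg h.1) 2)) (fun n hn => by
      have := hinf (2 * n) (by omega)
      rw [pow_mul] at this
      exact this)
  exact RCT.transfer_char (pos φ) g hg ψ 2 (sq_mem_pos φ g) (by rw [hψ]; exact one_ne_zero)

/-- **Homeomorphisms of the circle.** -/
theorem rc_of_circle {H : Type*} [Group H] (φ : H →* (UnitAddCircle ≃ₜ UnitAddCircle))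
    (hfin : ∀ h, (frontier {x | φ h x = x}).Finite) (g : H)
    (hinf : ∀ n : ℕ, 0 < n → φ (g ^ n) ≠ 1) : RC g := by
  have hgm : g ∈ Subgroup.centralizer {g} := Subgroup.mem_centralizer_singleton_iff.2 rfl
  obtain ⟨χ, hχ⟩ := circle_char' (φ := φ.comp (Subgroup.centralizer {g}).subtype)
    (g := ⟨g, hgm⟩) (fun h => hfin h.1)
    (fun h => Subtype.ext (Subgroup.mem_centralizer_singleton_iff.1 h.2)) (fun n hn => hinf n hn)
  exact RCT.of_centralizer g χ hχ

end Pool.Agent.H416.Circ
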