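import Mathlib
import Pool.Agent.H416.NegType

/-!
# Spaces with walls

The wall metric is of negative type, and the elements with unbounded orbits are undistorted.
-/

set_option autoImplicit false
set_option linter.unusedSectionVars false

namespace Pool.Agent.H416

open Filter Topology Finset
open scoped Pointwise

/-- The members of `𝒲` which separate `x` and `y`. -/
def Sep {Y : Type*} (𝒲 : Set (Set Y)) (x y : Y) : Set (Set Y) :=
  {A | A ∈ 𝒲 ∧ ¬ (x ∈ A ↔ y ∈ A)}

namespace Walls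

variable {Y : Type*} {𝒲 : Set (Set Y)}

theorem sep_self (x : Y) : Sep 𝒲 x x = ∅ := by
  ext A
  simp [Sep]

theorem sep_comm (x y : Y) : Sep 𝒲 x y = Sep 𝒲 y x := by
  ext A
  simp only [Sep, Set.mem_setOf_eq]
  tauto

theorem sep_triangle (x y z : Y) : Sep 𝒲 x z ⊆ Sep 𝒲 x y ∪ Sep 𝒲 y z := by
  rintro A ⟨h1, h2⟩
  by_cases h3 : x ∈ A ↔ y ∈ A
  · right
    exact ⟨h1, fun h4 => h2 (h3.trans h4)⟩
  · left
    exact ⟨h1, h3⟩

/-- The wall metric. -/
@[instance_reducible]
noncomputable def met (hfin : ∀ x y : Y, (Sep 𝒲 x y).Finite) : PseudoMetricSpace Y where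
  dist x y := (Sep 𝒲 x y).ncard
  dist_self x := by
    rw [sep_self, Set.ncard_empty, Nat.cast_zero]
  dist_comm x y := by
    rw [sep_comm]
  dist_triangle x y z := by
    have h1 := Set.ncard_le_ncard (sep_triangle x y z) ((hfin x y).union (hfin y z))
    have h2 := Set.ncard_union_le (Sep 𝒲 x y) (Sep 𝒲 y z)
    exact_mod_cast h1.trans h2

theorem dist_eq (hfin : ∀ x y : Y, (Sep 𝒲 x y).Finite) (x y : Y) :
    @dist Y (met hfin).toDist x y = (Sep 𝒲 x y).ncard := rfl

/-- The wall metric is of negative type. -/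
theorem negType (hfin : ∀ x y : Y, (Sep 𝒲 x y).Finite) : @NegType Y (met hfin) := by
  classical
  intro s c hc
  simp only [dist_eq]
  -- the relevant walls
  let T : Finset (Set Y) := s.biUnion fun x => s.biUnion fun y => (hfin x y).toFinset
  have hT : ∀ x ∈ s, ∀ y ∈ s, ((Sep 𝒲 x y).ncard : ℝ) =
      ∑ A ∈ T, ((if x ∈ A then (1 : ℝ) else 0) - (if y ∈ A then 1 else 0)) ^ 2 := by
    intro x hx y hy
    have h1 : (hfin x y).toFinset ⊆ T := by
      intro A hA
      exact Finset.mem_biUnion.2 ⟨x, hx, Finset.mem_biUnion.2 ⟨y, hy, hA⟩⟩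
    rw [← Finset.sum_subset h1]
    · rw [Set.ncard_eq_toFinset_card _ (hfin x y), Finset.card_eq_sum_ones]
      push_cast
      refine Finset.sum_congr rfl fun A hA => ?_
      rw [Set.Finite.mem_toFinset] at hA
      obtain ⟨_, h2⟩ := hA
      by_cases hxA : x ∈ A
      · have hyA : y ∉ A := fun h => h2 ⟨fun _ => h, fun _ => hxA⟩
        rw [if_pos hxA, if_neg hyA]
        norm_num
      · have hyA : y ∈ A := by
          by_contra h
          exact h2 ⟨fun h3 => absurd h3 hxA, fun h3 => absurd h3 h⟩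
        rw [if_neg hxA, if_pos hyA]
        norm_num
    · intro A hA hA2
      obtain ⟨x', _, hA⟩ := Finset.mem_biUnion.1 hA
      obtain ⟨y', _, hA⟩ := Finset.mem_biUnion.1 hA
      rw [Set.Finite.mem_toFinset] at hA hA2
      have h3 : x ∈ A ↔ y ∈ A := by
        by_contra h
        exact hA2 ⟨hA.1, h⟩
      by_cases hxA : x ∈ A
      · rw [if_pos hxA, if_pos (h3.1 hxA)]
        norm_num
      · rw [if_neg hxA, if_neg (fun h => hxA (h3.2 h))]
        norm_num
  have h1 : ∑ x ∈ s, ∑ y ∈ s, c x * c y * ((Sep 𝒲 x y).ncard : ℝ) =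
      ∑ A ∈ T, ∑ x ∈ s, ∑ y ∈ s, c x * c y *
        ((if x ∈ A then (1 : ℝ) else 0) - (if y ∈ A then 1 else 0)) ^ 2 := by
    have h2 : ∀ x ∈ s, ∀ y ∈ s, c x * c y * ((Sep 𝒲 x y).ncard : ℝ) =
        ∑ A ∈ T, c x * c y *
          ((if x ∈ A then (1 : ℝ) else 0) - (if y ∈ A then 1 else 0)) ^ 2 := by
      intro x hx y hy
      rw [hT x hx y hy, Finset.mul_sum]
    rw [Finset.sum_congr rfl fun x hx => Finset.sum_congr rfl fun y hy => h2 x hx y hy]
    have h3 : ∀ x ∈ s, ∑ y ∈ s, ∑ A ∈ T, c x * c y *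
          ((if x ∈ A then (1 : ℝ) else 0) - (if y ∈ A then 1 else 0)) ^ 2 =
        ∑ A ∈ T, ∑ y ∈ s, c x * c y *
          ((if x ∈ A then (1 : ℝ) else 0) - (if y ∈ A then 1 else 0)) ^ 2 := fun x _ =>
      Finset.sum_comm
    rw [Finset.sum_congr rfl h3, Finset.sum_comm]
  rw [h1]
  refine Finset.sum_nonpos fun A _ => ?_
  -- one wall
  set t : ℝ := ∑ x ∈ s, c x * (if x ∈ A then (1 : ℝ) else 0) with ht
  have h2 : ∀ x ∈ s, ∑ y ∈ s, c x * c y *
      ((if x ∈ A then (1 : ℝ) else 0) - (if y ∈ A then 1 else 0)) ^ 2 =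
      c x * t - 2 * (c x * (if x ∈ A then (1 : ℝ) else 0)) * t := by
    intro x _
    have h3 : ∀ y ∈ s, c x * c y *
        ((if x ∈ A then (1 : ℝ) else 0) - (if y ∈ A then 1 else 0)) ^ 2 =
        (c x * (if x ∈ A then (1 : ℝ) else 0)) * c y + c x * (c y * (if y ∈ A then (1 : ℝ) else 0)) -
        2 * (c x * (if x ∈ A then (1 : ℝ) else 0)) * (c y * (if y ∈ A then (1 : ℝ) else 0)) := by
      intro y _
      split_ifs <;> ring
    rw [Finset.sum_congr rfl h3, Finset.sum_sub_distrib, Finset.sum_add_distrib, ← Finset.mul_sum,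
      ← Finset.mul_sum, ← Finset.mul_sum, hc, ← ht, mul_zero, zero_add]
  rw [Finset.sum_congr rfl h2, Finset.sum_sub_distrib, ← Finset.sum_mul, hc, zero_mul, zero_sub,
    ← Finset.sum_mul, ← Finset.mul_sum, ← ht]
  nlinarith [sq_nonneg t]

section action

variable {H : Type*} [Group H] [MulAction H Y]

theorem sep_smul (hinv : ∀ (h : H), ∀ A ∈ 𝒲, h • A ∈ 𝒲) (h : H) (x y : Y) :
    Sep 𝒲 (h • x) (h • y) = (fun A => h • A) '' Sep 𝒲 x y := by
  ext A
  constructor
  · rintro ⟨h1, h2⟩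
    refine ⟨h⁻¹ • A, ⟨hinv _ _ h1, ?_⟩, smul_inv_smul h A⟩
    rw [Set.mem_inv_smul_set_iff, Set.mem_inv_smul_set_iff]
    exact h2
  · rintro ⟨B, ⟨h1, h2⟩, rfl⟩
    refine ⟨hinv _ _ h1, ?_⟩
    dsimp only
    rw [Set.smul_mem_smul_set_iff, Set.smul_mem_smul_set_iff]
    exact h2

theorem ncard_smul (hinv : ∀ (h : H), ∀ A ∈ 𝒲, h • A ∈ 𝒲) (h : H) (x y : Y) :
    (Sep 𝒲 (h • x) (h • y)).ncard = (Sep 𝒲 x y).ncard := by
  rw [sep_smul hinv]
  exact Set.ncard_image_of_injective _ (MulAction.injective h)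

/-- The action by isometries. -/
noncomputable def act (hfin : ∀ x y : Y, (Sep 𝒲 x y).Finite)
    (hinv : ∀ (h : H), ∀ A ∈ 𝒲, h • A ∈ 𝒲) :
    letI := met hfin
    H →* (Y ≃ᵢ Y) :=
  letI := met hfin
  { toFun := fun h => ⟨MulAction.toPerm h, Isometry.of_dist_eq fun x y => by
      change ((Sep 𝒲 (h • x) (h • y)).ncard : ℝ) = (Sep 𝒲 x y).ncard
      rw [ncard_smul hinv]⟩
    map_one' := by
      ext x
      exact one_smul H x
    map_mul' := fun a b => by
      ext x
      exact mul_smul a b x }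

variable (g : H) (x : Y)

theorem mem_zpow_smul (A : Set Y) (j m : ℤ) : g ^ m • x ∈ g ^ j • A ↔ g ^ (m - j) • x ∈ A := by
  rw [Set.mem_smul_set_iff_inv_smul_mem, ← mul_smul, ← zpow_neg, ← zpow_add]
  rw [show -j + m = m - j by ring]

/-- The wall `h` separates the two ends of the orbit. -/
def Skew (g : H) (x : Y) (h : Set Y) : Prop :=
  ∃ (L : ℕ) (P Q : Prop), (∀ m : ℤ, (L : ℤ) ≤ m → (g ^ m • x ∈ h ↔ P)) ∧
    (∀ m : ℤ, m ≤ -(L : ℤ) → (g ^ m • x ∈ h ↔ Q)) ∧ ¬ (P ↔ Q)

theorem not_periodic {h : Set Y} (hs : Skew g x h) {k : ℤ} (hk : 0 < k) : g ^ k • h ≠ h := by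
  obtain ⟨L, P, Q, hP, hQ, hPQ⟩ := hs
  intro hper
  have h1 : ∀ m : ℤ, g ^ (m - k) • x ∈ h ↔ g ^ m • x ∈ h := by
    intro m
    rw [← mem_zpow_smul, hper]
  have h2 : ∀ (t : ℕ) (m : ℤ), g ^ (m - t * k) • x ∈ h ↔ g ^ m • x ∈ h := by
    intro t
    induction t with
    | zero => intro m; simp
    | succ t ih =>
      intro m
      rw [← ih m, ← h1 (m - t * k)]
      push_cast
      rw [show m - ((t : ℤ) + 1) * k = m - t * k - k by ring]
  apply hPQ
  rw [← hP L le_rfl, ← hQ (L - (2 * L : ℕ) * k) (by push_cast; nlinarith)]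
  exact (h2 _ _).symm

/-- The orbit is undistorted if a wall separates its ends. -/
theorem lower (hfin : ∀ x y : Y, (Sep 𝒲 x y).Finite) (hinv : ∀ (h : H), ∀ A ∈ 𝒲, h • A ∈ 𝒲)
    {h : Set Y} (hh : h ∈ 𝒲) (hs : Skew g x h) :
    ∃ C : ℕ, ∀ n : ℕ, n ≤ (Sep 𝒲 x (g ^ n • x)).ncard + C := by
  have hs' := hs
  obtain ⟨L, P, Q, hP, hQ, hPQ⟩ := hs
  refine ⟨2 * L, fun n => ?_⟩
  have hinj : Set.InjOn (fun j : ℤ => g ^ j • h) (Set.Icc (L : ℤ) (n - L)) := by
    intro a _ b _ hab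
    dsimp only at hab
    by_contra hne
    rcases lt_or_gt_of_ne hne with hlt | hlt
    · apply not_periodic g x hs' (sub_pos.2 hlt)
      rw [show b - a = -a + b by ring, zpow_add, mul_smul, ← hab, ← mul_smul, ← zpow_add,
        neg_add_cancel, zpow_zero, one_smul]
    · apply not_periodic g x hs' (sub_pos.2 hlt)
      rw [show a - b = -b + a by ring, zpow_add, mul_smul, hab, ← mul_smul, ← zpow_add,
        neg_add_cancel, zpow_zero, one_smul]
  have hsub : (fun j : ℤ => g ^ j • h) '' Set.Icc (L : ℤ) (n - L) ⊆ Sep 𝒲 x (g ^ n • x) := by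
    rintro _ ⟨j, ⟨hj1, hj2⟩, rfl⟩
    refine ⟨hinv _ _ hh, ?_⟩
    dsimp only
    have e1 : x ∈ g ^ j • h ↔ Q := by
      have := mem_zpow_smul g x h j 0
      rw [zpow_zero, one_smul] at this
      rw [this]
      exact hQ _ (by omega)
    have e2 : g ^ n • x ∈ g ^ j • h ↔ P := by
      have := mem_zpow_smul g x h j n
      rw [zpow_natCast] at this
      rw [this]
      exact hP _ (by omega)
    rw [e1, e2]
    exact fun h => hPQ h.symm
  have h1 := Set.ncard_le_ncard hsub (hfin _ _)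
  rw [Set.ncard_image_of_injOn hinj] at h1
  have h2 : (Set.Icc (L : ℤ) (n - L)).ncard = (n - L + 1 - L : ℤ).toNat := by
    rw [← Finset.coe_Icc, Set.ncard_coe_finset, Int.card_Icc]
  rw [h2] at h1
  omega

/-- The orbit is bounded if no wall separates its ends. -/
theorem upper (hfin : ∀ x y : Y, (Sep 𝒲 x y).Finite) (hinv : ∀ (h : H), ∀ A ∈ 𝒲, h • A ∈ 𝒲)
    (hno : ∀ h ∈ 𝒲, ¬ Skew g x h) : ∃ C : ℕ, ∀ n : ℕ, (Sep 𝒲 x (g ^ n • x)).ncard ≤ C := by
  classical
  -- the walls crossed by the orbit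
  have hcross : ∀ (A : Set Y), A ∈ 𝒲 → ∀ m : ℤ, ¬ (g ^ m • x ∈ A ↔ g ^ (m + 1) • x ∈ A) →
      g ^ (-m) • A ∈ Sep 𝒲 x (g • x) := by
    intro A hA m hm
    refine ⟨hinv _ _ hA, fun h1 => hm ?_⟩
    have e1 := mem_zpow_smul g x A (-m) 0
    have e2 := mem_zpow_smul g x A (-m) 1
    rw [zpow_zero, one_smul, zero_sub, neg_neg] at e1
    rw [zpow_one, sub_neg_eq_add, add_comm] at e2
    rw [← e1, ← e2]
    exact h1
  -- the bound for one orbit of walls
  have horb : ∀ h ∈ Sep 𝒲 x (g • x), ∃ B : ℕ, ∀ n : ℕ,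
      {A | A ∈ Sep 𝒲 x (g ^ n • x) ∧ ∃ j : ℤ, A = g ^ j • h}.ncard ≤ B := by
    intro h hh
    by_cases hinf : {m : ℤ | ¬ (g ^ m • x ∈ h ↔ g ^ (m + 1) • x ∈ h)}.Finite
    · -- finitely many crossings
      obtain ⟨L, hL⟩ : ∃ L : ℕ, ∀ m : ℤ, ¬ (g ^ m • x ∈ h ↔ g ^ (m + 1) • x ∈ h) →
          -(L : ℤ) ≤ m ∧ m < L := by
        obtain ⟨a, ha⟩ := hinf.bddAbove
        obtain ⟨b, hb⟩ := hinf.bddBelow
        refine ⟨a.natAbs + b.natAbs + 1, fun m hm => ?_⟩
        have h1 := ha hm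
        have h2 := hb hm
        omega
      have hup : ∀ k : ℕ, (g ^ ((L : ℤ) + k) • x ∈ h ↔ g ^ (L : ℤ) • x ∈ h) := by
        intro k
        induction k with
        | zero => simp
        | succ k ih =>
          rw [← ih]
          by_contra hcon
          have := hL (L + k) (by
            intro h1
            apply hcon
            push_cast
            rw [← add_assoc]
            exact h1.symm)
          omega
      have hdn : ∀ k : ℕ, (g ^ (-(L : ℤ) - k) • x ∈ h ↔ g ^ (-(L : ℤ)) • x ∈ h) := by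
        intro k
        induction k with
        | zero => simp
        | succ k ih =>
          rw [← ih]
          by_contra hcon
          have := hL (-(L : ℤ) - k - 1) (by
            intro h1
            apply hcon
            push_cast
            rw [sub_add_cancel] at h1
            rw [← sub_sub]
            exact h1)
          omega
      have hPQ : g ^ (L : ℤ) • x ∈ h ↔ g ^ (-(L : ℤ)) • x ∈ h := by
        by_contra hcon
        apply hno h hh.1
        refine ⟨L, g ^ (L : ℤ) • x ∈ h, g ^ (-(L : ℤ)) • x ∈ h, fun m hm => ?_, fun m hm => ?_, hcon⟩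
        · have := hup (m - L).toNat
          rwa [show (L : ℤ) + ((m - L).toNat : ℤ) = m by omega] at this
        · have := hdn (-L - m).toNat
          rwa [show -(L : ℤ) - ((-L - m).toNat : ℤ) = m by omega] at this
      have hout : ∀ m : ℤ, ((L : ℤ) ≤ m ∨ m ≤ -(L : ℤ)) → (g ^ m • x ∈ h ↔ g ^ (L : ℤ) • x ∈ h) := by
        intro m hm
        rcases hm with hm | hm
        · have := hup (m - L).toNat
          rwa [show (L : ℤ) + ((m - L).toNat : ℤ) = m by omega] at this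
        · have := hdn (-L - m).toNat
          rw [show -(L : ℤ) - ((-L - m).toNat : ℤ) = m by omega] at this
          rw [this, hPQ]
      refine ⟨((Finset.Ioo (-(L : ℤ)) L).card + (Finset.Ioo (-(L : ℤ)) L).card), fun n => ?_⟩
      have hsub : {A | A ∈ Sep 𝒲 x (g ^ n • x) ∧ ∃ j : ℤ, A = g ^ j • h} ⊆
          (((Finset.Ioo (-(L : ℤ)) L).image fun j => g ^ (-j) • h) ∪
            ((Finset.Ioo (-(L : ℤ)) L).image fun j => g ^ ((n : ℤ) - j) • h) :
              Finset (Set Y)) := by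
        rintro A ⟨⟨_, hA⟩, j, rfl⟩
        rw [Finset.coe_union, Finset.coe_image, Finset.coe_image]
        have e1 := mem_zpow_smul g x h j 0
        have e2 := mem_zpow_smul g x h j n
        rw [zpow_zero, one_smul, zero_sub] at e1
        rw [zpow_natCast] at e2
        rw [e1, e2] at hA
        by_cases h1 : -(L : ℤ) < -j ∧ -j < L
        · left
          exact ⟨-j, Finset.mem_coe.2 (Finset.mem_Ioo.2 h1), by dsimp only; rw [neg_neg]⟩
        · right
          refine ⟨(n : ℤ) - j, Finset.mem_coe.2 (Finset.mem_Ioo.2 ?_), by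
            dsimp only
            rw [sub_sub_cancel]⟩
          by_contra h2
          apply hA
          rw [hout (-j) (by omega), hout (n - j) (by omega)]
      refine (Set.ncard_le_ncard hsub (Finset.finite_toSet _)).trans ?_
      rw [Set.ncard_coe_finset]
      refine (Finset.card_union_le _ _).trans ?_
      exact add_le_add Finset.card_image_le Finset.card_image_le
    · -- the wall is periodic
      have hmaps : ∀ m ∈ {m : ℤ | ¬ (g ^ m • x ∈ h ↔ g ^ (m + 1) • x ∈ h)},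
          g ^ (-m) • h ∈ Sep 𝒲 x (g • x) := fun m hm => hcross h hh.1 m hm
      obtain ⟨a, _, b, _, hab, hab'⟩ := Set.Infinite.exists_ne_map_eq_of_mapsTo hinf hmaps
        (hfin _ _)
      obtain ⟨k, hk, hkh⟩ : ∃ k : ℤ, 0 < k ∧ g ^ k • h = h := by
        have h1 : ∀ a b : ℤ, g ^ (-a) • h = g ^ (-b) • h → g ^ (b - a) • h = h := by
          intro a b h1
          rw [sub_eq_add_neg, zpow_add, mul_smul, h1, ← mul_smul, ← zpow_add, add_neg_cancel,
            zpow_zero, one_smul]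
        rcases lt_or_gt_of_ne hab with h2 | h2
        · exact ⟨b - a, sub_pos.2 h2, h1 a b hab'⟩
        · exact ⟨a - b, sub_pos.2 h2, h1 b a hab'.symm⟩
      have hper : ∀ t : ℤ, g ^ (k * t) • h = h := by
        intro t
        rw [zpow_mul]
        have : g ^ k ∈ MulAction.stabilizer H h := hkh
        exact (MulAction.stabilizer H h).zpow_mem this t
      refine ⟨(Finset.Ico (0 : ℤ) k).card, fun n => ?_⟩
      have hsub : {A | A ∈ Sep 𝒲 x (g ^ n • x) ∧ ∃ j : ℤ, A = g ^ j • h} ⊆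
          ((Finset.Ico (0 : ℤ) k).image fun j => g ^ j • h : Finset (Set Y)) := by
        rintro A ⟨_, j, rfl⟩
        rw [Finset.coe_image]
        refine ⟨j % k, Finset.mem_coe.2 (Finset.mem_Ico.2
          ⟨Int.emod_nonneg _ hk.ne', Int.emod_lt_of_pos _ hk⟩), ?_⟩
        dsimp only
        conv_rhs => rw [← Int.emod_add_mul_ediv j k, zpow_add, mul_smul, hper]
      refine (Set.ncard_le_ncard hsub (Finset.finite_toSet _)).trans ?_
      rw [Set.ncard_coe_finset]
      exact Finset.card_image_le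
  choose! B hB using horb
  refine ⟨∑ h ∈ (hfin x (g • x)).toFinset, B h, fun n => ?_⟩
  have hsub : Sep 𝒲 x (g ^ n • x) ⊆ ⋃ h ∈ (hfin x (g • x)).toFinset,
      {A | A ∈ Sep 𝒲 x (g ^ n • x) ∧ ∃ j : ℤ, A = g ^ j • h} := by
    intro A hA
    -- a crossing
    obtain ⟨m, hm⟩ : ∃ m : ℕ, ¬ (g ^ (m : ℤ) • x ∈ A ↔ g ^ ((m : ℤ) + 1) • x ∈ A) := by
      by_contra hcon
      push Not at hcon
      have h1 : ∀ m : ℕ, (x ∈ A ↔ g ^ (m : ℤ) • x ∈ A) := by
        intro m
        induction m with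
        | zero => simp
        | succ m ih =>
          rw [ih, hcon m]
          push_cast
          rfl
      apply hA.2
      have h2 := h1 n
      rwa [zpow_natCast] at h2
    have h1 := hcross A hA.1 m hm
    refine Set.mem_biUnion (x := g ^ (-(m : ℤ)) • A)
      (Finset.mem_coe.2 ((Set.Finite.mem_toFinset _).2 h1)) ⟨hA, m, ?_⟩
    rw [← mul_smul, ← zpow_add, add_neg_cancel, zpow_zero, one_smul]
  have hfin' : ∀ h ∈ (hfin x (g • x)).toFinset,
      {A | A ∈ Sep 𝒲 x (g ^ n • x) ∧ ∃ j : ℤ, A = g ^ j • h}.Finite := fun h _ =>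
    (hfin x (g ^ n • x)).subset fun A hA => hA.1
  refine (Set.ncard_le_ncard hsub (Set.Finite.biUnion (Finset.finite_toSet _) hfin')).trans ?_
  refine (Finset.set_ncard_biUnion_le _ _).trans ?_
  exact Finset.sum_le_sum fun h hh => hB h ((Set.Finite.mem_toFinset _).1 hh) n

/-- Elements with unbounded orbits are undistorted. -/
theorem undistorted (hfin : ∀ x y : Y, (Sep 𝒲 x y).Finite)
    (hinv : ∀ (h : H), ∀ A ∈ 𝒲, h • A ∈ 𝒲)
    (hub : ∀ N : ℕ, ∃ n : ℕ, N < (Sep 𝒲 x (g ^ n • x)).ncard) (n : ℕ) :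
    n ≤ (Sep 𝒲 x (g ^ n • x)).ncard := by
  obtain ⟨h, hh, hs⟩ : ∃ h ∈ 𝒲, Skew g x h := by
    by_contra hcon
    push Not at hcon
    obtain ⟨C, hC⟩ := upper g x hfin hinv hcon
    obtain ⟨n, hn⟩ := hub C
    exact absurd (hC n) (not_le.2 hn)
  obtain ⟨C, hC⟩ := lower g x hfin hinv hh hs
  -- subadditivity
  have hmul : ∀ k : ℕ, (Sep 𝒲 x (g ^ (n * k) • x)).ncard ≤ k * (Sep 𝒲 x (g ^ n • x)).ncard := by
    intro k
    induction k with
    | zero => simp [sep_self]
    | succ k ih =>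
      have h1 := Set.ncard_le_ncard (sep_triangle (𝒲 := 𝒲) x (g ^ n • x) (g ^ (n * (k + 1)) • x))
        ((hfin _ _).union (hfin _ _))
      have h2 := Set.ncard_union_le (Sep 𝒲 x (g ^ n • x))
        (Sep 𝒲 (g ^ n • x) (g ^ (n * (k + 1)) • x))
      have h3 : g ^ (n * (k + 1)) • x = g ^ n • (g ^ (n * k) • x) := by
        rw [← mul_smul, ← pow_add]
        congr 2
        ring
      have h4 := ncard_smul hinv (g ^ n) x (g ^ (n * k) • x)
      rw [← h3] at h4
      rw [h4] at h2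
      calc (Sep 𝒲 x (g ^ (n * (k + 1)) • x)).ncard ≤ _ := h1
        _ ≤ _ := h2
        _ ≤ (k + 1) * (Sep 𝒲 x (g ^ n • x)).ncard := by
          rw [add_mul, one_mul, add_comm]
          exact Nat.add_le_add_right ih _
  by_contra hcon
  push Not at hcon
  have h1 := (hC (n * (C + 1))).trans (Nat.add_le_add_right (hmul (C + 1)) C)
  have h2 : (C + 1) * ((Sep 𝒲 x (g ^ n • x)).ncard + 1) ≤ (C + 1) * n :=
    Nat.mul_le_mul_left _ hcon
  nlinarith

/-- **Elements with unbounded orbits in spaces with walls.** -/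
theorem rc_of_walls (hfin : ∀ x y : Y, (Sep 𝒲 x y).Finite)
    (hinv : ∀ (h : H), ∀ A ∈ 𝒲, h • A ∈ 𝒲)
    (hub : ∀ N : ℕ, ∃ n : ℕ, N < (Sep 𝒲 x (g ^ n • x)).ncard) : RC g := by
  letI := met hfin
  refine Neg.rc_of_negType (act hfin hinv) g x (negType hfin) 1 one_pos fun n => ?_
  rw [one_mul]
  have h1 := undistorted g x hfin hinv hub n
  change (n : ℝ) ≤ ((Sep 𝒲 x (g ^ n • x)).ncard : ℝ)
  exact_mod_cast h1

end action

end Walls

end Pool.Agent.H416
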