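import Pool.Agent.H416.QG
import Pool.Agent.H416.CircOr
import Pool.Agent.H416.Walls
import Pool.Agent.H416.Cat0

/-!
# Classes of groups
-/

set_option autoImplicit false
set_option linter.unusedSectionVars false

namespace Pool.Agent.H416

open Filter Topology
open scoped Pointwise

universe w z

/-- Every finitely generated subgroup `H` of `G` that contains `g` acts by homeomorphisms on the
circle such that the fixed point set of every element of `H` has finitely many boundary points and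
such that `g` acts by a homeomorphism of infinite order. -/
def OnCircle (G : Type w) [Group G] (g : G) : Prop :=
  ∀ (H : Subgroup G) (_ : H.FG) (hg : g ∈ H), ∃ φ : H →* (UnitAddCircle ≃ₜ UnitAddCircle),
    (∀ h, (frontier {x | φ h x = x}).Finite) ∧ ∀ n : ℕ, 0 < n → φ (⟨g, hg⟩ ^ n) ≠ 1

/-- Every finitely generated subgroup `H` of `G` that contains `g` acts by isometries on a metric
space of negative type such that `g` has positive translation length. -/
def OnNegType (G : Type w) [Group G] (g : G) : Prop :=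
  ∀ (H : Subgroup G) (_ : H.FG) (hg : g ∈ H), ∃ (X : Type z) (_ : PseudoMetricSpace X)
    (φ : H →* (X ≃ᵢ X)) (x : X) (c : ℝ), NegType X ∧ 0 < c ∧
    ∀ n : ℕ, c * n ≤ dist x (φ (⟨g, hg⟩ ^ n) x)

/-- Every finitely generated subgroup `H` of `G` that contains `g` acts by isometries on a CAT(0)
space such that `g` has positive translation length. -/
def OnCAT0 (G : Type w) [Group G] (g : G) : Prop :=
  ∀ (H : Subgroup G) (_ : H.FG) (hg : g ∈ H), ∃ (X : Type z) (_ : PseudoMetricSpace X)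
    (φ : H →* (X ≃ᵢ X)) (x : X) (c : ℝ), IsCAT0 X ∧ 0 < c ∧
    ∀ n : ℕ, c * n ≤ dist x (φ (⟨g, hg⟩ ^ n) x)

/-- Every finitely generated subgroup `H` of `G` that contains `g` acts on a space with walls: a set
`Y` with a family `𝒲` of subsets, permuted by `H`, such that any two points are separated by finitely
many members of `𝒲`; and the number of members of `𝒲` which separate `x` and `g ^ n x` is
unbounded. -/
def OnWalls (G : Type w) [Group G] (g : G) : Prop :=
  ∀ (H : Subgroup G) (_ : H.FG) (hg : g ∈ H), ∃ (Y : Type z) (_ : MulAction H Y) (𝒲 : Set (Set Y))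
    (x : Y), (∀ a b : Y, (Sep 𝒲 a b).Finite) ∧ (∀ h : H, ∀ A ∈ 𝒲, h • A ∈ 𝒲) ∧
    ∀ N : ℕ, ∃ n : ℕ, N < (Sep 𝒲 x ((⟨g, hg⟩ : H) ^ n • x)).ncard

namespace Cls

variable {G : Type w} [Group G]

theorem loc_circle {g : G} (h : OnCircle G g) : LocRC g := by
  intro H hH hg
  obtain ⟨φ, h1, h2⟩ := h H hH hg
  exact Circ.rc_of_circle φ h1 _ h2

theorem loc_negType {g : G} (h : OnNegType.{w, z} G g) : LocRC g := by
  intro H hH hg
  obtain ⟨X, _, φ, x, c, h1, h2, h3⟩ := h H hH hg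
  exact Neg.rc_of_negType φ _ x h1 c h2 h3

theorem loc_cat0 {g : G} (h : OnCAT0.{w, z} G g) : LocRC g := by
  intro H hH hg
  obtain ⟨X, _, φ, x, c, h1, h2, h3⟩ := h H hH hg
  exact Cat0.rc_of_cat0 φ _ x h1 c h2 h3

theorem negType_of_walls {g : G} (h : OnWalls.{w, z} G g) : OnNegType.{w, z} G g := by
  intro H hH hg
  obtain ⟨Y, _, 𝒲, x, h1, h2, h3⟩ := h H hH hg
  refine ⟨Y, Walls.met h1, Walls.act h1 h2, x, 1, Walls.negType h1, one_pos, fun n => ?_⟩
  rw [one_mul]
  have h4 := Walls.undistorted (⟨g, hg⟩ : H) x h1 h2 h3 n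
  change (n : ℝ) ≤ ((Sep 𝒲 x ((⟨g, hg⟩ : H) ^ n • x)).ncard : ℝ)
  exact_mod_cast h4

/-- Elements with positive translation length are not conjugate to proper powers. -/
theorem no_power {H : Type*} [Group H] {X : Type*} [PseudoMetricSpace X] (φ : H →* (X ≃ᵢ X))
    (x : X) (c : ℝ) (hc : 0 < c) (g k : H) (m : ℕ) (hm : 2 ≤ m)
    (hd : ∀ n : ℕ, c * n ≤ dist x (φ (g ^ n) x)) (hk : k * g * k⁻¹ = g ^ m) : False := by
  have hmul : ∀ (a b : H) (y : X), φ (a * b) y = φ a (φ b y) := fun a b y => by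
    rw [map_mul]; rfl
  have hone : ∀ y : X, φ 1 y = y := fun y => by rw [map_one]; rfl
  have hiso : ∀ (a : H) (y z : X), dist (φ a y) (φ a z) = dist y z := fun a y z => (φ a).dist_eq y z
  have hpow : ∀ j : ℕ, k ^ j * g * (k ^ j)⁻¹ = g ^ m ^ j := by
    intro j
    induction j with
    | zero => simp
    | succ j ih =>
      have e : k ^ (j + 1) * g * (k ^ (j + 1))⁻¹ = k ^ j * (k * g * k⁻¹) * (k ^ j)⁻¹ := by
        rw [pow_succ]
        group
      rw [e, hk, ← conj_pow, ih, ← pow_mul, pow_succ]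
  set D := dist x (φ k x) with hD
  have hD0 : 0 ≤ D := dist_nonneg
  have hkj : ∀ j : ℕ, dist x (φ (k ^ j) x) ≤ j * D := by
    intro j
    induction j with
    | zero => rw [pow_zero, hone, dist_self]; simp
    | succ j ih =>
      have h1 := dist_triangle x (φ (k ^ j) x) (φ (k ^ (j + 1)) x)
      rw [pow_succ, hmul, hiso, ← hD] at h1
      rw [pow_succ, hmul]
      push_cast
      linarith
  have hbound : ∀ j : ℕ, c * (m ^ j : ℕ) ≤ 2 * j * D + dist x (φ g x) := by
    intro j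
    refine (hd (m ^ j)).trans ?_
    rw [← hpow j]
    have h1 := dist_triangle x (φ (k ^ j) x) (φ (k ^ j * g * (k ^ j)⁻¹) x)
    have h2 := dist_triangle (φ (k ^ j) x) (φ (k ^ j * g) x) (φ (k ^ j * g * (k ^ j)⁻¹) x)
    have h3 : dist (φ (k ^ j) x) (φ (k ^ j * g) x) = dist x (φ g x) := by rw [hmul, hiso]
    have h4 : dist (φ (k ^ j * g) x) (φ (k ^ j * g * (k ^ j)⁻¹) x) = dist x (φ (k ^ j) x) := by
      rw [hmul (k ^ j * g), hiso, ← hiso (k ^ j) x, ← hmul, mul_inv_cancel, hone, dist_comm]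
    have h5 := hkj j
    linarith
  -- growth
  obtain ⟨j, hj⟩ := exists_nat_gt (max 4 ((2 * D + dist x (φ g x)) / c))
  have hj4 : 4 < (j : ℝ) := lt_of_le_of_lt (le_max_left _ _) hj
  have hj4' : 4 < j := by exact_mod_cast hj4
  have h1 : j ^ 2 ≤ 2 ^ j := by
    have : ∀ i : ℕ, (i + 4) ^ 2 ≤ 2 ^ (i + 4) := by
      intro i
      induction i with
      | zero => norm_num
      | succ i ih =>
        have e : 2 ^ (i + 1 + 4) = 2 * 2 ^ (i + 4) := by ring
        rw [e]
        have h2 : (i + 1 + 4) ^ 2 ≤ 2 * (i + 4) ^ 2 := by ring_nf; omega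
        exact h2.trans (Nat.mul_le_mul_left 2 ih)
    have h2 := this (j - 4)
    rwa [Nat.sub_add_cancel hj4'.le] at h2
  have h2 : (j : ℝ) ^ 2 ≤ (m ^ j : ℕ) := by
    have h3 : j ^ 2 ≤ m ^ j := h1.trans (Nat.pow_le_pow_left hm j)
    exact_mod_cast h3
  have h3 := hbound j
  have h4 : (2 * D + dist x (φ g x)) / c < j := lt_of_le_of_lt (le_max_right _ _) hj
  rw [div_lt_iff₀ hc] at h4
  have h5 : 0 ≤ dist x (φ g x) := dist_nonneg
  have h6 : c * (j : ℝ) ^ 2 ≤ c * (m ^ j : ℕ) := mul_le_mul_of_nonneg_left h2 hc.le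
  have h7 : c * (j : ℝ) ^ 2 ≤ j * (2 * D + dist x (φ g x)) := by nlinarith
  nlinarith

theorem conj_pair {g : G} {m : ℕ} (hc : IsConj g (g ^ m)) : ∃ (H : Subgroup G) (_ : H.FG)
    (hg : g ∈ H) (k : H), k * ⟨g, hg⟩ * k⁻¹ = ⟨g, hg⟩ ^ m := by
  classical
  obtain ⟨k, hk⟩ := isConj_iff.1 hc
  refine ⟨Subgroup.closure {g, k}, ⟨{g, k}, by simp⟩, Subgroup.subset_closure (by simp),
    ⟨k, Subgroup.subset_closure (by simp)⟩, ?_⟩
  apply Subtype.ext
  simpa using hk

theorem np_negType (hG : ∀ g : G, g ≠ 1 → OnNegType.{w, z} G g) : QG.NP G := by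
  intro g hg m hm hc
  obtain ⟨H, hH, hgH, k, hk⟩ := conj_pair hc
  obtain ⟨X, _, φ, x, c, _, h2, h3⟩ := hG g hg H hH hgH
  exact no_power φ x c h2 _ k m hm h3 hk

theorem np_cat0 (hG : ∀ g : G, g ≠ 1 → OnCAT0.{w, z} G g) : QG.NP G := by
  intro g hg m hm hc
  obtain ⟨H, hH, hgH, k, hk⟩ := conj_pair hc
  obtain ⟨X, _, φ, x, c, _, h2, h3⟩ := hG g hg H hH hgH
  exact no_power φ x c h2 _ k m hm h3 hk

end Cls

end Pool.Agent.H416
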