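import Mathlib

/-!
# The grading of the dual numbers
-/

set_option autoImplicit false

namespace Pool.Agent.H416.Dual

open TrivSqZeroExt DirectSum

universe u v

variable (K : Type u) [Field K] (R : Type v) [Ring R] [Algebra K R]

/-- The dual numbers over `R`. -/
abbrev DN (R : Type v) := TrivSqZeroExt R R

/-- The grading: `R` in degree zero, the multiples of `ε` in degree one. -/
def gr : ℕ → Submodule K (DN R)
  | 0 => { carrier := {x | x.snd = 0}
           add_mem' := by
             intro a b ha hb
             change (a + b).snd = 0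
             rw [snd_add]
             change a.snd = 0 at ha
             change b.snd = 0 at hb
             rw [ha, hb, add_zero]
           zero_mem' := snd_zero
           smul_mem' := by
             intro c a ha
             change (c • a).snd = 0
             change a.snd = 0 at ha
             rw [snd_smul, ha, smul_zero] }
  | 1 => { carrier := {x | x.fst = 0}
           add_mem' := by
             intro a b ha hb
             change (a + b).fst = 0
             rw [fst_add]
             change a.fst = 0 at ha
             change b.fst = 0 at hb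
             rw [ha, hb, add_zero]
           zero_mem' := fst_zero
           smul_mem' := by
             intro c a ha
             change (c • a).fst = 0
             change a.fst = 0 at ha
             rw [fst_smul, ha, smul_zero] }
  | _ + 2 => ⊥

theorem mem_zero {x : DN R} : x ∈ gr K R 0 ↔ x.snd = 0 := Iff.rfl

theorem mem_one {x : DN R} : x ∈ gr K R 1 ↔ x.fst = 0 := Iff.rfl

theorem mem_two {x : DN R} {n : ℕ} : x ∈ gr K R (n + 2) ↔ x = 0 := Iff.rfl

theorem mul_mem_gr {i j : ℕ} {x y : DN R} (hx : x ∈ gr K R i) (hy : y ∈ gr K R j) :
    x * y ∈ gr K R (i + j) := by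
  match i, j with
  | 0, 0 =>
    rw [mem_zero] at *
    rw [snd_mul, hx, hy]
    simp
  | 0, 1 =>
    rw [zero_add, mem_one]
    rw [mem_one] at hy
    rw [fst_mul, hy, mul_zero]
  | 1, 0 =>
    rw [add_zero, mem_one]
    rw [mem_one] at hx
    rw [fst_mul, hx, zero_mul]
  | 1, 1 =>
    change x * y ∈ gr K R (0 + 2)
    rw [mem_two]
    rw [mem_one] at hx hy
    apply TrivSqZeroExt.ext
    · rw [fst_mul, hx, zero_mul, fst_zero]
    · rw [snd_mul, hx, hy]
      simp
  | i + 2, j =>
    rw [mem_two] at hx
    rw [hx, zero_mul]
    exact Submodule.zero_mem _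
  | i, j + 2 =>
    rw [mem_two] at hy
    rw [hy, mul_zero]
    exact Submodule.zero_mem _

/-- The component of degree zero. -/
def p0 : DN R →+ gr K R 0 where
  toFun x := ⟨inl x.fst, (mem_zero K R).2 (snd_inl R x.fst)⟩
  map_zero' := Subtype.ext (inl_zero R)
  map_add' a b := Subtype.ext (inl_add R a.fst b.fst)

/-- The component of degree one. -/
def p1 : DN R →+ gr K R 1 where
  toFun x := ⟨inr x.snd, (mem_one K R).2 (fst_inr R x.snd)⟩
  map_zero' := Subtype.ext (inr_zero R)
  map_add' a b := Subtype.ext (inr_add R a.snd b.snd)

theorem p0_coe (x : DN R) : ((p0 K R x : gr K R 0) : DN R) = inl x.fst := rfl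

theorem p1_coe (x : DN R) : ((p1 K R x : gr K R 1) : DN R) = inr x.snd := rfl

/-- The decomposition. -/
def dec : DN R →+ ⨁ i, gr K R i :=
  (DirectSum.of (fun i => gr K R i) 0).comp (p0 K R) +
    (DirectSum.of (fun i => gr K R i) 1).comp (p1 K R)

theorem dec_apply (x : DN R) : dec K R x = DirectSum.of (fun i => gr K R i) 0 (p0 K R x) +
    DirectSum.of (fun i => gr K R i) 1 (p1 K R x) := rfl

theorem dec_of : ∀ (i : ℕ) (x : gr K R i), dec K R (x : DN R) = DirectSum.of (fun i => gr K R i) i x
  | 0, x => by
    have hx : (x : DN R).snd = 0 := (mem_zero K R).1 x.2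
    have h0 : p0 K R (x : DN R) = x := by
      apply Subtype.ext
      rw [p0_coe]
      apply TrivSqZeroExt.ext
      · rfl
      · rw [snd_inl, hx]
    have h1 : p1 K R (x : DN R) = 0 := by
      apply Subtype.ext
      rw [p1_coe, hx, inr_zero]
      rfl
    rw [dec_apply, h0, h1, map_zero, add_zero]
  | 1, x => by
    have hx : (x : DN R).fst = 0 := (mem_one K R).1 x.2
    have h0 : p0 K R (x : DN R) = 0 := by
      apply Subtype.ext
      rw [p0_coe, hx, inl_zero]
      rfl
    have h1 : p1 K R (x : DN R) = x := by
      apply Subtype.ext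
      rw [p1_coe]
      apply TrivSqZeroExt.ext
      · rw [fst_inr, hx]
      · rfl
    rw [dec_apply, h0, h1, map_zero, zero_add]
  | i + 2, x => by
    have hx : (x : DN R) = 0 := (mem_two K R).1 x.2
    have hx2 : x = 0 := Subtype.ext hx
    rw [hx, map_zero, hx2, map_zero]

noncomputable instance : GradedAlgebra (gr K R) where
  one_mem := snd_one
  mul_mem := fun i j x y hx hy => mul_mem_gr K R hx hy
  decompose' := dec K R
  left_inv := by
    intro x
    rw [dec_apply, map_add, DirectSum.coeAddMonoidHom_of, DirectSum.coeAddMonoidHom_of, p0_coe,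
      p1_coe]
    exact inl_fst_add_inr_snd_eq x
  right_inv := by
    intro x
    induction x using DirectSum.induction_on with
    | zero => rw [map_zero, map_zero]
    | of i x =>
      rw [DirectSum.coeAddMonoidHom_of]
      exact dec_of K R i x
    | add x y hx hy => rw [map_add, map_add, hx, hy]

end Pool.Agent.H416.Dual
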