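import Pool.Agent.H416.TR
import Pool.Graph.R_seed8.H26R2.Bass.Main

/-!
# Good elements
-/

set_option autoImplicit false

namespace Pool.Agent.H416

open Pool.Agent.H26R2.Bass (Good)

universe u v

/-- An element of infinite order in the abelianisation of its centraliser is good over the domains of
characteristic zero. -/
theorem RC.good (R : Type u) [CommRing R] [IsDomain R] [CharZero R] {G : Type v} [Group G] {g : G}
    (hg : RC g) : Good R g := by
  obtain ⟨l, hl, hlg⟩ := hg
  have hR : CharZero (FractionRing R) :=
    charZero_of_injective_algebraMap (IsFractionRing.injective R (FractionRing R))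
  have hone : l 1 = 0 := by
    have h := hl 1 1 (by simp) (by simp)
    rw [mul_one] at h
    linarith
  left
  refine ⟨{ toFun := fun x => Multiplicative.ofAdd ((l x : ℚ) : FractionRing R)
            map_one' := by
              change Multiplicative.ofAdd ((l 1 : ℚ) : FractionRing R) = 1
              rw [hone, Rat.cast_zero]
              rfl
            map_mul' := fun a b => by
              have ha := Subgroup.mem_centralizer_singleton_iff.1 a.2
              have hb := Subgroup.mem_centralizer_singleton_iff.1 b.2
              change Multiplicative.ofAdd ((l (a * b) : ℚ) : FractionRing R) = _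
              rw [hl _ _ ha hb, Rat.cast_add]
              rfl }, ⟨g, Subgroup.mem_centralizer_singleton_iff.2 rfl⟩, rfl, ?_⟩
  intro h
  have h1 : ((l g : ℚ) : FractionRing R) = 0 := h
  rw [hlg, Rat.cast_one] at h1
  exact one_ne_zero h1

end Pool.Agent.H416
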