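import Mathlib

/-!
# Cyclic homology of a simplex: the operator `B` is null-homotopic on invariant cochains

Cochains are functions `F : List S → ℚ`; `ds` is the simplicial coboundary, `sN` the norm operator of
the signed rotations, `cs` the insertion of the first vertex at the end.
-/

set_option autoImplicit false

namespace Pool.Agent.H416.HC

open Finset

universe u v

variable {S : Type u} {S' : Type v}

/-- The alternating sum over the lists in which one entry is omitted. -/
def ds : (List S → ℚ) → List S → ℚ
  | _, [] => 0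
  | F, x :: l => F l - ds (fun m => F (x :: m)) l

/-- The same without the list in which the first entry is omitted. -/
def dp (F : List S → ℚ) : List S → ℚ
  | [] => 0
  | x :: l => - ds (fun m => F (x :: m)) l

/-- The signed rotation. -/
def tS (F : List S → ℚ) (l : List S) : ℚ := (-1) ^ (l.length + 1) * F (l.rotate 1)

/-- The norm operator. -/
def sN (F : List S → ℚ) (l : List S) : ℚ :=
  ∑ j ∈ range l.length, (-1) ^ ((l.length + 1) * j) * F (l.rotate j)

/-- Insertion of the first vertex at the end. -/
def cs (F : List S → ℚ) (l : List S) : ℚ := F (l ++ l.take 1)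

@[simp] theorem ds_nil (F : List S → ℚ) : ds F [] = 0 := rfl

theorem ds_cons (F : List S → ℚ) (x : S) (l : List S) :
    ds F (x :: l) = F l - ds (fun m => F (x :: m)) l := rfl

theorem ds_congr {F G : List S → ℚ} (l : List S) (h : ∀ m, m.length + 1 = l.length → F m = G m) :
    ds F l = ds G l := by
  induction l generalizing F G with
  | nil => rfl
  | cons x l ih =>
    rw [ds_cons, ds_cons, h l (by simp)]
    congr 1
    apply ih
    intro m hm
    exact h _ (by simp; omega)

theorem ds_zero (l : List S) : ds (fun _ => 0) l = 0 := by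
  induction l with
  | nil => rfl
  | cons x l ih => rw [ds_cons, ih, sub_zero]

theorem ds_add (F G : List S → ℚ) (l : List S) : ds (fun m => F m + G m) l = ds F l + ds G l := by
  induction l generalizing F G with
  | nil => simp
  | cons x l ih =>
    rw [ds_cons, ds_cons, ds_cons, ih (fun m => F (x :: m)) (fun m => G (x :: m))]
    ring

theorem ds_mul (c : ℚ) (F : List S → ℚ) (l : List S) : ds (fun m => c * F m) l = c * ds F l := by
  induction l generalizing F with
  | nil => simp
  | cons x l ih =>
    rw [ds_cons, ds_cons, ih (fun m => F (x :: m))]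
    ring

theorem ds_sub (F G : List S → ℚ) (l : List S) : ds (fun m => F m - G m) l = ds F l - ds G l := by
  have h1 : (fun m => F m - G m) = fun m => F m + (-1) * G m := by
    funext m
    ring
  rw [h1, ds_add F (fun m => (-1) * G m), ds_mul]
  ring

theorem ds_append (F : List S → ℚ) (m : List S) (x : S) :
    ds F (m ++ [x]) = ds (fun k => F (k ++ [x])) m + (-1) ^ m.length * F m := by
  induction m generalizing F with
  | nil =>
    rw [List.nil_append, ds_cons]
    simp
  | cons y m ih =>
    rw [List.cons_append, ds_cons, ih (fun k => F (y :: k)), ds_cons, List.length_cons, pow_succ]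
    simp only [List.cons_append]
    ring

theorem ds_ds (F : List S → ℚ) (l : List S) : ds (ds F) l = 0 := by
  induction l generalizing F with
  | nil => rfl
  | cons x l ih =>
    have h1 : (fun m => ds F (x :: m)) = fun m => F m - ds (fun k => F (x :: k)) m := by
      funext m
      rw [ds_cons]
    rw [ds_cons, h1, ds_sub, ih, sub_zero, sub_self]

theorem ds_eq_sum (F : List S → ℚ) (l : List S) :
    ds F l = ∑ j ∈ range l.length, (-1) ^ j * F (l.eraseIdx j) := by
  induction l generalizing F with
  | nil => simp
  | cons x l ih =>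
    rw [ds_cons, ih, List.length_cons, sum_range_succ', add_comm, sub_eq_add_neg]
    congr 1
    · simp
    · rw [← sum_neg_distrib]
      refine sum_congr rfl fun j _ => ?_
      rw [List.eraseIdx_cons_succ, pow_succ]
      ring

theorem ds_map (φ : S → S') (F : List S' → ℚ) (l : List S) :
    ds F (l.map φ) = ds (fun m => F (m.map φ)) l := by
  induction l generalizing F with
  | nil => rfl
  | cons x l ih =>
    rw [List.map_cons, ds_cons, ih, ds_cons]
    simp only [List.map_cons]

theorem dp_eq (F : List S → ℚ) (l : List S) (hl : l ≠ []) : dp F l = ds F l - F l.tail := by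
  cases l with
  | nil => exact absurd rfl hl
  | cons x l =>
    change - ds (fun m => F (x :: m)) l = ds F (x :: l) - F l
    rw [ds_cons]
    ring

theorem dp_congr {F G : List S → ℚ} (l : List S) (h : ∀ m, m.length + 1 = l.length → F m = G m) :
    dp F l = dp G l := by
  cases l with
  | nil => rfl
  | cons x l =>
    change - _ = - _
    congr 1
    apply ds_congr
    intro m hm
    exact h _ (by simp; omega)

theorem dp_add (F G : List S → ℚ) (l : List S) : dp (fun m => F m + G m) l = dp F l + dp G l := by
  cases l with
  | nil => change (0 : ℚ) = 0 + 0; ring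
  | cons x l =>
    change - ds (fun m => F (x :: m) + G (x :: m)) l = - _ + - _
    rw [ds_add (fun m => F (x :: m)) (fun m => G (x :: m))]
    ring

theorem dp_mul (c : ℚ) (F : List S → ℚ) (l : List S) : dp (fun m => c * F m) l = c * dp F l := by
  cases l with
  | nil => change (0 : ℚ) = c * 0; ring
  | cons x l =>
    change - ds (fun m => c * F (x :: m)) l = c * - _
    rw [ds_mul c (fun m => F (x :: m))]
    ring

theorem tS_cons (F : List S → ℚ) (x : S) (l : List S) :
    tS F (x :: l) = (-1) ^ l.length * F (l ++ [x]) := by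
  unfold tS
  rw [List.rotate_cons_succ, List.rotate_zero, List.length_cons, pow_succ, pow_succ]
  ring

/-- `b' (1 - t) = (1 - t) b`. -/
theorem dp_one_sub (F : List S → ℚ) (l : List S) :
    dp (fun m => F m - tS F m) l = ds F l - tS (ds F) l := by
  cases l with
  | nil =>
    change (0 : ℚ) = ds F [] - tS (ds F) []
    unfold tS
    simp
  | cons x l =>
    change - ds (fun m => F (x :: m) - tS F (x :: m)) l = _
    rw [tS_cons, ds_append, ds_cons]
    have h1 : ds (fun m => F (x :: m) - tS F (x :: m)) l =
        ds (fun m => F (x :: m)) l - (-1) ^ (l.length + 1) * ds (fun m => F (m ++ [x])) l := by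
      rw [← ds_mul ((-1) ^ (l.length + 1)) (fun m => F (m ++ [x])), ← ds_sub]
      apply ds_congr
      intro m hm
      rw [tS_cons]
      have h2 : ((-1 : ℚ)) ^ (l.length + 1) = (-1) ^ m.length := by
        rw [← hm, pow_succ, pow_succ]
        ring
      rw [h2]
    rw [h1, pow_succ]
    have h3 : ((-1 : ℚ) ^ l.length) * (-1) ^ l.length = 1 := by
      rw [← mul_pow]
      norm_num
    linear_combination (F l) * h3

theorem sN_add (F G : List S → ℚ) (l : List S) : sN (fun m => F m + G m) l = sN F l + sN G l := by
  unfold sN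
  rw [← sum_add_distrib]
  exact sum_congr rfl fun j _ => by ring

theorem sN_mul (c : ℚ) (F : List S → ℚ) (l : List S) : sN (fun m => c * F m) l = c * sN F l := by
  unfold sN
  rw [mul_sum]
  exact sum_congr rfl fun j _ => by ring

theorem sN_sub (F G : List S → ℚ) (l : List S) : sN (fun m => F m - G m) l = sN F l - sN G l := by
  unfold sN
  rw [← sum_sub_distrib]
  exact sum_congr rfl fun j _ => by ring

theorem sN_congr {F G : List S → ℚ} (l : List S) (h : ∀ m, m.length = l.length → F m = G m) :
    sN F l = sN G l := by
  unfold sN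
  exact sum_congr rfl fun j _ => by rw [h _ (List.length_rotate _ _)]

theorem neg_one_sq_pow (n : ℕ) : ((-1 : ℚ)) ^ ((n + 1) * n) = 1 := by
  have h : Even ((n + 1) * n) := by
    rw [mul_comm]
    exact Nat.even_mul_succ_self n
  exact h.neg_one_pow

/-- `N (1 - t) = 0`. -/
theorem sN_one_sub (F : List S → ℚ) (l : List S) : sN (fun m => F m - tS F m) l = 0 := by
  unfold sN
  have h1 : ∀ j, (-1 : ℚ) ^ ((l.length + 1) * j) * (F (l.rotate j) - tS F (l.rotate j)) =
      (-1 : ℚ) ^ ((l.length + 1) * j) * F (l.rotate j) -
        (-1 : ℚ) ^ ((l.length + 1) * (j + 1)) * F (l.rotate (j + 1)) := by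
    intro j
    unfold tS
    rw [List.length_rotate, List.rotate_rotate, mul_add (l.length + 1) j 1, mul_one, pow_add]
    ring
  rw [sum_congr rfl fun j _ => h1 j,
    sum_range_sub' (fun j => (-1 : ℚ) ^ ((l.length + 1) * j) * F (l.rotate j)), List.rotate_length,
    neg_one_sq_pow]
  simp

theorem tS_sN (F : List S → ℚ) (l : List S) : tS (sN F) l = sN F l := by
  have h := sN_one_sub F l
  rw [sN_sub] at h
  have h1 : sN (tS F) l = tS (sN F) l := by
    unfold tS sN
    rw [mul_sum, List.length_rotate]
    refine sum_congr rfl fun j _ => ?_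
    beta_reduce
    rw [List.length_rotate, List.rotate_rotate, List.rotate_rotate, add_comm 1 j]
    ring
  rw [← h1]
  linarith

/-- Invariant functions under iterated rotations. -/
theorem inv_rotate {G : List S → ℚ} (l : List S)
    (h : ∀ m, m.length = l.length → tS G m = G m) (j : ℕ) :
    G (l.rotate j) = (-1) ^ ((l.length + 1) * j) * G l := by
  induction j with
  | zero => simp
  | succ j ih =>
    have h1 := h (l.rotate j) (List.length_rotate _ _)
    unfold tS at h1
    rw [List.length_rotate, List.rotate_rotate, ih] at h1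
    have h3 : ((-1 : ℚ) ^ (l.length + 1)) * (-1) ^ (l.length + 1) = 1 := by
      rw [← mul_pow]
      norm_num
    rw [mul_add (l.length + 1) j 1, mul_one, pow_add]
    calc G (l.rotate (j + 1)) = ((-1 : ℚ) ^ (l.length + 1)) *
          ((-1) ^ (l.length + 1) * G (l.rotate (j + 1))) := by
            rw [← mul_assoc, h3, one_mul]
      _ = _ := by rw [h1]; ring

theorem sN_inv {G : List S → ℚ} (l : List S) (h : ∀ m, m.length = l.length → tS G m = G m) :
    sN G l = l.length * G l := by
  unfold sN
  have h1 : ∀ j ∈ range l.length, (-1 : ℚ) ^ ((l.length + 1) * j) * G (l.rotate j) = G l := by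
    intro j _
    rw [inv_rotate l h, ← mul_assoc, ← mul_pow]
    norm_num
  rw [sum_congr rfl h1, sum_const, card_range, nsmul_eq_mul]

theorem ds_inv {G : List S → ℚ} (l : List S) (h : ∀ m, m.length + 1 = l.length → tS G m = G m) :
    tS (ds G) l = ds G l := by
  have h1 := dp_one_sub G l
  have h2 : dp (fun m => G m - tS G m) l = dp (fun _ => 0) l := by
    apply dp_congr
    intro m hm
    rw [h m hm, sub_self]
  have h3 : dp (fun _ : List S => (0 : ℚ)) l = 0 := by
    cases l with
    | nil => rfl
    | cons x l =>
      change - ds (fun _ => 0) l = 0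
      rw [ds_zero, neg_zero]
  rw [h2, h3] at h1
  linarith

theorem tail_rotate (l : List S) (j : ℕ) (hj : j < l.length) :
    (l.rotate j).tail = (l.eraseIdx j).rotate j := by
  have h1 : (l.take j).length = j := by
    rw [List.length_take]
    omega
  rw [List.rotate_eq_drop_append_take hj.le, List.eraseIdx_eq_take_drop_succ]
  have h2 : l.drop j = l[j] :: l.drop (j + 1) := (List.getElem_cons_drop hj).symm
  rw [h2, List.cons_append, List.tail_cons, List.rotate_eq_drop_append_take (by
    rw [List.length_append, h1]; omega)]
  rw [List.drop_left' h1, List.take_left' h1]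

theorem sN_dp_inv {G : List S → ℚ} (l : List S) (hl : l ≠ [])
    (h : ∀ m, m.length + 1 = l.length → tS G m = G m) :
    sN (dp G) l = (l.length - 1) * ds G l := by
  have h1 : sN (dp G) l = sN (fun m => ds G m - G m.tail) l := by
    apply sN_congr
    intro m hm
    apply dp_eq
    intro h0
    apply hl
    rw [← List.length_eq_zero_iff, ← hm, h0, List.length_nil]
  have h2 : sN (fun m => G m.tail) l = ds G l := by
    rw [ds_eq_sum]
    unfold sN
    refine sum_congr rfl fun j hj => ?_
    have hj' := mem_range.1 hj
    have hlen : (l.eraseIdx j).length + 1 = l.length := by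
      rw [List.length_eraseIdx_of_lt hj']
      omega
    change _ * G (l.rotate j).tail = _
    rw [tail_rotate l j hj', inv_rotate (l.eraseIdx j) (fun m hm => h m (by rw [hm, hlen])), hlen,
      ← mul_assoc, ← pow_add]
    congr 1
    have e : (l.length + 1) * j + l.length * j = 2 * (l.length * j) + j := by ring
    rw [e, pow_add, pow_mul]
    norm_num
  rw [h1, sN_sub (ds G) (fun m => G m.tail), h2, sN_inv l (fun m hm => ds_inv m (fun k hk => h k
    (by rw [hk, hm])))]
  ring

/-- The decomposition of a function as the sum of its average and a function `(1 - t) Q`. -/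
theorem decomp (F : List S → ℚ) : ∃ Q : List S → ℚ, ∀ l : List S, l ≠ [] →
    F l = (1 / l.length) * sN F l + (Q l - tS Q l) := by
  refine ⟨fun l => (1 / l.length) * ∑ k ∈ range l.length, ∑ i ∈ range k,
    (-1) ^ ((l.length + 1) * i) * F (l.rotate i), fun l hl => ?_⟩
  have hn : (l.length : ℚ) ≠ 0 := by
    have : l.length ≠ 0 := fun h => hl (List.length_eq_zero_iff.1 h)
    exact_mod_cast this
  unfold tS
  simp only [List.length_rotate, List.rotate_rotate]
  unfold sN
  have h1 : ∀ k, ∑ i ∈ range k, (-1 : ℚ) ^ ((l.length + 1) * i) * F (l.rotate i) -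
      (-1) ^ (l.length + 1) * ∑ i ∈ range k, (-1 : ℚ) ^ ((l.length + 1) * i) *
        F (l.rotate (1 + i)) = F l - (-1) ^ ((l.length + 1) * k) * F (l.rotate k) := by
    intro k
    rw [mul_sum, ← sum_sub_distrib]
    have h2 : ∀ i, (-1 : ℚ) ^ ((l.length + 1) * i) * F (l.rotate i) - (-1) ^ (l.length + 1) *
        ((-1 : ℚ) ^ ((l.length + 1) * i) * F (l.rotate (1 + i))) =
        (-1 : ℚ) ^ ((l.length + 1) * i) * F (l.rotate i) -
          (-1 : ℚ) ^ ((l.length + 1) * (i + 1)) * F (l.rotate (i + 1)) := by
      intro i
      rw [add_comm 1 i, mul_add (l.length + 1) i 1, mul_one, pow_add]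
      ring
    rw [sum_congr rfl fun i _ => h2 i,
      sum_range_sub' (fun i => (-1 : ℚ) ^ ((l.length + 1) * i) * F (l.rotate i))]
    simp
  have h3 : (1 / (l.length : ℚ)) * ∑ k ∈ range l.length, ∑ i ∈ range k,
        (-1 : ℚ) ^ ((l.length + 1) * i) * F (l.rotate i) - (-1) ^ (l.length + 1) *
        ((1 / (l.length : ℚ)) * ∑ k ∈ range l.length, ∑ i ∈ range k,
        (-1 : ℚ) ^ ((l.length + 1) * i) * F (l.rotate (1 + i))) =
      (1 / (l.length : ℚ)) * ∑ k ∈ range l.length,
        (F l - (-1) ^ ((l.length + 1) * k) * F (l.rotate k)) := by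
    rw [← sum_congr rfl fun k _ => h1 k, sum_sub_distrib, ← mul_sum]
    ring
  rw [h3, sum_sub_distrib, sum_const, card_range, nsmul_eq_mul]
  field_simp
  ring

/-- `b N = N b'`. -/
theorem ds_sN (F : List S → ℚ) (l : List S) : ds (sN F) l = sN (dp F) l := by
  by_cases hl : l = []
  · subst hl
    simp [sN]
  by_cases hl1 : l.length = 1
  · obtain ⟨x, rfl⟩ := List.length_eq_one_iff.1 hl1
    simp [sN, ds_cons, dp]
  have hlen : 2 ≤ l.length := by
    have : l.length ≠ 0 := fun h => hl (List.length_eq_zero_iff.1 h)
    omega
  obtain ⟨Q, hQ⟩ := decomp F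
  have h1 : sN (dp F) l = sN (dp fun m => (1 / ((l.length : ℚ) - 1)) * sN F m + (Q m - tS Q m)) l := by
    apply sN_congr
    intro m hm
    apply dp_congr
    intro k hk
    have hk0 : k ≠ [] := by
      intro h0
      rw [h0, List.length_nil] at hk
      omega
    rw [hQ k hk0]
    congr 3
    rw [← hm, ← hk]
    push_cast
    ring
  have h2 : sN (dp fun m => (1 / ((l.length : ℚ) - 1)) * sN F m + (Q m - tS Q m)) l =
      (1 / ((l.length : ℚ) - 1)) * sN (dp (sN F)) l := by
    have e1 : (dp fun m => (1 / ((l.length : ℚ) - 1)) * sN F m + (Q m - tS Q m)) =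
        fun m => (1 / ((l.length : ℚ) - 1)) * dp (sN F) m + (ds Q m - tS (ds Q) m) := by
      funext m
      rw [dp_add (fun m => (1 / ((l.length : ℚ) - 1)) * sN F m) (fun m => Q m - tS Q m), dp_mul,
        dp_one_sub]
    rw [e1, sN_add (fun m => (1 / ((l.length : ℚ) - 1)) * dp (sN F) m)
      (fun m => ds Q m - tS (ds Q) m), sN_one_sub, add_zero, sN_mul]
  rw [h1, h2, sN_dp_inv l hl (fun m _ => tS_sN F m), ← mul_assoc]
  have h3 : (l.length : ℚ) - 1 ≠ 0 := by
    have : (2 : ℚ) ≤ l.length := by exact_mod_cast hlen
    linarith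
  rw [one_div_mul_cancel h3, one_mul]

theorem cs_cons (F : List S → ℚ) (x : S) (l : List S) : cs F (x :: l) = F (x :: (l ++ [x])) := by
  unfold cs
  simp

/-- `B b = b B`. -/
theorem sN_cs_ds (H : List S → ℚ) (l : List S) : sN (cs (ds H)) l = ds (sN (cs H)) l := by
  rw [ds_sN]
  have h1 : ∀ m : List S, m ≠ [] →
      cs (ds H) m = (-((-1) ^ (m.length + 1))) * (H m - tS H m) + dp (cs H) m := by
    intro m hm
    cases m with
    | nil => exact absurd rfl hm
    | cons x m =>
      rw [cs_cons, ds_cons, ds_append]
      change _ = _ + - ds (fun k => cs H (x :: k)) m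
      have h2 : (fun k => cs H (x :: k)) = fun k => H (x :: (k ++ [x])) := by
        funext k
        rw [cs_cons]
      rw [h2, tS_cons, List.length_cons]
      have h3 : ((-1 : ℚ) ^ m.length) * (-1) ^ m.length = 1 := by
        rw [← mul_pow]
        norm_num
      rw [pow_succ, pow_succ]
      linear_combination (-(H (m ++ [x]))) * h3
  by_cases hl : l = []
  · subst hl
    simp [sN]
  have h4 : sN (cs (ds H)) l =
      sN (fun m => (-((-1) ^ (l.length + 1))) * (H m - tS H m) + dp (cs H) m) l := by
    apply sN_congr
    intro m hm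
    rw [h1 m (by
      intro h0
      apply hl
      rw [← List.length_eq_zero_iff, ← hm, h0, List.length_nil]), hm]
  rw [h4, sN_add (fun m => (-((-1) ^ (l.length + 1))) * (H m - tS H m)) (dp (cs H)),
    sN_mul, sN_one_sub, mul_zero, zero_add]

/-- The homotopy. -/
def hY : ℕ → (List S → ℚ) → List S → ℚ
  | 0, _, _ => 0
  | n + 1, F, l => (1 / (n + 1)) *
      (l.map fun a => sN (cs fun m => F (a :: m)) l - ds (hY n fun m => F (a :: m)) l).sum

theorem list_sum_sub {A : Type*} (l : List A) (f g : A → ℚ) :
    (l.map fun a => f a - g a).sum = (l.map f).sum - (l.map g).sum := by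
  induction l with
  | nil => simp
  | cons x l ih =>
    rw [List.map_cons, List.sum_cons, ih, List.map_cons, List.sum_cons, List.map_cons,
      List.sum_cons]
    ring

theorem cs_sub (F G : List S → ℚ) : cs (fun m => F m - G m) = fun m => cs F m - cs G m := rfl

theorem hY_sub (n : ℕ) (F G : List S → ℚ) (l : List S) :
    hY n (fun m => F m - G m) l = hY n F l - hY n G l := by
  induction n generalizing F G l with
  | zero => change (0 : ℚ) = 0 - 0; ring
  | succ n ih =>
    change (1 / ((n : ℚ) + 1)) * _ = (1 / ((n : ℚ) + 1)) * _ - (1 / ((n : ℚ) + 1)) * _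
    rw [← mul_sub, ← list_sum_sub]
    congr 3
    funext a
    rw [cs_sub (fun m => F (a :: m)) (fun m => G (a :: m)), sN_sub]
    have h1 : (hY n fun m => F (a :: m) - G (a :: m)) =
        fun k => hY n (fun m => F (a :: m)) k - hY n (fun m => G (a :: m)) k := by
      funext k
      exact ih _ _ _
    rw [h1, ds_sub]
    ring

theorem hY_zero (n : ℕ) (l : List S) : hY n (fun _ => 0) l = 0 := by
  have h := hY_sub n (fun _ : List S => (0 : ℚ)) (fun _ => 0) l
  simp only [sub_self] at h
  exact h

/-- The operator `B` is null-homotopic. -/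
theorem homotopy (n : ℕ) (H : List S → ℚ) (l : List S) (hl : l.length = n) :
    sN (cs H) l = hY n (ds H) l + ds (hY (n - 1) H) l := by
  induction n generalizing H l with
  | zero =>
    rw [List.length_eq_zero_iff.1 hl]
    simp [sN, hY]
  | succ n ih =>
    rw [Nat.add_sub_cancel]
    have hn : ((n : ℚ) + 1) ≠ 0 := by positivity
    have key : ∀ a, sN (cs fun m => ds H (a :: m)) l - ds (hY n fun m => ds H (a :: m)) l =
        sN (cs H) l - ds (hY n H) l := by
      intro a
      have e1 : (fun m => ds H (a :: m)) = fun m => H m - ds (fun k => H (a :: k)) m := by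
        funext m
        rw [ds_cons]
      rw [e1, cs_sub H (ds fun k => H (a :: k)), sN_sub]
      have e2 : (hY n fun m => H m - ds (fun k => H (a :: k)) m) =
          fun k => hY n H k - hY n (ds fun k => H (a :: k)) k := by
        funext k
        exact hY_sub n _ _ _
      rw [e2, ds_sub]
      have e3 : sN (cs (ds fun k => H (a :: k))) l = ds (hY n (ds fun k => H (a :: k))) l := by
        rw [sN_cs_ds]
        have e4 : ds (sN (cs fun k => H (a :: k))) l =
            ds (fun k => hY n (ds fun k => H (a :: k)) k +
              ds (hY (n - 1) fun k => H (a :: k)) k) l := by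
          apply ds_congr
          intro m hm
          exact ih _ m (by omega)
        rw [e4, ds_add, ds_ds, add_zero]
      change sN (cs H) l - sN (cs (ds fun k => H (a :: k))) l - _ = _
      rw [e3]
      ring
    change _ = (1 / ((n : ℚ) + 1)) * _ + _
    rw [List.map_congr_left (fun a _ => key a)]
    rw [List.map_const', List.sum_replicate, hl, nsmul_eq_mul]
    push_cast
    field_simp
    ring

theorem hY_cyc (n : ℕ) (F : List S → ℚ) (l : List S) (hl : l.length = n) :
    tS (hY n F) l = hY n F l := by
  induction n generalizing F l with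
  | zero => unfold tS; change _ * (0 : ℚ) = 0; rw [mul_zero]
  | succ n ih =>
    have h1 : ∀ a, tS (fun k => sN (cs fun m => F (a :: m)) k -
        ds (hY n fun m => F (a :: m)) k) l = sN (cs fun m => F (a :: m)) l -
          ds (hY n fun m => F (a :: m)) l := by
      intro a
      have e1 := tS_sN (cs fun m => F (a :: m)) l
      have e2 := ds_inv (G := hY n fun m => F (a :: m)) l (fun m hm => ih _ m (by omega))
      unfold tS at e1 e2 ⊢
      rw [mul_sub, e1, e2]
    have h2 : tS (hY (n + 1) F) l = (1 / ((n : ℚ) + 1)) * (l.map fun a =>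
        tS (fun k => sN (cs fun m => F (a :: m)) k - ds (hY n fun m => F (a :: m)) k) l).sum := by
      unfold tS
      rw [List.sum_map_mul_left, ← ((List.rotate_perm l 1).map (fun a =>
        sN (cs fun m => F (a :: m)) (l.rotate 1) -
          ds (hY n fun m => F (a :: m)) (l.rotate 1))).sum_eq]
      change (-1) ^ (l.length + 1) * ((1 / ((n : ℚ) + 1)) * ((l.rotate 1).map _).sum) = _
      ring
    rw [h2, List.map_congr_left (fun a _ => h1 a)]
    rfl

theorem sN_map (φ : S → S') (F : List S' → ℚ) (l : List S) :
    sN F (l.map φ) = sN (fun m => F (m.map φ)) l := by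
  unfold sN
  rw [List.length_map]
  refine sum_congr rfl fun j _ => ?_
  beta_reduce
  rw [List.map_rotate]

theorem hY_map (n : ℕ) (φ : S → S') (F : List S' → ℚ) (l : List S) :
    hY n F (l.map φ) = hY n (fun m => F (m.map φ)) l := by
  induction n generalizing F l with
  | zero => rfl
  | succ n ih =>
    change (1 / ((n : ℚ) + 1)) * _ = (1 / ((n : ℚ) + 1)) * _
    congr 1
    rw [List.map_map]
    congr 2
    funext a
    change sN (cs fun m => F (φ a :: m)) (l.map φ) - ds (hY n fun m => F (φ a :: m)) (l.map φ) = _
    rw [sN_map, ds_map]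
    congr 1
    · congr 1
      funext m
      unfold cs
      beta_reduce
      rw [List.map_cons, List.map_append, List.map_take]
    · congr 1
      funext m
      exact ih _ _

end Pool.Agent.H416.HC
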