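import Pool.Agent.H416.HCa
import Pool.Graph.R_pool_sql_team_seeded_843ab51a.V11187.DG.AlgE

/-!
# Forms on differential graded rings, homomorphisms to the elements of degree zero, cyclic cycles
-/

set_option autoImplicit false
set_option linter.unusedSectionVars false

namespace Pool.Agent.H416.HC

open Finset
open Pool.Agent.V11187.DG (FormE)

universe u v

/-- Group valued version of `ds`. -/
def da {S : Type*} {A : Type*} [AddCommGroup A] : (List S → A) → List S → A
  | _, [] => 0
  | F, x :: l => F l - da (fun m => F (x :: m)) l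

theorem da_cons {S : Type*} {A : Type*} [AddCommGroup A] (F : List S → A) (x : S) (l : List S) :
    da F (x :: l) = F l - da (fun m => F (x :: m)) l := rfl

theorem da_map {S : Type*} {A : Type*} [AddCommGroup A] {A' : Type*} [AddCommGroup A']
    (g : A →+ A') (F : List S → A) (l : List S) : da (fun m => g (F m)) l = g (da F l) := by
  induction l generalizing F with
  | nil => exact (map_zero g).symm
  | cons x l ih => rw [da_cons, da_cons, map_sub, ih fun m => F (x :: m)]

theorem ds_da {S : Type*} (F : List S → ℚ) (l : List S) : ds F l = da F l := by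
  induction l generalizing F with
  | nil => rfl
  | cons x l ih => rw [ds_cons, da_cons, ih]

variable {R : Type u} [Ring R] {𝒢 : Type v} [Group 𝒢] (D : R →+ R) (Θ : 𝒢 →* R)

/-- The transition elements. -/
def th (a b : 𝒢) : R := Θ (a⁻¹ * b)

theorem th_mul (a b c : 𝒢) : th Θ a b * th Θ b c = th Θ a c := by
  unfold th
  rw [← map_mul]
  congr 1
  group

theorem th_self (a : 𝒢) : th Θ a a = 1 := by
  unfold th
  rw [inv_mul_cancel, map_one]

theorem th_left (g a b : 𝒢) : th Θ (g * a) (g * b) = th Θ a b := by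
  unfold th
  congr 1
  group

/-- The product of the differentials of the transition elements along a list. -/
def Wl : List 𝒢 → R
  | [] => 1
  | [_] => 1
  | x :: y :: l => D (th Θ x y) * Wl (y :: l)

/-- Starting with a transition from `a`. -/
def Al (a : 𝒢) : List 𝒢 → R
  | [] => 0
  | x :: l => th Θ a x * Wl D Θ (x :: l)

/-- The transition from the last entry to `b`. -/
def Ll (b : 𝒢) : List 𝒢 → R
  | [] => 0
  | [x] => th Θ x b
  | _ :: y :: l => Ll b (y :: l)

theorem Ll_append (b : 𝒢) (u : List 𝒢) (y : 𝒢) (l : List 𝒢) :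
    Ll Θ b (u ++ y :: l) = Ll Θ b (y :: l) := by
  induction u with
  | nil => rfl
  | cons x u ih =>
    cases u with
    | nil => rfl
    | cons z u => exact ih

theorem Wl_append (x : 𝒢) (u : List 𝒢) (y : 𝒢) (l : List 𝒢) :
    Wl D Θ ((x :: u) ++ y :: l) = Wl D Θ (x :: u) * D (Ll Θ y (x :: u)) * Wl D Θ (y :: l) := by
  induction u generalizing x with
  | nil =>
    change D (th Θ x y) * Wl D Θ (y :: l) = 1 * D (th Θ x y) * _
    rw [one_mul]
  | cons z u ih =>
    change D (th Θ x z) * Wl D Θ ((z :: u) ++ y :: l) =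
      D (th Θ x z) * Wl D Θ (z :: u) * D (Ll Θ y (z :: u)) * Wl D Θ (y :: l)
    rw [ih]
    simp only [mul_assoc]

variable {D Θ} {Hm : ℕ → AddSubgroup R} {P : R → R → ℚ} (F : FormE Hm D P)
  (hΘ : ∀ γ, Θ γ ∈ Hm 0)

include F

theorem D_one : D 1 = 0 := by
  have h := F.leib 0 1 1 F.one
  rw [pow_zero, one_smul, mul_one, one_mul, mul_one] at h
  exact left_eq_add.1 h

include hΘ

theorem th_mem (a b : 𝒢) : th Θ a b ∈ Hm 0 := hΘ _

theorem Ll_mem (b x : 𝒢) (u : List 𝒢) : Ll Θ b (x :: u) ∈ Hm 0 := by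
  induction u generalizing x with
  | nil => exact hΘ _
  | cons y u ih => exact ih y

theorem Wl_mem (x : 𝒢) (u : List 𝒢) : Wl D Θ (x :: u) ∈ Hm u.length := by
  induction u generalizing x with
  | nil => exact F.one
  | cons y u ih =>
    have h := F.mul (0 + 1) u.length _ _ (F.deg 0 _ (th_mem F hΘ x y)) (ih y)
    rw [List.length_cons, add_comm u.length 1]
    rw [zero_add] at h
    exact h

theorem D_Wl (x : 𝒢) (u : List 𝒢) : D (Wl D Θ (x :: u)) = 0 := by
  induction u generalizing x with
  | nil => exact D_one F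
  | cons y u ih =>
    change D (D (th Θ x y) * Wl D Θ (y :: u)) = 0
    rw [F.leib (0 + 1) _ _ (F.deg 0 _ (th_mem F hΘ x y)), F.sq, ih, zero_mul, mul_zero, smul_zero,
      add_zero]

theorem D_Al (a x : 𝒢) (u : List 𝒢) : D (Al D Θ a (x :: u)) = D (th Θ a x) * Wl D Θ (x :: u) := by
  change D (th Θ a x * Wl D Θ (x :: u)) = _
  rw [F.leib 0 _ _ (th_mem F hΘ a x), D_Wl F hΘ, mul_zero, smul_zero, add_zero]

theorem Al_mem (a x : 𝒢) (u : List 𝒢) : Al D Θ a (x :: u) ∈ Hm u.length := by
  have h := F.mul 0 u.length _ _ (th_mem F hΘ a x) (Wl_mem F hΘ x u)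
  rw [zero_add] at h
  exact h

/-- The telescoping identity. -/
theorem da_Al (a b x : 𝒢) (m : List 𝒢) : da (fun l => Al D Θ a (l ++ [b])) (x :: m) =
    ((-1 : ℤ) ^ m.length) • (Al D Θ a (x :: m) * Ll Θ b (x :: m)) := by
  induction m generalizing a x with
  | nil =>
    change th Θ a b * 1 - 0 = ((-1 : ℤ) ^ 0) • (th Θ a x * 1 * th Θ x b)
    rw [mul_one, mul_one, th_mul, sub_zero, pow_zero, one_smul]
  | cons y m ih =>
    rw [da_cons]
    have h1 : (fun l => Al D Θ a ((x :: l) ++ [b])) =
        fun l => ((AddMonoidHom.mulLeft (th Θ a x)).comp D) (Al D Θ x (l ++ [b])) := by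
      funext l
      change th Θ a x * Wl D Θ (x :: (l ++ [b])) = th Θ a x * D (Al D Θ x (l ++ [b]))
      congr 1
      cases l with
      | nil => exact (D_Al F hΘ x b []).symm
      | cons z l => exact (D_Al F hΘ x z (l ++ [b])).symm
    rw [h1, da_map, ih x y]
    change _ - th Θ a x * D (((-1 : ℤ) ^ m.length) • (Al D Θ x (y :: m) * Ll Θ b (y :: m))) = _
    rw [map_zsmul, F.leib m.length _ _ (Al_mem F hΘ x y m)]
    have h2 : th Θ a x * (Al D Θ x (y :: m) * D (Ll Θ b (y :: m))) =
        Al D Θ a (y :: m ++ [b]) := by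
      change th Θ a x * ((th Θ x y * Wl D Θ (y :: m)) * D (Ll Θ b (y :: m))) =
        th Θ a y * Wl D Θ ((y :: m) ++ [b])
      rw [Wl_append]
      change _ = th Θ a y * (Wl D Θ (y :: m) * D (Ll Θ b (y :: m)) * 1)
      rw [mul_one, ← mul_assoc, ← mul_assoc, th_mul, mul_assoc]
    have h3 : th Θ a x * (D (Al D Θ x (y :: m)) * Ll Θ b (y :: m)) =
        Al D Θ a (x :: y :: m) * Ll Θ b (x :: y :: m) := by
      rw [D_Al F hΘ]
      change _ = th Θ a x * (D (th Θ x y) * Wl D Θ (y :: m)) * Ll Θ b (y :: m)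
      rw [← mul_assoc]
    rw [mul_smul_comm, mul_add, mul_smul_comm, h2, h3, smul_add, smul_smul, ← mul_pow]
    norm_num
    rw [pow_succ, mul_neg_one, neg_mul]

/-- The cochain. -/
def Ps {R : Type u} [Ring R] (P : R → R → ℚ) (D : R →+ R) (Θ : 𝒢 →* R) (l : List 𝒢) : ℚ :=
  match l.getLast? with
  | none => 0
  | some a => P (Al D Θ a l.dropLast) (Ll Θ a l.dropLast)

omit F hΘ in
theorem Ps_append (u : List 𝒢) (a : 𝒢) :
    Ps P D Θ (u ++ [a]) = P (Al D Θ a u) (Ll Θ a u) := by
  unfold Ps
  rw [List.getLast?_concat, List.dropLast_concat]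

omit F hΘ in
theorem Wl_map (g : 𝒢) (l : List 𝒢) : Wl D Θ (l.map (g * ·)) = Wl D Θ l := by
  induction l with
  | nil => rfl
  | cons x l ih =>
    cases l with
    | nil => rfl
    | cons y l =>
      change D (th Θ (g * x) (g * y)) * Wl D Θ ((y :: l).map (g * ·)) =
        D (th Θ x y) * Wl D Θ (y :: l)
      rw [ih, th_left]

omit F hΘ in
theorem Al_map (g a : 𝒢) (l : List 𝒢) : Al D Θ (g * a) (l.map (g * ·)) = Al D Θ a l := by
  cases l with
  | nil => rfl
  | cons x l =>
    change th Θ (g * a) (g * x) * Wl D Θ ((x :: l).map (g * ·)) = _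
    rw [Wl_map, th_left]
    rfl

omit F hΘ in
theorem Ll_map (g b : 𝒢) (l : List 𝒢) : Ll Θ (g * b) (l.map (g * ·)) = Ll Θ b l := by
  induction l with
  | nil => rfl
  | cons x l ih =>
    cases l with
    | nil => exact th_left Θ g x b
    | cons y l => exact ih

omit F hΘ in
theorem Ps_map (g : 𝒢) (l : List 𝒢) : Ps P D Θ (l.map (g * ·)) = Ps P D Θ l := by
  rcases List.eq_nil_or_concat l with h | ⟨u, a, h⟩
  · rw [h]
    rfl
  · rw [h, List.concat_eq_append, List.map_append, List.map_singleton, Ps_append, Ps_append,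
      Al_map, Ll_map]

/-- Additivity in the left variable. -/
def Pl (F : FormE Hm D P) (b : R) : R →+ ℚ :=
  AddMonoidHom.mk' (fun a => P a b) fun a a' => F.add_left a a' b

theorem Ps_cocycle (x : 𝒢) (m : List 𝒢) (b a : 𝒢) :
    ds (Ps P D Θ) ((x :: m) ++ [b] ++ [a]) = 0 := by
  rw [ds_append, ds_append]
  have h1 : (fun k => Ps P D Θ (k ++ [b] ++ [a])) =
      fun k => Pl F (th Θ b a) (Al D Θ a (k ++ [b])) := by
    funext k
    rw [Ps_append]
    change _ = P _ _
    congr 1
    exact Ll_append Θ a k b []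
  rw [h1, ds_da, da_map, da_Al F hΘ, map_zsmul, Ps_append, Ps_append]
  change ((-1 : ℤ) ^ m.length) • P (Al D Θ a (x :: m) * Ll Θ b (x :: m)) (th Θ b a) + _ + _ = 0
  have h2 : Ll Θ a (x :: m) = Ll Θ b (x :: m) * th Θ b a := by
    clear h1
    induction m generalizing x with
    | nil => exact (th_mul Θ x b a).symm
    | cons y m ih => exact ih y
  have h3 : th Θ b a * Al D Θ a (x :: m) = Al D Θ b (x :: m) := by
    change th Θ b a * (th Θ a x * _) = th Θ b x * _
    rw [← mul_assoc, th_mul]
  have h4 := F.cyc m.length 0 0 _ _ _ (Al_mem F hΘ a x m) (Ll_mem F hΘ b x m) (th_mem F hΘ b a)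
  rw [zero_mul, pow_zero, one_smul, h3, ← h2] at h4
  rw [h4, List.length_append, List.length_cons, List.length_singleton, zsmul_eq_mul]
  push_cast
  rw [pow_succ, pow_succ]
  ring

/-- The cochain in one degree. -/
def Pn (n : ℕ) {R : Type u} [Ring R] (P : R → R → ℚ) (D : R →+ R) (Θ : 𝒢 →* R) (l : List 𝒢) : ℚ :=
  if l.length = n + 3 then Ps P D Θ l else 0

theorem Pn_cocycle (n : ℕ) : ds (Pn n P D Θ) = fun _ => 0 := by
  funext l
  by_cases hl : l.length = n + 4
  · have h1 : ds (Pn n P D Θ) l = ds (Ps P D Θ) l := by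
      apply ds_congr
      intro m hm
      unfold Pn
      rw [if_pos (by omega)]
    rw [h1]
    rcases List.eq_nil_or_concat l with h | ⟨u, a, h⟩
    · rw [h] at hl
      simp at hl
    rw [List.concat_eq_append] at h
    subst h
    rcases List.eq_nil_or_concat u with h | ⟨w, b, h⟩
    · rw [h] at hl
      simp at hl
    rw [List.concat_eq_append] at h
    subst h
    cases w with
    | nil => simp at hl
    | cons x m => exact Ps_cocycle F hΘ x m b a
  · have h1 : ds (Pn n P D Θ) l = ds (fun _ => 0) l := by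
      apply ds_congr
      intro m hm
      unfold Pn
      rw [if_neg (by omega)]
    rw [h1, ds_zero]

/-- The product which links the last entry of the first list to the second list. -/
def Wc {R : Type u} [Ring R] (D : R →+ R) (Θ : 𝒢 →* R) (u : List 𝒢) : List 𝒢 → R
  | [] => 1
  | y :: q => D (Ll Θ y u) * Wl D Θ (y :: q)

theorem expand (x : 𝒢) (p q : List 𝒢) :
    P (Ll Θ x (x :: p ++ q) * Wl D Θ (x :: p)) (Wc D Θ (x :: p) q) =
      ∑ j ∈ range q.length, (-1) ^ (((x :: p ++ q).length + 1) * ((x :: p).length + j)) *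
        cs (Ps P D Θ) ((x :: p ++ q).rotate ((x :: p).length + j)) := by
  induction q generalizing p with
  | nil =>
    rw [List.length_nil, range_zero, sum_empty]
    have h1 : Ll Θ x (x :: p ++ []) * Wl D Θ (x :: p) ∈ Hm (0 + p.length) := by
      apply F.mul
      · rw [List.append_nil]
        exact Ll_mem F hΘ x x p
      · exact Wl_mem F hΘ x p
    exact F.right_one h1
  | cons y q ih =>
    have hl : x :: p ++ y :: q = x :: (p ++ [y]) ++ q := by simp
    have hih := ih (p ++ [y])
    rw [← hl] at hih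
    have hW : Wl D Θ (x :: (p ++ [y])) = Wl D Θ (x :: p) * D (Ll Θ y (x :: p)) := by
      have h := Wl_append D Θ x p y []
      change Wl D Θ (x :: p ++ [y]) = _ * 1 at h
      rw [mul_one] at h
      exact h
    have hWc : Wc D Θ (x :: (p ++ [y])) q = Wl D Θ (y :: q) := by
      cases q with
      | nil => rfl
      | cons z q =>
        change D (Ll Θ z (x :: p ++ y :: [])) * _ = D (th Θ y z) * _
        rw [Ll_append]
        rfl
    have hLm : Ll Θ x (x :: p ++ y :: q) ∈ Hm 0 := Ll_mem F hΘ x x (p ++ y :: q)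
    have hLe : Ll Θ x (x :: p ++ y :: q) = Ll Θ x (y :: q) := Ll_append Θ x (x :: p) y q
    have ha : Ll Θ x (x :: p ++ y :: q) * Wl D Θ (x :: p) ∈ Hm p.length := by
      have h := F.mul 0 p.length _ _ hLm (Wl_mem F hΘ x p)
      rwa [zero_add] at h
    have hb : D (Ll Θ y (x :: p)) ∈ Hm 1 := F.deg 0 _ (Ll_mem F hΘ y x p)
    have hc := Wl_mem F hΘ y q
    have h1 := F.cyc p.length 1 q.length _ _ _ ha hb hc
    have h2 : Ll Θ x (x :: p ++ y :: q) * Wl D Θ (x :: p) * D (Ll Θ y (x :: p)) =
        Ll Θ x (x :: p ++ y :: q) * Wl D Θ (x :: (p ++ [y])) := by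
      rw [hW, mul_assoc]
    rw [h2, ← hWc, hih, hWc] at h1
    change P _ (D (Ll Θ y (x :: p)) * Wl D Θ (y :: q)) = _
    rw [h1]
    -- the term with `j = 0`
    have hα : Wl D Θ (y :: q) * (Ll Θ x (x :: p ++ y :: q) * Wl D Θ (x :: p)) ∈
        Hm (q.length + p.length) := F.mul _ _ _ _ hc ha
    have h3 := F.closed _ _ (Ll Θ y (x :: p)) hα
    have h4 : D (Wl D Θ (y :: q) * (Ll Θ x (x :: p ++ y :: q) * Wl D Θ (x :: p))) =
        ((-1 : ℤ) ^ q.length) • Wl D Θ ((y :: q) ++ (x :: p)) := by
      rw [F.leib _ _ _ hc, D_Wl F hΘ, zero_mul, zero_add, F.leib 0 _ _ hLm, D_Wl F hΘ, mul_zero,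
        smul_zero, add_zero, hLe, Wl_append, mul_assoc]
    have h5 : P (((-1 : ℤ) ^ q.length) • Wl D Θ ((y :: q) ++ (x :: p))) (Ll Θ y (x :: p)) =
        ((-1 : ℤ) ^ q.length) • P (Wl D Θ ((y :: q) ++ (x :: p))) (Ll Θ y (x :: p)) :=
      map_zsmul (Pl F (Ll Θ y (x :: p))) _ _
    have hrot : (x :: p ++ y :: q).rotate (x :: p).length = (y :: q) ++ (x :: p) :=
      List.rotate_append_length_eq _ _
    have hcs : cs (Ps P D Θ) ((y :: q) ++ (x :: p)) =
        P (Wl D Θ ((y :: q) ++ (x :: p))) (Ll Θ y (x :: p)) := by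
      rw [List.cons_append, cs_cons, ← List.cons_append, Ps_append]
      have e1 : Al D Θ y (y :: (q ++ x :: p)) = Wl D Θ ((y :: q) ++ (x :: p)) := by
        change th Θ y y * _ = _
        rw [th_self, one_mul]
        rfl
      rw [e1]
      congr 1
      exact Ll_append Θ y (y :: q) x p
    rw [h4, h5, ← hcs] at h3
    rw [List.length_cons (as := q), sum_range_succ', add_comm]
    congr 1
    · refine sum_congr rfl fun j _ => ?_
      have e1 : (x :: (p ++ [y])).length + j = (x :: p).length + (j + 1) := by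
        simp
        omega
      rw [e1]
    · rw [add_zero, hrot]
      set A := P (Wl D Θ (y :: q) * (Ll Θ x (x :: p ++ y :: q) * Wl D Θ (x :: p)))
        (D (Ll Θ y (x :: p))) with hA
      set C := cs (Ps P D Θ) ((y :: q) ++ (x :: p)) with hC
      have h6 : A = (-1) ^ (p.length + 1) * C := by
        rw [zsmul_eq_mul, zsmul_eq_mul] at h3
        push_cast at h3
        have e1 : ((-1 : ℚ) ^ q.length) * (-1) ^ q.length = 1 := by
          rw [← mul_pow]
          norm_num
        have e2 : ((-1 : ℚ) ^ p.length) * (-1) ^ p.length = 1 := by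
          rw [← mul_pow]
          norm_num
        rw [pow_add] at h3
        rw [pow_succ]
        calc A = (((-1 : ℚ) ^ q.length) * (-1) ^ q.length) *
              (((-1 : ℚ) ^ p.length) * (-1) ^ p.length) * A := by rw [e1, e2]; ring
          _ = ((-1 : ℚ) ^ q.length) * (-1) ^ p.length *
              ((-1) ^ q.length * (-1) ^ p.length * A) := by ring
          _ = ((-1 : ℚ) ^ q.length) * (-1) ^ p.length * (-((-1) ^ q.length * C)) := by
              congr 1
              linarith
          _ = -(((-1 : ℚ) ^ q.length) * (-1) ^ q.length) * (-1) ^ p.length * C := by ring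
          _ = _ := by rw [e1]; ring
      rw [h6, zsmul_eq_mul]
      push_cast
      rw [← mul_assoc, ← pow_add]
      congr 1
      have e3 : (x :: p ++ y :: q).length = p.length + q.length + 2 := by
        simp
        omega
      rw [e3, List.length_cons]
      have e4 : (p.length + q.length + 2 + 1) * (p.length + 1) =
          q.length * (p.length + 1) + (p.length + 1) + (p.length + 1) * (p.length + 1 + 1) := by
        ring
      rw [e4, pow_add _ (q.length * (p.length + 1) + (p.length + 1)),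
        (Nat.even_mul_succ_self (p.length + 1)).neg_one_pow, mul_one]

theorem expand_all (x : 𝒢) (m : List 𝒢) :
    P 1 (Ll Θ x (x :: m) * Wl D Θ (x :: m)) = sN (cs (Ps P D Θ)) (x :: m) := by
  have h1 := F.cyc 0 0 m.length 1 _ _ F.one (Ll_mem F hΘ x x m) (Wl_mem F hΘ x m)
  rw [add_zero, mul_zero, pow_zero, one_smul, mul_one, one_mul] at h1
  have h2 := expand F hΘ x [] m
  have h3 : Wc D Θ [x] m = Wl D Θ (x :: m) := by
    cases m with
    | nil => rfl
    | cons y m => rfl
  rw [h3] at h2
  change P (Ll Θ x (x :: m) * 1) _ = _ at h2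
  rw [mul_one] at h2
  have h4 : cs (Ps P D Θ) (x :: m) = P (Wl D Θ (x :: m)) (Ll Θ x (x :: m)) := by
    rw [cs_cons, ← List.cons_append, Ps_append]
    have e1 : Al D Θ x (x :: m) = Wl D Θ (x :: m) := by
      change th Θ x x * _ = _
      rw [th_self, one_mul]
    rw [e1]
  rw [h1, h2, ← h4]
  unfold sN
  rw [show (x :: m).length = m.length + 1 from rfl, sum_range_succ', add_comm]
  congr 1
  · refine sum_congr rfl fun j _ => ?_
    simp only [List.length_cons, List.length_nil, List.cons_append, List.nil_append, zero_add,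
      add_comm 1 j]
  · simp

end Pool.Agent.H416.HC
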