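import Mathlib

/-!
# Cycles of Connes' complex of a group ring, component of the conjugacy class of `1`

Via `(γ_0, …, γ_n) ↦ γ_n⁻¹γ_0 ⊗ γ_0⁻¹γ_1 ⊗ ⋯ ⊗ γ_{n-1}⁻¹γ_n` the chains of homogeneous tuples, modulo left
translations and signed rotations, are the chains of Connes' complex of `ℤ[𝒢]`, component of the class
of `1`.
-/

set_option autoImplicit false

namespace Pool.Agent.H416.HC

universe y

/-- The boundary `(γ_0, …, γ_{n+1}) ↦ ∑_i (-1)^i (γ_0, …, γ_{i-1}, γ_{i+1}, …, γ_{n+1})` on chains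
of homogeneous tuples with integral coefficients. -/
noncomputable def simpBoundary {𝒢 : Type y} {n : ℕ} (z : (Fin (n + 2) → 𝒢) →₀ ℤ) :
    (Fin (n + 1) → 𝒢) →₀ ℤ :=
  z.sum fun γ a => ∑ i : Fin (n + 2), Finsupp.single (fun j => γ (i.succAbove j)) ((-1) ^ (i : ℕ) * a)

/-- The chains spanned by `(g v_0, …, g v_n) - (v_0, …, v_n)` and
`(v_1, …, v_n, v_0) - (-1)^n (v_0, …, v_n)`. -/
noncomputable def cyclicRelations (𝒢 : Type y) [Group 𝒢] (n : ℕ) :
    AddSubgroup ((Fin (n + 1) → 𝒢) →₀ ℤ) :=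
  AddSubgroup.closure
    ({a | ∃ (g : 𝒢) (v : Fin (n + 1) → 𝒢),
      a = Finsupp.single (fun j => g * v j) 1 - Finsupp.single v 1} ∪
    {a | ∃ v : Fin (n + 1) → 𝒢,
      a = Finsupp.single (fun j => v (j + 1)) 1 - Finsupp.single v ((-1) ^ n)})

/-- The cycles of degree `n + 1` of Connes' complex of the integral group ring of `𝒢`, component
of the conjugacy class of `1`, in homogeneous notation. -/
def IsCyclicCycle {𝒢 : Type y} [Group 𝒢] {n : ℕ} (z : (Fin (n + 2) → 𝒢) →₀ ℤ) : Prop :=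
  simpBoundary z ∈ cyclicRelations 𝒢 n

/-- The cycles of the complex of the group homology of `𝒢` with integral coefficients. -/
def IsGroupCycle {𝒢 : Type y} [Group 𝒢] {n : ℕ} (z : (Fin (n + 2) → 𝒢) →₀ ℤ) : Prop :=
  simpBoundary z ∈ AddSubgroup.closure {a | ∃ (g : 𝒢) (v : Fin (n + 1) → 𝒢),
      a = Finsupp.single (fun j => g * v j) 1 - Finsupp.single v 1}

theorem IsGroupCycle.isCyclicCycle {𝒢 : Type y} [Group 𝒢] {n : ℕ} {z : (Fin (n + 2) → 𝒢) →₀ ℤ}
    (hz : IsGroupCycle z) : IsCyclicCycle z :=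
  AddSubgroup.closure_mono Set.subset_union_left hz

end Pool.Agent.H416.HC
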