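import Pool.Agent.H416.QG

/-!
# The property `LocRC` implies `RC`
-/

set_option autoImplicit false

namespace Pool.Agent.H416

universe w

theorem exists_finset_commutator {C : Type w} [Group C] (x : C)
    (hx : x ∈ ⁅(⊤ : Subgroup C), (⊤ : Subgroup C)⁆) : ∃ s : Finset C,
      x ∈ ⁅Subgroup.closure (s : Set C), Subgroup.closure (s : Set C)⁆ := by
  classical
  rw [Subgroup.commutator_def] at hx
  have hmono : ∀ s t : Finset C, s ⊆ t → ⁅Subgroup.closure (s : Set C),
      Subgroup.closure (s : Set C)⁆ ≤ ⁅Subgroup.closure (t : Set C),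
      Subgroup.closure (t : Set C)⁆ := by
    intro s t hst
    have h1 : Subgroup.closure (s : Set C) ≤ Subgroup.closure (t : Set C) :=
      Subgroup.closure_mono (by exact_mod_cast hst)
    exact Subgroup.commutator_mono h1 h1
  induction hx using Subgroup.closure_induction with
  | mem y hy =>
    obtain ⟨a, _, b, _, rfl⟩ := hy
    refine ⟨{a, b}, Subgroup.commutator_mem_commutator ?_ ?_⟩
    · exact Subgroup.subset_closure (by simp)
    · exact Subgroup.subset_closure (by simp)
  | one => exact ⟨∅, Subgroup.one_mem _⟩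
  | mul a b _ _ ha hb =>
    obtain ⟨s, hs⟩ := ha
    obtain ⟨t, ht⟩ := hb
    exact ⟨s ∪ t, Subgroup.mul_mem _ (hmono _ _ Finset.subset_union_left hs)
      (hmono _ _ Finset.subset_union_right ht)⟩
  | inv a _ ha =>
    obtain ⟨s, hs⟩ := ha
    exact ⟨s, Subgroup.inv_mem _ hs⟩

theorem LocRC.rc {G : Type w} [Group G] {g : G} (h : LocRC g) : RC g := by
  classical
  by_contra hcon
  have hgC : g ∈ Subgroup.centralizer {g} := Subgroup.mem_centralizer_singleton_iff.2 rfl
  set C := Subgroup.centralizer ({g} : Set G) with hC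
  have h1 : ¬ ∀ n : ℤ, n • (Additive.ofMul (Abelianization.of (⟨g, hgC⟩ : C))) = 0 → n = 0 := by
    intro h2
    obtain ⟨f, hf⟩ := RCT.exists_rat _ h2
    apply hcon
    refine RCT.of_centralizer g ((AddMonoidHom.toMultiplicative f).comp
      ((MulEquiv.refl _).toMonoidHom.comp (Abelianization.of (G := C)))) ?_
    exact hf
  push Not at h1
  obtain ⟨n, hn, hn0⟩ := h1
  have h2 : (⟨g, hgC⟩ : C) ^ n ∈ commutator C := by
    have h3 : Abelianization.of ((⟨g, hgC⟩ : C) ^ n) = 1 := by
      rw [map_zpow]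
      exact hn
    have h4 : (Abelianization.of (G := C)).ker = commutator C := Abelianization.ker_of C
    rw [← h4]
    exact h3
  obtain ⟨s, hs⟩ := exists_finset_commutator _ h2
  set D : Subgroup C := Subgroup.closure ((insert (⟨g, hgC⟩ : C) s : Finset C) : Set C) with hD
  have hsD : (⟨g, hgC⟩ : C) ^ n ∈ ⁅D, D⁆ := by
    refine Subgroup.commutator_mono ?_ ?_ hs
    · exact Subgroup.closure_mono (by simp)
    · exact Subgroup.closure_mono (by simp)
  have hgD : (⟨g, hgC⟩ : C) ∈ D := Subgroup.subset_closure (by simp)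
  have hH : (D.map C.subtype).FG := by
    refine ⟨(insert (⟨g, hgC⟩ : C) s).image C.subtype, ?_⟩
    rw [hD, MonoidHom.map_closure, Finset.coe_image]
  have hgH : g ∈ D.map C.subtype := ⟨_, hgD, rfl⟩
  obtain ⟨l, hl, hl1⟩ := h _ hH hgH
  have hcomm : ∀ x : D.map C.subtype, x * ⟨g, hgH⟩ = ⟨g, hgH⟩ * x := by
    rintro ⟨_, ⟨y, hy, rfl⟩⟩
    apply Subtype.ext
    exact Subgroup.mem_centralizer_singleton_iff.1 y.2
  have hadd : ∀ a b : D.map C.subtype, l (a * b) = l a + l b := fun a b =>
    hl a b (hcomm a) (hcomm b)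
  let L : D.map C.subtype →* Multiplicative ℚ :=
    MonoidHom.mk' (fun x => Multiplicative.ofAdd (l x)) fun a b => by
      rw [hadd]
      rfl
  have h5 : (g : G) ^ n ∈ ⁅D.map C.subtype, D.map C.subtype⁆ := by
    rw [← Subgroup.map_commutator]
    exact ⟨_, hsD, rfl⟩
  have h6 : (⟨g, hgH⟩ : D.map C.subtype) ^ n ∈ commutator (D.map C.subtype) := by
    have h7 : (commutator (D.map C.subtype)).map (D.map C.subtype).subtype =
        ⁅D.map C.subtype, D.map C.subtype⁆ := by
      rw [commutator_def, Subgroup.map_commutator]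
      congr 1
      · rw [← MonoidHom.range_eq_map, Subgroup.range_subtype]
      · rw [← MonoidHom.range_eq_map, Subgroup.range_subtype]
    rw [← h7] at h5
    obtain ⟨y, hy, hy1⟩ := h5
    have h8 : y = (⟨g, hgH⟩ : D.map C.subtype) ^ n := Subtype.ext hy1
    rw [← h8]
    exact hy
  have h9 : L ((⟨g, hgH⟩ : D.map C.subtype) ^ n) = 1 :=
    Abelianization.commutator_subset_ker L h6
  rw [map_zpow] at h9
  have h10 : n • l ⟨g, hgH⟩ = 0 := h9
  rw [hl1, smul_eq_zero] at h10
  rcases h10 with h10 | h10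
  · exact hn0 h10
  · exact one_ne_zero h10

end Pool.Agent.H416
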