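import Pool.Agent.H416.HCb
import Pool.Agent.H416.HCd
import Pool.Agent.H416.RCloc

/-!
# Vanishing on cyclic cycles
-/

set_option autoImplicit false
set_option linter.unusedSectionVars false

namespace Pool.Agent.H416.HC

open Finset
open Pool.Agent.V11187.DG (FormE)

universe u v w x y

theorem eraseIdx_ofFn {𝒢 : Type v} {n : ℕ} (γ : Fin (n + 1) → 𝒢) (i : Fin (n + 1)) :
    (List.ofFn γ).eraseIdx i = List.ofFn fun j => γ (i.succAbove j) := by
  apply List.ext_getElem
  · rw [List.length_eraseIdx_of_lt (by rw [List.length_ofFn]; exact i.2)]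
    simp
  · intro j h1 h2
    rw [List.getElem_eraseIdx]
    simp only [List.getElem_ofFn, Fin.succAbove, Fin.lt_def]
    split_ifs with h3 h4 h4
    · rfl
    · exact absurd h3 h4
    · exact absurd h4 h3
    · rfl

theorem rotate_ofFn {𝒢 : Type v} {n : ℕ} (v : Fin (n + 1) → 𝒢) :
    (List.ofFn v).rotate 1 = List.ofFn fun j => v (j + 1) := by
  apply List.ext_getElem
  · simp
  · intro t h1 h2
    rw [List.getElem_rotate]
    simp only [List.getElem_ofFn, List.length_ofFn]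
    congr 1
    apply Fin.ext
    simp [Fin.val_add]

/-- A cochain which is a sum over faces vanishes on cycles. -/
theorem pair_zero {𝒢 : Type v} [Group 𝒢] {n : ℕ} (z : (Fin (n + 2) → 𝒢) →₀ ℤ)
    (hz : IsCyclicCycle z) (Z : List 𝒢 → ℚ) (hinv : ∀ (g : 𝒢) l, Z (l.map (g * ·)) = Z l)
    (hcyc : ∀ l, l.length = n + 1 → tS Z l = Z l) :
    (z.sum fun γ a => (a : ℚ) * ds Z (List.ofFn γ)) = 0 := by
  let Φ : ((Fin (n + 1) → 𝒢) →₀ ℤ) →+ ℚ := Finsupp.liftAddHom fun v =>
    (zmultiplesHom ℚ) (Z (List.ofFn v))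
  have hΦ : ∀ v a, Φ (Finsupp.single v a) = (a : ℚ) * Z (List.ofFn v) := by
    intro v a
    simp [Φ]
  have hker : cyclicRelations 𝒢 n ≤ Φ.ker := by
    rw [cyclicRelations, AddSubgroup.closure_le]
    rintro a (⟨g, v, rfl⟩ | ⟨v, rfl⟩)
    · rw [SetLike.mem_coe, AddMonoidHom.mem_ker, map_sub, hΦ, hΦ, sub_eq_zero]
      have h1 : List.ofFn (fun j => g * v j) = (List.ofFn v).map (g * ·) := by
        rw [List.map_ofFn]
        rfl
      rw [h1, hinv]
    · rw [SetLike.mem_coe, AddMonoidHom.mem_ker, map_sub, hΦ, hΦ, sub_eq_zero, ← rotate_ofFn]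
      have h1 := hcyc (List.ofFn v) (by simp)
      unfold tS at h1
      rw [List.length_ofFn] at h1
      have h3 : ((-1 : ℚ) ^ n) * (-1) ^ n = 1 := by
        rw [← mul_pow]
        norm_num
      push_cast
      rw [one_mul]
      rw [pow_succ, pow_succ] at h1
      calc Z ((List.ofFn v).rotate 1) = ((-1 : ℚ) ^ n) * (-1) ^ n * Z ((List.ofFn v).rotate 1) := by
            rw [h3, one_mul]
        _ = (-1 : ℚ) ^ n * ((-1) ^ n * -1 * -1 * Z ((List.ofFn v).rotate 1)) := by ring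
        _ = _ := by rw [h1]
  have h1 : Φ (simpBoundary z) = 0 := hker hz
  rw [← h1, simpBoundary, Finsupp.sum, Finsupp.sum, map_sum]
  refine sum_congr rfl fun γ _ => ?_
  rw [map_sum, ds_eq_sum, List.length_ofFn,
    ← Fin.sum_univ_eq_sum_range fun j => (-1 : ℚ) ^ j * Z ((List.ofFn γ).eraseIdx j), mul_sum]
  refine sum_congr rfl fun j _ => ?_
  rw [hΦ, eraseIdx_ofFn]
  push_cast
  ring

variable {R : Type u} [Ring R] {𝒢 : Type v} [Group 𝒢]

/-- The product of the transition from the last to the first entry and the differentials of the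
transitions. -/
def fw (D : R → R) (Θ : 𝒢 → R) {n : ℕ} (γ : Fin (n + 1) → 𝒢) : R :=
  Θ ((γ (Fin.last n))⁻¹ * γ 0) * (List.ofFn fun i : Fin n => D (Θ ((γ i.castSucc)⁻¹ * γ i.succ))).prod

theorem Wl_ofFn (D : R →+ R) (Θ : 𝒢 →* R) {n : ℕ} (γ : Fin (n + 1) → 𝒢) :
    Wl D Θ (List.ofFn γ) =
      (List.ofFn fun i : Fin n => D (Θ ((γ i.castSucc)⁻¹ * γ i.succ))).prod := by
  induction n with
  | zero =>
    rw [List.ofFn_succ, List.ofFn_zero, List.ofFn_zero]
    rfl
  | succ n ih =>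
    have h1 := ih fun i => γ i.succ
    rw [List.ofFn_succ (f := γ), List.ofFn_succ (f := fun i => γ i.succ)]
    rw [List.ofFn_succ (f := fun i => γ i.succ)] at h1
    change D (th Θ (γ 0) (γ (Fin.succ 0))) * Wl D Θ _ = _
    rw [h1, List.ofFn_succ, List.prod_cons]
    rfl

theorem Ll_ofFn (Θ : 𝒢 →* R) {n : ℕ} (γ : Fin (n + 1) → 𝒢) (b : 𝒢) :
    Ll Θ b (List.ofFn γ) = Θ ((γ (Fin.last n))⁻¹ * b) := by
  induction n with
  | zero =>
    rw [List.ofFn_succ, List.ofFn_zero]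
    rfl
  | succ n ih =>
    have h1 := ih fun i => γ i.succ
    rw [List.ofFn_succ (f := γ), List.ofFn_succ (f := fun i => γ i.succ)]
    rw [List.ofFn_succ (f := fun i => γ i.succ)] at h1
    exact h1

/-- The abstract vanishing theorem. -/
theorem form_zero {D : R →+ R} {Θ : 𝒢 →* R} {Hm : ℕ → AddSubgroup R} {P : R → R → ℚ}
    (F : FormE Hm D P) (hΘ : ∀ γ, Θ γ ∈ Hm 0) {n : ℕ} (z : (Fin (n + 2) → 𝒢) →₀ ℤ)
    (hz : IsCyclicCycle z) : (z.sum fun γ a => (a : ℚ) * P 1 (fw D Θ γ)) = 0 := by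
  have h1 : ∀ γ : Fin (n + 2) → 𝒢, P 1 (fw D Θ γ) = ds (hY (n + 1) (Pn n P D Θ)) (List.ofFn γ) := by
    intro γ
    have h2 : sN (cs (Pn n P D Θ)) (List.ofFn γ) = sN (cs (Ps P D Θ)) (List.ofFn γ) := by
      apply sN_congr
      intro m hm
      rw [List.length_ofFn] at hm
      unfold cs Pn
      rw [if_pos]
      rw [List.length_append, List.length_take, hm]
      omega
    have h3 := homotopy (n + 2) (Pn n P D Θ) (List.ofFn γ) (by simp)
    rw [Pn_cocycle F hΘ, hY_zero, zero_add, h2] at h3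
    have h4 : List.ofFn γ = γ 0 :: List.ofFn fun i => γ i.succ := List.ofFn_succ
    have h5 := expand_all F hΘ (γ 0) (List.ofFn fun i => γ i.succ)
    rw [← h4, h3, Wl_ofFn, Ll_ofFn] at h5
    exact h5
  rw [Finsupp.sum, sum_congr rfl fun γ _ => by rw [h1 γ]]
  apply pair_zero z hz
  · intro g l
    have h6 : ∀ m : List 𝒢, Pn n P D Θ (m.map (g * ·)) = Pn n P D Θ m := by
      intro m
      unfold Pn
      rw [List.length_map, Ps_map]
    rw [hY_map]
    congr 1
    funext m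
    exact h6 m
  · intro l hl
    exact hY_cyc _ _ l hl

end Pool.Agent.H416.HC
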