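import Pool.Agent.H416.HCc

/-!
# Cycles over rings with a homomorphism to `Ω[G]`
-/

set_option autoImplicit false
set_option linter.unusedSectionVars false

namespace Pool.Agent.H416.HC

open MonoidAlgebra
open Pool.Agent.V11187.DG (Cyc Hm Dm Dm_apply dh dh_coeff dh_single dh_mul Sg eT eT_zero eT_add
  eT_single eT_sum dg compT compT_eT mem_Hm rh rh_mem T1 T1_apply T_auE T1_eT eT_cls compT_one au
  au_rh au_dh)
open Pool.Agent.H416.QE (formE PM PM_one eT_comp torsion_of)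

universe u v w x y z

variable {K : Type u} [CommRing K] {Ω : Type v} [Ring Ω] [Algebra K Ω] {G : Type w} [Group G]
  {M : Type x} [AddCommGroup M] [Module K M] {𝒜 : ℕ → Submodule K Ω} [GradedAlgebra 𝒜]
  {N : ℕ} {δ : Ω →ₗ[K] Ω} {T : Ω →ₗ[K] M} {A : Type y} [Ring A] {𝒢 : Type z} [Group 𝒢]

/-- The matrix `θ(γ_N⁻¹γ_0) δθ(γ_0⁻¹γ_1) ⋯ δθ(γ_{N-1}⁻¹γ_N)` over `Ω[G]`, whose coefficient at `h`
is the part of degree `h`. -/
noncomputable def wordC (δ : Ω →ₗ[K] Ω) (σ : A →+* MonoidAlgebra Ω G) {d : ℕ}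
    (θ : 𝒢 →* Matrix (Fin d) (Fin d) A) {n : ℕ} (γ : Fin (n + 1) → 𝒢) :
    Matrix (Fin d) (Fin d) (MonoidAlgebra Ω G) :=
  (θ ((γ (Fin.last n))⁻¹ * γ 0)).map σ *
    (List.ofFn fun i : Fin n => ((θ ((γ i.castSucc)⁻¹ * γ i.succ)).map σ).map (dh G δ)).prod

/-- The component at `g` of the value on the chain `z`. -/
noncomputable def compC (δ : Ω →ₗ[K] Ω) (T : Ω →ₗ[K] M) (σ : A →+* MonoidAlgebra Ω G) {d : ℕ}
    (θ : 𝒢 →* Matrix (Fin d) (Fin d) A) {n : ℕ} (z : (Fin (n + 1) → 𝒢) →₀ ℤ) (g : G) : M :=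
  z.sum fun γ a => a • compT T (wordC δ σ θ γ) g

/-- The homomorphism to the matrices over `Ω[G]`. -/
noncomputable def Th (σ : A →+* MonoidAlgebra Ω G) {d : ℕ} (θ : 𝒢 →* Matrix (Fin d) (Fin d) A) :
    𝒢 →* Matrix (Fin d) (Fin d) (MonoidAlgebra Ω G) :=
  (σ.mapMatrix : Matrix (Fin d) (Fin d) A →+* _).toMonoidHom.comp θ

theorem fw_Th (σ : A →+* MonoidAlgebra Ω G) {d : ℕ} (θ : 𝒢 →* Matrix (Fin d) (Fin d) A) {n : ℕ}
    (γ : Fin (n + 1) → 𝒢) : fw (Dm δ G d) (Th σ θ) γ = wordC δ σ θ γ := rfl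

/-- The components at the elements with the property `RC` are torsion elements. -/
theorem torsionC {g : G} (hg : RC g) {n : ℕ} (hc : Cyc N 𝒜 δ T)
    {σ : A →+* MonoidAlgebra Ω G} (hσ : ∀ a, σ a ∈ Sg 𝒜 G 0) {d : ℕ}
    (θ : 𝒢 →* Matrix (Fin d) (Fin d) A) (z : (Fin (n + 2) → 𝒢) →₀ ℤ) (hz : IsCyclicCycle z) :
    ∃ k : ℤ, k ≠ 0 ∧ k • compC δ T σ θ z g = 0 := by
  obtain ⟨l, hl, hlg⟩ := hg
  refine torsion_of _ fun f => ?_
  have h := form_zero (formE g l hl f hc d) (Θ := Th σ θ) (fun γ a b => hσ _) z hz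
  unfold compC
  rw [Finsupp.sum, map_sum]
  rw [Finsupp.sum] at h
  rw [← h]
  refine Finset.sum_congr rfl fun γ _ => ?_
  rw [map_zsmul, fw_Th, PM_one, hlg, one_mul, compT_eT, map_sum, zsmul_eq_mul]
  simp only [eT_comp]

/-- The value of the cycle. -/
noncomputable def valC (δ : Ω →ₗ[K] Ω) (T : Ω →ₗ[K] M) (ρ : A →+* Ω) {d : ℕ}
    (θ : 𝒢 →* Matrix (Fin d) (Fin d) A) {n : ℕ} (z : (Fin (n + 1) → 𝒢) →₀ ℤ) : M :=
  z.sum fun γ a => a • T ((θ ((γ (Fin.last n))⁻¹ * γ 0)).map ρ *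
    (List.ofFn fun i : Fin n => ((θ ((γ i.castSucc)⁻¹ * γ i.succ)).map ρ).map δ).prod).trace

theorem au_wordC (σ : A →+* MonoidAlgebra Ω G) {d : ℕ} (θ : 𝒢 →* Matrix (Fin d) (Fin d) A) {n : ℕ}
    (γ : Fin (n + 1) → 𝒢) : (wordC δ σ θ γ).map (au Ω G) =
      (θ ((γ (Fin.last n))⁻¹ * γ 0)).map ((au Ω G).comp σ) * (List.ofFn fun i : Fin n =>
        ((θ ((γ i.castSucc)⁻¹ * γ i.succ)).map ((au Ω G).comp σ)).map δ).prod := by
  unfold wordC
  rw [Matrix.map_mul]
  congr 1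
  have h1 : ∀ l : List (Matrix (Fin d) (Fin d) (MonoidAlgebra Ω G)),
      l.prod.map (au Ω G) = (l.map fun X => X.map (au Ω G)).prod := fun l =>
    map_list_prod ((au Ω G).mapMatrix) l
  rw [h1, List.map_ofFn]
  congr 2
  funext i
  ext1 a b
  exact au_dh δ _

/-- The value is the component at `1` if all other components vanish. -/
theorem valC_eq (σ : A →+* MonoidAlgebra Ω G) {d : ℕ} (θ : 𝒢 →* Matrix (Fin d) (Fin d) A) {n : ℕ}
    (z : (Fin (n + 1) → 𝒢) →₀ ℤ) (h : ∀ g : G, g ≠ 1 → compC δ T σ θ z g = 0) :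
    valC δ T ((au Ω G).comp σ) θ z = compC δ T σ θ z 1 := by
  classical
  have hval : valC δ T ((au Ω G).comp σ) θ z =
      z.sum fun γ a => a • ∑ i, eT T.toAddMonoidHom (fun _ => 1) (wordC δ σ θ γ i i) := by
    unfold valC
    refine Finsupp.sum_congr fun γ _ => ?_
    rw [← au_wordC, Matrix.trace, map_sum]
    congr 1
    refine Finset.sum_congr rfl fun i _ => ?_
    exact T_auE _
  let S : Finset (ConjClasses G) := z.support.biUnion fun γ =>
    Finset.univ.biUnion fun i => (wordC δ σ θ γ i i).coeff.support.image ConjClasses.mk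
  have h1 : ∀ γ ∈ z.support, ∑ i, eT T.toAddMonoidHom (fun _ => 1) (wordC δ σ θ γ i i) =
      ∑ q ∈ S, compT T (wordC δ σ θ γ) q.out := by
    intro γ hγ
    have h3 : ∀ i, eT T.toAddMonoidHom (fun _ => 1) (wordC δ σ θ γ i i) =
        ∑ q ∈ S, (1 : ℤ) • eT T.toAddMonoidHom (dg q.out) (wordC δ σ θ γ i i) := by
      intro i
      apply eT_cls _ (fun _ => 1) (fun _ _ _ => rfl)
      intro h hh
      exact Finset.mem_biUnion.2 ⟨γ, hγ, Finset.mem_biUnion.2 ⟨i, Finset.mem_univ _,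
        Finset.mem_image_of_mem _ hh⟩⟩
    rw [Finset.sum_congr rfl fun i _ => h3 i, Finset.sum_comm]
    refine Finset.sum_congr rfl fun q _ => ?_
    rw [compT_eT]
    simp only [one_zsmul]
  rw [hval, Finsupp.sum, Finset.sum_congr rfl fun γ hγ => by rw [h1 γ hγ]]
  simp only [Finset.smul_sum]
  rw [Finset.sum_comm]
  have h2 : ∀ q ∈ S, ∑ γ ∈ z.support, z γ • compT T (wordC δ σ θ γ) q.out =
      compC δ T σ θ z q.out := fun q _ => rfl
  rw [Finset.sum_congr rfl h2]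
  have hout : ∀ q : ConjClasses G, ConjClasses.mk q.out = q := fun q => Quotient.out_eq' q
  by_cases h5 : ConjClasses.mk (1 : G) ∈ S
  · have h6 : (ConjClasses.mk (1 : G)).out = 1 := by
      have h7 := hout (ConjClasses.mk (1 : G))
      rw [ConjClasses.mk_eq_mk_iff_isConj] at h7
      exact isConj_one_left.1 h7
    rw [Finset.sum_eq_single (ConjClasses.mk (1 : G)), h6]
    · intro q _ hq
      apply h
      intro h8
      apply hq
      rw [← hout q, h8]
    · intro h8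
      exact absurd h5 h8
  · have h6 : compC δ T σ θ z 1 = 0 := by
      unfold compC
      rw [Finsupp.sum]
      refine Finset.sum_eq_zero fun γ hγ => ?_
      rw [compT_eT]
      have h7 : ∀ i, eT T.toAddMonoidHom (dg 1) (wordC δ σ θ γ i i) = 0 := by
        intro i
        unfold eT
        rw [Finsupp.sum]
        refine Finset.sum_eq_zero fun x hx => ?_
        unfold dg
        rw [if_neg, zero_zsmul]
        intro hx1
        apply h5
        refine Finset.mem_biUnion.2 ⟨γ, hγ, Finset.mem_biUnion.2 ⟨i, Finset.mem_univ _,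
          Finset.mem_image.2 ⟨x, hx, ?_⟩⟩⟩
        rw [ConjClasses.mk_eq_mk_iff_isConj]
        exact hx1.symm
      rw [Finset.sum_eq_zero fun i _ => h7 i, smul_zero]
    rw [h6]
    refine Finset.sum_eq_zero fun q hq => ?_
    apply h
    intro h8
    apply h5
    rw [← h8, hout]
    exact hq

end Pool.Agent.H416.HC
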