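import Pool.Agent.H416.HCe
import Pool.Agent.H416.Cls

/-!
# The part of the elements of finite order
-/

set_option autoImplicit false
set_option linter.unusedSectionVars false

namespace Pool.Agent.H416.HC

open MonoidAlgebra
open Pool.Agent.V11187.DG (Cyc Hm Dm Dm_apply dh dh_coeff dh_single dh_mul Sg eT eT_zero eT_add
  eT_single eT_sum dg compT compT_eT mem_Hm rh rh_mem T1 T1_apply T_auE T1_eT eT_cls compT_one au
  au_rh au_dh)
open Pool.Agent.H416.QE (formE PM PM_one eT_comp torsion_of)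

universe u v w x y z

variable {K : Type u} [CommRing K] {Ω : Type v} [Ring Ω] [Algebra K Ω] {G : Type w} [Group G]
  {M : Type x} [AddCommGroup M] [Module K M] {𝒜 : ℕ → Submodule K Ω} [GradedAlgebra 𝒜]
  {N : ℕ} {δ : Ω →ₗ[K] Ω} {T : Ω →ₗ[K] M} {A : Type y} [Ring A] {𝒢 : Type z} [Group 𝒢]

/-- The part of the elements of finite order of the trace of a matrix over `Ω[G]`. -/
noncomputable def finT (T : Ω →ₗ[K] M) {d : ℕ} (X : Matrix (Fin d) (Fin d) (MonoidAlgebra Ω G)) :
    M :=
  ∑ i, ∑ᶠ (h : G) (_ : IsOfFinOrder h), T ((X i i).coeff h)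

open Classical in
/-- The indicator function of the elements of finite order. -/
noncomputable def fi (h : G) : ℤ := if IsOfFinOrder h then 1 else 0

theorem finT_eT (T : Ω →ₗ[K] M) {d : ℕ} (X : Matrix (Fin d) (Fin d) (MonoidAlgebra Ω G)) :
    finT T X = ∑ i, eT T.toAddMonoidHom fi (X i i) := by
  classical
  unfold finT eT
  refine Finset.sum_congr rfl fun i _ => ?_
  have h1 : ∀ h : G, (∑ᶠ (_ : IsOfFinOrder h), T ((X i i).coeff h)) =
      if IsOfFinOrder h then T ((X i i).coeff h) else 0 := by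
    intro h
    split_ifs with hc
    · exact finsum_eq_if.trans (if_pos hc)
    · exact finsum_eq_if.trans (if_neg hc)
  simp only [h1]
  rw [finsum_eq_sum_of_support_subset (s := (X i i).coeff.support)]
  · refine Finset.sum_congr rfl fun h _ => ?_
    unfold fi
    beta_reduce
    split_ifs
    · rw [one_zsmul]
      rfl
    · rw [zero_zsmul]
  · intro h hh
    rw [Function.mem_support] at hh
    rw [Finset.mem_coe, Finsupp.mem_support_iff]
    intro h0
    apply hh
    rw [h0, map_zero, ite_self]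

theorem isOfFinOrder_conj {a b : G} (h : IsConj a b) : IsOfFinOrder a ↔ IsOfFinOrder b := by
  obtain ⟨c, rfl⟩ := isConj_iff.1 h
  rw [isOfFinOrder_iff_pow_eq_one, isOfFinOrder_iff_pow_eq_one]
  refine exists_congr fun n => and_congr_right fun _ => ?_
  rw [conj_pow]
  constructor
  · intro h
    rw [h]
    group
  · intro h
    have h1 : a ^ n = c⁻¹ * (c * a ^ n * c⁻¹) * c := by group
    rw [h1, h]
    group

/-- A sum over the elements of a set of conjugacy classes and the sum over the rest. -/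
theorem sum_rest {ι : Type*} (s : Finset ι) (c : ι → ℤ) {d : ℕ}
    (X : ι → Matrix (Fin d) (Fin d) (MonoidAlgebra Ω G))
    (h : ∀ g : G, ¬ IsOfFinOrder g → ∑ i ∈ s, c i • compT T (X i) g = 0) :
    ∑ i ∈ s, c i • ∑ j, eT T.toAddMonoidHom (fun _ => 1) (X i j j) =
      ∑ i ∈ s, c i • finT T (X i) := by
  classical
  have hout : ∀ q : ConjClasses G, ConjClasses.mk q.out = q := fun q => Quotient.out_eq' q
  let S : Finset (ConjClasses G) := s.biUnion fun i =>
    Finset.univ.biUnion fun j => (X i j j).coeff.support.image ConjClasses.mk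
  let φ : G → ℤ := fun h => 1 - fi h
  have hφ : ∀ a b : G, IsConj a b → φ a = φ b := by
    intro a b hab
    change 1 - fi a = 1 - fi b
    unfold fi
    by_cases ha : IsOfFinOrder a
    · rw [if_pos ha, if_pos ((isOfFinOrder_conj hab).1 ha)]
    · rw [if_neg ha, if_neg (fun hb => ha ((isOfFinOrder_conj hab).2 hb))]
  have h1 : ∀ i ∈ s, ∑ j, eT T.toAddMonoidHom φ (X i j j) =
      ∑ q ∈ S, φ q.out • compT T (X i) q.out := by
    intro i hi
    have h3 : ∀ j, eT T.toAddMonoidHom φ (X i j j) =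
        ∑ q ∈ S, φ q.out • eT T.toAddMonoidHom (dg q.out) (X i j j) := by
      intro j
      apply eT_cls _ φ hφ
      intro h hh
      exact Finset.mem_biUnion.2 ⟨i, hi, Finset.mem_biUnion.2 ⟨j, Finset.mem_univ _,
        Finset.mem_image_of_mem _ hh⟩⟩
    rw [Finset.sum_congr rfl fun j _ => h3 j, Finset.sum_comm]
    refine Finset.sum_congr rfl fun q _ => ?_
    rw [compT_eT, Finset.smul_sum]
  have h2 : ∑ i ∈ s, c i • ∑ j, eT T.toAddMonoidHom φ (X i j j) = 0 := by
    rw [Finset.sum_congr rfl fun i hi => by rw [h1 i hi]]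
    simp only [Finset.smul_sum]
    rw [Finset.sum_comm]
    refine Finset.sum_eq_zero fun q _ => ?_
    have h4 : ∀ i, c i • φ q.out • compT T (X i) q.out =
        φ q.out • c i • compT T (X i) q.out := fun i => smul_comm _ _ _
    simp only [h4]
    rw [← Finset.smul_sum]
    by_cases h5 : IsOfFinOrder q.out
    · have h6 : φ q.out = 0 := by
        change 1 - fi q.out = 0
        unfold fi
        rw [if_pos h5, sub_self]
      rw [h6, zero_zsmul]
    · rw [h _ h5, zsmul_zero]
  rw [← sub_eq_zero, ← Finset.sum_sub_distrib, ← h2]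
  refine Finset.sum_congr rfl fun i _ => ?_
  rw [← smul_sub, finT_eT, ← Finset.sum_sub_distrib]
  congr 1
  refine Finset.sum_congr rfl fun j _ => ?_
  unfold eT
  rw [← Finsupp.sum_sub]
  refine Finsupp.sum_congr fun x _ => ?_
  change (1 : ℤ) • _ - fi x • _ = (1 - fi x) • _
  rw [sub_zsmul, sub_eq_add_neg]

/-- The part of the elements of finite order of the value on the chain `z`. -/
noncomputable def finC (δ : Ω →ₗ[K] Ω) (T : Ω →ₗ[K] M) (σ : A →+* MonoidAlgebra Ω G) {d : ℕ}
    (θ : 𝒢 →* Matrix (Fin d) (Fin d) A) {n : ℕ} (z : (Fin (n + 1) → 𝒢) →₀ ℤ) : M :=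
  z.sum fun γ a => a • finT T (wordC δ σ θ γ)

theorem valC_fin (σ : A →+* MonoidAlgebra Ω G) {d : ℕ} (θ : 𝒢 →* Matrix (Fin d) (Fin d) A) {n : ℕ}
    (z : (Fin (n + 1) → 𝒢) →₀ ℤ) (h : ∀ g : G, ¬ IsOfFinOrder g → compC δ T σ θ z g = 0) :
    valC δ T ((au Ω G).comp σ) θ z = finC δ T σ θ z := by
  have hval : valC δ T ((au Ω G).comp σ) θ z =
      ∑ γ ∈ z.support, z γ • ∑ i, eT T.toAddMonoidHom (fun _ => 1) (wordC δ σ θ γ i i) := by
    unfold valC
    refine Finset.sum_congr rfl fun γ _ => ?_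
    beta_reduce
    rw [← au_wordC, Matrix.trace, map_sum]
    congr 1
    refine Finset.sum_congr rfl fun i _ => ?_
    exact T_auE _
  rw [hval]
  exact sum_rest z.support z (fun γ => wordC δ σ θ γ) h

/-- If all elements of infinite order have the property `RC`, the value is the contribution of the
elements of finite order. -/
theorem valC_main (hG : ∀ g : G, ¬ IsOfFinOrder g → RC g)
    (hM : ∀ (k : ℤ) (m : M), k ≠ 0 → k • m = 0 → m = 0) {n : ℕ} (hc : Cyc N 𝒜 δ T)
    {σ : A →+* MonoidAlgebra Ω G} (hσ : ∀ a, σ a ∈ Sg 𝒜 G 0) {d : ℕ}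
    (θ : 𝒢 →* Matrix (Fin d) (Fin d) A) (z : (Fin (n + 2) → 𝒢) →₀ ℤ) (hz : IsCyclicCycle z) :
    valC δ T ((au Ω G).comp σ) θ z = finC δ T σ θ z := by
  apply valC_fin
  intro g hg
  obtain ⟨k, hk, hk1⟩ := torsionC (hG g hg) hc hσ θ z hz
  exact hM k _ hk hk1

end Pool.Agent.H416.HC
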