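import Pool.Agent.H416.HCg

/-!
# Rings graded by a group: the coaction, idempotent matrices
-/

set_option autoImplicit false
set_option linter.unusedSectionVars false

namespace Pool.Agent.H416.HC

open MonoidAlgebra
open Pool.Agent.V11187.DG (Cyc Hm Dm Dm_apply dh dh_coeff dh_single dh_mul Sg eT eT_zero eT_add
  eT_single eT_sum dg compT compT_eT mem_Hm T1 T1_apply T_auE T1_eT eT_cls compT_one au
  au_single au_dh single_mem_Sg)
open Pool.Agent.H416.QE (formE PM PM_one eT_comp torsion_of)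

universe u v w x y z

section coaction

variable {G : Type w} [Group G] [DecidableEq G] {S : Type y} [Ring S] (𝒮 : G → AddSubgroup S)
  [DirectSum.Decomposition 𝒮] {Ω : Type v} [Ring Ω]

/-- The coaction as an additive map. -/
noncomputable def coA (ρ : S →+* Ω) : S →+ MonoidAlgebra Ω G :=
  (DirectSum.toAddMonoid fun g : G =>
    ((MonoidAlgebra.singleAddHom g : Ω →+ MonoidAlgebra Ω G).comp
      (ρ : S →+ Ω)).comp (𝒮 g).subtype).comp
    (DirectSum.decomposeAddEquiv 𝒮).toAddMonoidHom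

theorem coA_of (ρ : S →+* Ω) {g : G} {s : S} (hs : s ∈ 𝒮 g) : coA 𝒮 ρ s = single g (ρ s) := by
  unfold coA
  rw [AddMonoidHom.comp_apply]
  change DirectSum.toAddMonoid _ (DirectSum.decompose 𝒮 s) = _
  rw [DirectSum.decompose_of_mem 𝒮 hs, DirectSum.toAddMonoid_of]
  rfl

theorem coA_mul (hmul : ∀ g h : G, ∀ x ∈ 𝒮 g, ∀ y ∈ 𝒮 h, x * y ∈ 𝒮 (g * h)) (ρ : S →+* Ω)
    (a b : S) : coA 𝒮 ρ (a * b) = coA 𝒮 ρ a * coA 𝒮 ρ b := by
  induction a using DirectSum.Decomposition.inductionOn 𝒮 with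
  | zero => rw [zero_mul, map_zero, zero_mul]
  | add a a' ha ha' => rw [add_mul, map_add, ha, ha', map_add, add_mul]
  | @homogeneous g a =>
    induction b using DirectSum.Decomposition.inductionOn 𝒮 with
    | zero => rw [mul_zero, map_zero, mul_zero]
    | add b b' hb hb' => rw [mul_add, map_add, hb, hb', map_add, mul_add]
    | @homogeneous h b =>
      rw [coA_of 𝒮 ρ a.2, coA_of 𝒮 ρ b.2, coA_of 𝒮 ρ (hmul g h _ a.2 _ b.2), single_mul_single,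
        map_mul]

/-- The coaction `s ↦ ∑_g ρ(s_g) g`. -/
noncomputable def co (h1 : (1 : S) ∈ 𝒮 1)
    (hmul : ∀ g h : G, ∀ x ∈ 𝒮 g, ∀ y ∈ 𝒮 h, x * y ∈ 𝒮 (g * h)) (ρ : S →+* Ω) :
    S →+* MonoidAlgebra Ω G where
  toFun := coA 𝒮 ρ
  map_one' := by rw [coA_of 𝒮 ρ h1, map_one]; rfl
  map_mul' := coA_mul 𝒮 hmul ρ
  map_zero' := map_zero _
  map_add' := map_add _

theorem co_apply (h1 : (1 : S) ∈ 𝒮 1)
    (hmul : ∀ g h : G, ∀ x ∈ 𝒮 g, ∀ y ∈ 𝒮 h, x * y ∈ 𝒮 (g * h)) (ρ : S →+* Ω) (s : S) :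
    co 𝒮 h1 hmul ρ s = coA 𝒮 ρ s := rfl

theorem co_coeff (h1 : (1 : S) ∈ 𝒮 1)
    (hmul : ∀ g h : G, ∀ x ∈ 𝒮 g, ∀ y ∈ 𝒮 h, x * y ∈ 𝒮 (g * h)) (ρ : S →+* Ω) (s : S) (g : G) :
    (co 𝒮 h1 hmul ρ s).coeff g = ρ (DirectSum.decompose 𝒮 s g) := by
  rw [co_apply]
  induction s using DirectSum.Decomposition.inductionOn 𝒮 with
  | zero =>
    rw [map_zero, DirectSum.decompose_zero]
    exact (map_zero ρ).symm
  | add a b ha hb =>
    rw [map_add, MonoidAlgebra.coeff_add, Finsupp.add_apply, ha, hb, DirectSum.decompose_add,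
      DirectSum.add_apply, AddSubgroup.coe_add, map_add]
  | @homogeneous h a =>
    rw [coA_of 𝒮 ρ a.2, coeff_single, Finsupp.single_apply]
    split_ifs with hgh
    · subst hgh
      rw [DirectSum.decompose_coe, DirectSum.of_eq_same]
    · rw [DirectSum.decompose_coe, DirectSum.of_eq_of_ne _ _ _ (fun h0 => hgh h0.symm),
        AddSubgroup.coe_zero, map_zero]

theorem au_co (h1 : (1 : S) ∈ 𝒮 1)
    (hmul : ∀ g h : G, ∀ x ∈ 𝒮 g, ∀ y ∈ 𝒮 h, x * y ∈ 𝒮 (g * h)) (ρ : S →+* Ω) :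
    (au Ω G).comp (co 𝒮 h1 hmul ρ) = ρ := by
  ext s
  rw [RingHom.comp_apply, co_apply]
  induction s using DirectSum.Decomposition.inductionOn 𝒮 with
  | zero => rw [map_zero, map_zero, map_zero]
  | add a b ha hb => rw [map_add, map_add, ha, hb, map_add]
  | @homogeneous h a => rw [coA_of 𝒮 ρ a.2, au_single]

variable {K : Type u} [CommRing K] [Algebra K Ω] {𝒜 : ℕ → Submodule K Ω} [GradedAlgebra 𝒜]

theorem co_mem (h1 : (1 : S) ∈ 𝒮 1)
    (hmul : ∀ g h : G, ∀ x ∈ 𝒮 g, ∀ y ∈ 𝒮 h, x * y ∈ 𝒮 (g * h)) {ρ : S →+* Ω}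
    (hρ : ∀ a, ρ a ∈ 𝒜 0) (s : S) : co 𝒮 h1 hmul ρ s ∈ Sg 𝒜 G 0 := by
  intro h
  rw [co_coeff]
  exact hρ _

end coaction

section idem

variable {K : Type u} [CommRing K] {Ω : Type v} [Ring Ω] [Algebra K Ω] {G : Type w} [Group G]
  {M : Type x} [AddCommGroup M] [Module K M] {𝒜 : ℕ → Submodule K Ω} [GradedAlgebra 𝒜]
  {N : ℕ} {δ : Ω →ₗ[K] Ω} {T : Ω →ₗ[K] M} {A : Type y} [Ring A]

/-- The matrix `e (δe) ^ (2 m)` over `Ω[G]`. -/
noncomputable def wordI (δ : Ω →ₗ[K] Ω) (σ : A →+* MonoidAlgebra Ω G) (m : ℕ) {d : ℕ}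
    (e : Matrix (Fin d) (Fin d) A) : Matrix (Fin d) (Fin d) (MonoidAlgebra Ω G) :=
  e.map σ * ((e.map σ).map (dh G δ)) ^ (2 * m)

theorem torsionI {g : G} (hg : RC g) (hc : Cyc N 𝒜 δ T)
    {σ : A →+* MonoidAlgebra Ω G} (hσ : ∀ a, σ a ∈ Sg 𝒜 G 0) {d : ℕ}
    (e : Matrix (Fin d) (Fin d) A) (he : e * e = e) (m : ℕ) :
    ∃ k : ℤ, k ≠ 0 ∧ k • compT T (wordI δ σ m e) g = 0 := by
  obtain ⟨l, hl, hlg⟩ := hg
  refine torsion_of _ fun f => ?_
  have h := (formE g l hl f hc d).main (e := e.map σ) (fun a b => hσ _)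
    (by rw [← Matrix.map_mul, he]) m
  change PM g l _ 1 (wordI δ σ m e) = 0 at h
  rw [PM_one, hlg, one_mul] at h
  rw [compT_eT, map_sum]
  simp only [eT_comp] at h
  exact h

theorem valI_fin (hG : ∀ g : G, ¬ IsOfFinOrder g → RC g)
    (hM : ∀ (k : ℤ) (m : M), k ≠ 0 → k • m = 0 → m = 0) (hc : Cyc N 𝒜 δ T)
    {σ : A →+* MonoidAlgebra Ω G} (hσ : ∀ a, σ a ∈ Sg 𝒜 G 0) {d : ℕ}
    (e : Matrix (Fin d) (Fin d) A) (he : e * e = e) (m : ℕ) :
    T (e.map ((au Ω G).comp σ) * ((e.map ((au Ω G).comp σ)).map δ) ^ (2 * m)).trace =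
      finT T (wordI δ σ m e) := by
  have h := sum_rest (T := T) (G := G) {()} (fun _ => 1) (fun _ : Unit => wordI δ σ m e) (by
    intro g hg
    rw [Finset.sum_singleton, one_smul]
    obtain ⟨k, hk, hk1⟩ := torsionI (hG g hg) hc hσ e he m
    exact hM k _ hk hk1)
  rw [Finset.sum_singleton, Finset.sum_singleton, one_smul, one_smul] at h
  rw [← h]
  have h2 : ∀ X : Matrix (Fin d) (Fin d) (MonoidAlgebra Ω G),
      (X.map (dh G δ)).map (au Ω G) = (X.map (au Ω G)).map δ := by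
    intro X
    ext1 i j
    exact au_dh δ (X i j)
  have h3 : (wordI δ σ m e).map (au Ω G) =
      e.map ((au Ω G).comp σ) * ((e.map ((au Ω G).comp σ)).map δ) ^ (2 * m) := by
    unfold wordI
    rw [Matrix.map_mul]
    have h4 : ∀ (X : Matrix (Fin d) (Fin d) (MonoidAlgebra Ω G)) (k : ℕ),
        (X ^ k).map (au Ω G) = (X.map (au Ω G)) ^ k := fun X k =>
      map_pow ((au Ω G).mapMatrix) X k
    rw [h4, h2]
    rfl
  rw [← h3, Matrix.trace, map_sum]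
  refine Finset.sum_congr rfl fun i _ => ?_
  exact T_auE _

end idem

end Pool.Agent.H416.HC
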