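import Pool.Agent.H416.OD
import Pool.Graph.R_seed8.Y84.PK.O

/-!
# Odd cycles take the same value on an invertible matrix and a group element
-/

set_option autoImplicit false
set_option linter.unusedSectionVars false

namespace Pool.Agent.H416.OS

open Finset Pool.Agent.H23R2 Pool.Agent.H23R2.Cyc
open Pool.Agent.H23R2.Ch (ex ex_single ex_eq_sum ex_one_single tf tf_apply cut cut_comm
  Idl Dif Hm mul_mem_Idl mul_mem_Idl_pow single_eq_smul pr sec sec_single IsCycle Wa_Idl
  Wa_Idl_pow Ev deg_zero_Ev)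
open Pool.Agent.H23R2.Odd (one_symm)
open Pool.Agent.W647.K1 (mp cl cl_iff cl_comm sum_classes)
open Pool.Agent.Y84.PH (Cen cut_cut)
open Pool.Agent.Y84.PK
open scoped Pointwise

universe u1 u2 u3 u4 u5 u6

variable {K : Type u1} [Field K] [CharZero K] {G : Type u2} [Group G]
  {d : Type u3} [Fintype d] [DecidableEq d] {Ω : Type u4} [Ring Ω] [Algebra K Ω]
  {𝒜 : ℕ → Submodule K Ω} [GradedAlgebra 𝒜] {δ : Ω →ₗ[K] Ω} {ρ : MonoidAlgebra K G →ₐ[K] Ω}

/-- The values on the tuples with product different from one vanish. -/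
def Supp1 {M : Type u5} [AddCommGroup M] [Module K M] (N : ℕ) (T : Ω →ₗ[K] M) (δ : Ω →ₗ[K] Ω)
    (ρ : MonoidAlgebra K G →ₐ[K] Ω) : Prop :=
  ∀ (a : G) (l : List G), l.length = N → a * l.prod ≠ 1 →
      T (ρ (MonoidAlgebra.single a 1) *
        (l.map fun b => δ (ρ (MonoidAlgebra.single b 1))).prod) = 0

/-- Scalar valued cycles. -/
theorem all_scalar [hfg : Group.FG G] {T : Ω →ₗ[K] K} (γ : G)
    (u v : Matrix d d (MonoidAlgebra K G)) (huv : u * v = 1) (hvu : v * u = 1)
    (hγ : ∀ φ : G → ℤ, (∀ a b, φ (a * b) = φ a + φ b) →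
      lamk (fun g => (φ g : K)) v u = (φ γ : K))
    {d' : Type u6} [Fintype d'] [DecidableEq d']
    (u' v' : Matrix d' d' (MonoidAlgebra K G)) (huv' : u' * v' = 1) (hvu' : v' * u' = 1)
    (hγ' : ∀ φ : G → ℤ, (∀ a b, φ (a * b) = φ a + φ b) →
      lamk (fun g => (φ g : K)) v' u' = (φ γ : K))
    {n : ℕ} (h : IsCycle (2 * n + 1) 𝒜 δ T) (hρ : ∀ a, ρ a ∈ 𝒜 0) (s : Finset K)
    (hval : ∀ (a : G) (l : List G), l.length = 2 * n + 1 →
      T (ρ (MonoidAlgebra.single a 1) * (l.map fun b => δ (ρ (MonoidAlgebra.single b 1))).prod) ∈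
        Algebra.adjoin ℤ (s : Set K))
    (hG : Supp1 (2 * n + 1) T δ ρ) (htf : ∀ p : ℕ, p.Prime → ∀ g : G, g ^ p = 1 → g = 1) :
    prg n T δ (v.map ρ) (u.map ρ) = prg n T δ (v'.map ρ) (u'.map ρ) := by
  classical
  obtain ⟨τ, hτ, hτ2⟩ := exists_tau h hρ
  have hJ : TrJ K (pr G) n τ := trj_tau h hρ hτ
  have hB : ∀ m, n ≤ m → TrB K (pr G) m τ := by
    intro m hm x hx y hy
    rw [← sub_eq_zero, tau_ext hτ]
    refine T_mul_delta h (i := 0 + 1) (j := 0 + m) (by omega) (Wa_Idl h hρ 0 hx one_Ev) ?_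
    exact Wa_Idl_pow h hρ m hy 0 one_Ev
  have hτs : ∀ w, τ w ∈ Algebra.adjoin ℤ (s : Set K) := by
    intro w
    rcases hτ2 w with h4 | ⟨x, y, hxy, h4⟩
    · rw [h4]
      exact Subalgebra.zero_mem _
    · rw [h4]
      exact ph_mem h hρ x y (Subalgebra.toSubmodule (Algebra.adjoin ℤ (s : Set K))).toAddSubgroup
        (fun a l hl _ => hval a l hl)
  have hzero : ∀ g : G, g ≠ 1 → cut (pr G) (cl g) τ = fun _ => 0 := by
    intro g hg
    funext w
    unfold cut
    split_ifs with h3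
    · rcases hτ2 w with h4 | ⟨x, y, hxy, h4⟩
      · exact h4
      · rw [h4]
        have h5 := ph_mem h hρ x y (⊥ : AddSubgroup K) (fun a l hl hal => by
          rw [AddSubgroup.mem_bot]
          refine hG a l hl ?_
          rw [hal, hxy]
          intro h6
          have h7 := (cl_iff _ _).1 h3
          rw [h6, isConj_one_right] at h7
          exact hg h7)
        exact AddSubgroup.mem_bot.1 h5
    · rfl
  have hdif : ∀ {e : Type u3} [Fintype e] [DecidableEq e] (a b : Matrix e e (MonoidAlgebra K G)),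
      dif (fun _ : FreeMonoid G => (0 : K)) n a b = 0 := by
    intro e _ _ a b
    rw [dif_sub, Pool.Agent.H23R2.Ch.tf_apply]
    refine Finset.sum_eq_zero fun i _ => ?_
    rw [ex_eq_sum]
    exact Finset.sum_eq_zero fun f _ => smul_zero _
  have hdif' : ∀ (a b : Matrix d' d' (MonoidAlgebra K G)),
      dif (fun _ : FreeMonoid G => (0 : K)) n a b = 0 := by
    intro a b
    rw [dif_sub, Pool.Agent.H23R2.Ch.tf_apply]
    refine Finset.sum_eq_zero fun i _ => ?_
    rw [ex_eq_sum]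
    exact Finset.sum_eq_zero fun f _ => smul_zero _
  have hinf : {p : ℕ | p.Prime ∧ ∀ g : G, g ^ p = 1 → g = 1}.Infinite := by
    refine Nat.infinite_setOfPred_prime.mono ?_
    intro p hp
    exact ⟨hp, fun g hg => htf p hp g hg⟩
  rw [← Tm_prg h hρ hτ u v huv, ← Tm_prg h hρ hτ u' v' huv', ← dif_eq, ← dif_eq,
    dif_one τ n u v (fun g hg => by rw [hzero g hg]; exact hdif u v),
    dif_one τ n u' v' (fun g hg => by rw [hzero g hg]; exact hdif' u' v')]
  exact one_field hJ hB s hτs hinf γ u v huv hvu hγ u' v' huv' hvu' hγ'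

variable {M : Type u5} [AddCommGroup M] [Module K M]

/-- Cycles with values in a vector space. -/
theorem all_module [hfg : Group.FG G] {T : Ω →ₗ[K] M} (γ : G)
    (u v : Matrix d d (MonoidAlgebra K G)) (huv : u * v = 1) (hvu : v * u = 1)
    (hγ : ∀ φ : G → ℤ, (∀ a b, φ (a * b) = φ a + φ b) →
      lamk (fun g => (φ g : K)) v u = (φ γ⁻¹ : K))
    {n : ℕ} (h : IsCycle (2 * n + 1) 𝒜 δ T) (hρ : ∀ a, ρ a ∈ 𝒜 0) (s : Finset K) (F : Finset M)
    (hval : ∀ (a : G) (l : List G), l.length = 2 * n + 1 →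
      T (ρ (MonoidAlgebra.single a 1) * (l.map fun b => δ (ρ (MonoidAlgebra.single b 1))).prod) ∈
        Submodule.span (Algebra.adjoin ℤ (s : Set K)) (F : Set M))
    (hG : Supp1 (2 * n + 1) T δ ρ) (htf : ∀ p : ℕ, p.Prime → ∀ g : G, g ^ p = 1 → g = 1) :
    prg n T δ (v.map ρ) (u.map ρ) = gval n T δ ρ γ := by
  classical
  have hg : gval n T δ ρ γ = prg n T δ ((mone (MonoidAlgebra.single γ⁻¹ (1 : K))).map ρ)
      ((mone (MonoidAlgebra.single γ (1 : K))).map ρ) := by
    have h1 : ∀ x : MonoidAlgebra K G, (mone x).map ρ = mone (ρ x) := fun x => rfl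
    rw [h1, h1, prg_mone']
    rfl
  rw [hg, ← sub_eq_zero, ← Module.forall_dual_apply_eq_zero_iff K]
  intro φ
  rw [map_sub, sub_eq_zero]
  refine all_scalar (T := φ ∘ₗ T) (ρ := ρ) γ⁻¹ u v huv hvu hγ
    (mone (MonoidAlgebra.single γ (1 : K))) (mone (MonoidAlgebra.single γ⁻¹ (1 : K)))
    (by
      rw [mone_mul, MonoidAlgebra.single_mul_single, mul_inv_cancel, one_mul,
        ← MonoidAlgebra.one_def, mone_one])
    (by
      rw [mone_mul, MonoidAlgebra.single_mul_single, inv_mul_cancel, one_mul,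
        ← MonoidAlgebra.one_def, mone_one])
    (by
      intro ψ hψ
      unfold lamk
      simp [mone, ex_single])
    (Pool.Agent.H290R4.Chern.cycle_comp φ h) hρ (s ∪ F.image φ) ?_ ?_ htf
  · intro a l hl
    have h2 : ∀ z ∈ Submodule.span (Algebra.adjoin ℤ (s : Set K)) (F : Set M),
        φ z ∈ Algebra.adjoin ℤ ((s ∪ F.image φ : Finset K) : Set K) := by
      intro z hz
      induction hz using Submodule.span_induction with
      | mem z hz =>
        apply Algebra.subset_adjoin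
        have h3 : φ z ∈ s ∪ F.image φ :=
          Finset.mem_union_right _ (Finset.mem_image_of_mem _ (by exact_mod_cast hz))
        exact_mod_cast h3
      | zero =>
        rw [map_zero]
        exact Subalgebra.zero_mem _
      | add a b _ _ ha hb =>
        rw [map_add]
        exact Subalgebra.add_mem _ ha hb
      | smul c a _ ha =>
        have h3 : φ (c • a) = (c : K) * φ a := by
          rw [← smul_eq_mul, ← map_smul]
          rfl
        rw [h3]
        refine Subalgebra.mul_mem _ ?_ ha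
        refine Algebra.adjoin_mono ?_ c.2
        intro y hy
        simp only [Finset.coe_union]
        exact Or.inl hy
    exact h2 _ (hval a l hl)
  · intro a l hl hal
    rw [LinearMap.comp_apply, hG a l hl hal, map_zero]

end Pool.Agent.H416.OS

namespace Pool.Agent.H416.OS

open MonoidAlgebra Pool.Agent.H416.QG
open Pool.Agent.V11187.DG (Cyc trace_odd Sg compT word rh rh_mem T1 T1_apply cyc_T1 rhA value
  value_T1 onM onM_T1 onM_loc onElt onElt_T1 supp dh)
open Pool.Agent.Y84.PK (lamk fo bl_fo pairing_bl)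

universe u v w x

variable {K : Type u} [Field K] [CharZero K] {G : Type w} [Group G]

theorem gamma_int (hG : ∀ g : G, g ≠ 1 → LocRC g) {n : ℕ}
    (u v : Matrix (Fin n) (Fin n) (MonoidAlgebra K G)) (huv : u * v = 1) (hvu : v * u = 1) :
    ∃ γ : G, ∀ φ : G → ℤ, (∀ a b, φ (a * b) = φ a + φ b) →
      lamk (fun g => (φ g : K)) v u = (φ γ⁻¹ : K) := by
  classical
  obtain ⟨γ, hγ⟩ := OD.exists_gamma2 hG u v huv hvu
  refine ⟨γ, fun φ hφ => ?_⟩
  have hφ1 : φ 1 = 0 := by
    have h2 := hφ 1 1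
    rw [mul_one] at h2
    omega
  have hinv : φ γ⁻¹ = - φ γ := by
    have h1 := hφ γ γ⁻¹
    rw [mul_inv_cancel] at h1
    omega
  let ψ : G →* Multiplicative K :=
    { toFun := fun x => Multiplicative.ofAdd (φ x : K)
      map_one' := by
        rw [hφ1, Int.cast_zero]
        rfl
      map_mul' := fun a b => by
        rw [hφ, Int.cast_add]
        rfl }
  have h1 : H219.WhC.pairing (fo (K := K) φ) v u = - lamk (fun g => (φ g : K)) v u := by
    rw [pairing_bl]
    unfold lamk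
    rw [← Finset.sum_neg_distrib]
    refine Finset.sum_congr rfl fun i _ => ?_
    rw [← Finset.sum_neg_distrib]
    refine Finset.sum_congr rfl fun j _ => ?_
    rw [← bl_fo φ hφ]
  have h2 : H219.WhC.pairing (OD.fk ψ) v u = (φ γ : K) := hγ ψ
  have h3 : (OD.fk ψ : G → G → K) = fo (K := K) φ := by
    funext x y
    rfl
  rw [h3, h1] at h2
  rw [hinv, Int.cast_neg, ← h2, neg_neg]

/-- Odd dimensional cycles take the same value on an invertible matrix and a group element. -/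
theorem onM_all [hfg : Group.FG G] (hG : ∀ g : G, g ≠ 1 → LocRC g) {d : ℕ}
    (u v : Matrix (Fin d) (Fin d) (MonoidAlgebra K G)) (huv : u * v = 1) (hvu : v * u = 1) :
    ∃ γ : G, ∀ (Ω : Type v) [Ring Ω] [Algebra K Ω] (𝒜 : ℕ → Submodule K Ω) [GradedAlgebra 𝒜]
      (M : Type x) [AddCommGroup M] [Module K M] (δ : Ω →ₗ[K] Ω) (T : Ω →ₗ[K] M) (n : ℕ),
      Cyc (2 * n + 1) 𝒜 δ T → ∀ ρ : MonoidAlgebra K G →ₐ[K] Ω, (∀ a, ρ a ∈ 𝒜 0) →
      (∃ (s : Finset K) (F : Finset M), ∀ (a : G) (l : List G), l.length = 2 * n + 1 →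
        a * l.prod = 1 → value δ T ρ a l ∈
          Submodule.span (Algebra.adjoin ℤ (s : Set K)) (F : Set M)) →
      onM δ T (ρ : MonoidAlgebra K G →+* Ω) n u v = onElt δ T ρ n γ := by
  classical
  obtain ⟨γ, hγ⟩ := gamma_int hG u v huv hvu
  refine ⟨γ, fun Ω _ _ 𝒜 _ M _ _ δ T n hc ρ hρ hF => ?_⟩
  obtain ⟨s, F, hF⟩ := hF
  have hRC : ∀ g : G, g ≠ 1 → RC g := by
    intro g hg
    have h1 := hG g hg ⊤ Group.FG.out (Subgroup.mem_top g)
    exact RCT.RC.comap (Subgroup.topEquiv (G := G)).symm.toMonoidHom (g := g) h1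
  have hc1 := cyc_T1 (G := G) hc
  have h1 := all_module (Ω := MonoidAlgebra Ω G) (𝒜 := Sg 𝒜 G) (δ := dh G δ) (ρ := rhA ρ)
    (T := T1 G T) γ u v huv hvu hγ (n := n)
    ⟨hc1.deg, hc1.sq, hc1.leibniz, hc1.closed, hc1.trace, hc1.dim⟩ (fun a => rh_mem hρ a) s F
    (fun a l hl => by
      have h2 : T1 G T (rhA ρ (MonoidAlgebra.single a 1) *
          (l.map fun b => dh G δ (rhA ρ (MonoidAlgebra.single b 1))).prod) =
          value (dh G δ) (T1 G T) (rhA ρ) a l := rfl
      rw [h2, value_T1]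
      split_ifs with h3
      · exact hF _ _ hl h3
      · exact Submodule.zero_mem _)
    (fun a l hl hal => by
      have h2 : T1 G T (rhA ρ (MonoidAlgebra.single a 1) *
          (l.map fun b => dh G δ (rhA ρ (MonoidAlgebra.single b 1))).prod) =
          value (dh G δ) (T1 G T) (rhA ρ) a l := rfl
      rw [h2, value_T1, if_neg hal])
    (fun p hp g hg => by
      by_contra hne
      exact (hRC g hne).pow_ne p hp.pos hg)
  rw [onM_loc (trace_odd hc) (ρ : MonoidAlgebra K G →+* Ω) u v]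
  · exact h1.trans (onElt_T1 δ T ρ n γ)
  · intro g hg
    obtain ⟨k, hk, hk1⟩ := torsionM (hRC g hg) hc (ρ := (ρ : MonoidAlgebra K G →+* Ω)) hρ
      u v huv hvu n
    exact no_torsion (K := K) k _ hk hk1

theorem LocRC.sub {g : G} (hg : LocRC g) (H : Subgroup G) (hgH : g ∈ H) : LocRC (⟨g, hgH⟩ : H) := by
  intro H0 hH0 h0
  have hFG : (H0.map H.subtype).FG := by
    obtain ⟨S, hS⟩ := hH0
    classical
    refine ⟨S.image H.subtype, ?_⟩
    rw [Finset.coe_image, ← hS, MonoidHom.map_closure]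
  have h1 := hg (H0.map H.subtype) hFG ⟨⟨g, hgH⟩, h0, rfl⟩
  let e : H0 →* H0.map H.subtype :=
    (H.subtype.comp H0.subtype).codRestrict _ (fun x => ⟨x, x.2, rfl⟩)
  exact RCT.RC.comap e (g := ⟨⟨g, hgH⟩, h0⟩) h1

theorem onM_supp (hG : ∀ g : G, g ≠ 1 → LocRC g) {d : ℕ}
    (u v : Matrix (Fin d) (Fin d) (MonoidAlgebra K G)) (huv : u * v = 1) (hvu : v * u = 1) :
    ∃ γ : G, γ ∈ supp u v ∧
      ∀ (Ω : Type v) [Ring Ω] [Algebra K Ω] (𝒜 : ℕ → Submodule K Ω) [GradedAlgebra 𝒜]
      (M : Type x) [AddCommGroup M] [Module K M] (δ : Ω →ₗ[K] Ω) (T : Ω →ₗ[K] M) (n : ℕ),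
      Cyc (2 * n + 1) 𝒜 δ T → ∀ ρ : MonoidAlgebra K G →ₐ[K] Ω, (∀ a, ρ a ∈ 𝒜 0) →
      (∃ (s : Finset K) (F : Finset M), ∀ (a : supp u v) (l : List (supp u v)),
        l.length = 2 * n + 1 → a * l.prod = 1 → value δ T ρ a (l.map Subtype.val) ∈
          Submodule.span (Algebra.adjoin ℤ (s : Set K)) (F : Set M)) →
      onM δ T (ρ : MonoidAlgebra K G →+* Ω) n u v = onElt δ T ρ n γ := by
  classical
  have hG' : ∀ g : supp u v, g ≠ 1 → LocRC g := fun g hg =>
    LocRC.sub (hG g.1 (fun h => hg (Subtype.ext h))) _ g.2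
  have hfg : (supp u v).FG := supp_fg u v
  generalize hH : supp u v = H at *
  have hfg' : Group.FG H := (Group.fg_iff_subgroup_fg H).2 hfg
  let j : MonoidAlgebra K H →ₐ[K] MonoidAlgebra K G :=
    MonoidAlgebra.mapDomainAlgHom K K H.subtype
  have hj : Function.Injective j := MonoidAlgebra.mapDomain_injective H.subtype_injective
  let res : Matrix (Fin d) (Fin d) (MonoidAlgebra K G) → Matrix (Fin d) (Fin d) (MonoidAlgebra K H) :=
    fun e => Matrix.of fun a b => MonoidAlgebra.comapDomain H.subtype H.subtype_injective (e a b)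
  have hres : ∀ e : Matrix (Fin d) (Fin d) (MonoidAlgebra K G),
      (∀ i j g, (e i j).coeff g ≠ 0 → g ∈ H) → (res e).map j = e := by
    intro e hH
    ext1 a b
    exact Pool.Agent.H290R4.ChernZ.restrict_eq H _ (fun g hg => hH a b g hg)
  have hHu : ∀ i j g, (u i j).coeff g ≠ 0 → g ∈ H := fun i j g hg => by
    rw [← hH]
    exact Subgroup.subset_closure ⟨i, j, Or.inl hg⟩
  have hHv : ∀ i j g, (v i j).coeff g ≠ 0 → g ∈ H := fun i j g hg => by
    rw [← hH]
    exact Subgroup.subset_closure ⟨i, j, Or.inr hg⟩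
  have hinv : ∀ a b : Matrix (Fin d) (Fin d) (MonoidAlgebra K H), a.map j * b.map j = 1 →
      a * b = 1 := by
    intro a b hab
    have h4 : (a * b).map j = (1 : Matrix (Fin d) (Fin d) (MonoidAlgebra K H)).map j := by
      rw [Matrix.map_mul, hab, Matrix.map_one _ (map_zero j) (map_one j)]
    ext1 i i'
    apply hj
    exact congrFun (congrFun h4 i) i'
  have huv' : res u * res v = 1 := hinv _ _ (by rw [hres u hHu, hres v hHv, huv])
  have hvu' : res v * res u = 1 := hinv _ _ (by rw [hres u hHu, hres v hHv, hvu])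
  obtain ⟨γ, hγ⟩ := onM_all.{u, v, w, x} hG' (res u) (res v) huv' hvu'
  refine ⟨γ, γ.2, fun Ω _ _ 𝒜 _ M _ _ δ T n hc ρ hρ hF => ?_⟩
  obtain ⟨s, F, hF⟩ := hF
  have hs : ∀ (b : H) (k : K), j (single b k) = single (b : G) k := fun b k =>
    MonoidAlgebra.mapDomain_single
  have h1 := hγ Ω 𝒜 M δ T n hc (ρ.comp j) (fun a => hρ _) ⟨s, F, fun a l hl hal => by
    have h2 := hF a l hl hal
    unfold value at h2 ⊢
    rw [List.map_map] at h2
    simp only [AlgHom.comp_apply, hs]
    exact h2⟩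
  have h2 : onM δ T ((ρ.comp j : MonoidAlgebra K H →ₐ[K] Ω) : MonoidAlgebra K H →+* Ω) n (res u)
      (res v) = onM δ T (ρ : MonoidAlgebra K G →+* Ω) n u v := by
    have h3 : ∀ e : Matrix (Fin d) (Fin d) (MonoidAlgebra K G),
        (∀ i j g, (e i j).coeff g ≠ 0 → g ∈ H) →
        (res e).map ((ρ.comp j : MonoidAlgebra K H →ₐ[K] Ω) : MonoidAlgebra K H →+* Ω) =
          e.map (ρ : MonoidAlgebra K G →+* Ω) := by
      intro e he
      conv_rhs => rw [← hres e he, Matrix.map_map]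
      rfl
    unfold onM
    rw [h3 u hHu, h3 v hHv]
  have h3 : onElt δ T (ρ.comp j) n γ = onElt δ T ρ n (γ : G) := by
    unfold onElt
    simp only [AlgHom.comp_apply, hs]
    rfl
  rw [← h2, h1, h3]

end Pool.Agent.H416.OS
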