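import Pool.Agent.H416.QG
import Pool.Graph.R_pool_sql_team_seeded_843ab51a.V11187.DT.Ext

/-!
# Traces of idempotent matrices at elements of infinite order in the abelianisation of the centraliser
-/

set_option autoImplicit false
set_option linter.unusedSectionVars false

namespace Pool.Agent.H416.TR

open MonoidAlgebra
open Pool.Agent.Y75.DT (HH cl hs aug sum_hs cl_comm)
open Pool.Agent.Y75.BF (InfOrd)
open Pool.Agent.V11187.DT (ev ev_map dl hs_eq exists_nsmul exists_restrict TrP)
open Pool.Agent.V11187.DG (eT dg)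
open Pool.Agent.H416.QE (trace_idem torsion_of)

universe u v w

variable {A : Type u} [Ring A] {G : Type v} [Group G] {H : Type w} [Group H]

theorem eT_ev (f : HH A →+ ℚ) (g : G) (x : MonoidAlgebra A G) :
    eT (f.comp (cl A)) (dg g) x = f (ev (dl g) x) := by
  unfold eT ev
  rw [Finsupp.sum, Finsupp.sum, map_sum]
  refine Finset.sum_congr rfl fun h _ => ?_
  rw [map_zsmul]
  rfl

/-- The trace at an element of infinite order in the abelianisation of its centraliser is a torsion
element. -/
theorem torsion_hs {g : G} (hg : RC g) {k : ℕ} (e : Matrix (Fin k) (Fin k) (MonoidAlgebra A G))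
    (he : e * e = e) : ∃ n : ℕ, 0 < n ∧ n • hs e g = 0 := by
  obtain ⟨l, hl, hlg⟩ := hg
  obtain ⟨n, hn, h1⟩ := torsion_of (hs e g) fun f => by
    have h2 := trace_idem g l (f.comp (cl A)) hl (fun a b => congrArg f (cl_comm a b)) e he
    rw [hlg, one_mul, Finset.sum_congr rfl fun i _ => eT_ev f g (e i i), ← map_sum, ← hs_eq] at h2
    exact h2
  refine ⟨n.natAbs, Int.natAbs_pos.2 hn, ?_⟩
  rcases Int.natAbs_eq n with h3 | h3
  · rw [h3, natCast_zsmul] at h1
    exact h1
  · rw [h3, neg_zsmul, natCast_zsmul, neg_eq_zero] at h1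
    exact h1

theorem locRC_pow {a : H} (n : ℕ) (h : LocRC (a ^ n)) : LocRC a := by
  intro H0 hH0 hh
  have h1 := h H0 hH0 (pow_mem hh n)
  have e : (⟨a ^ n, pow_mem hh n⟩ : H0) = ⟨a, hh⟩ ^ n := rfl
  rw [e] at h1
  exact RCT.RC.of_pow h1

theorem locRC_one : ¬ LocRC (1 : H) := by
  intro h
  exact RCT.RC.ne_one (h ⊥ ⟨∅, by simp⟩ (one_mem _)) rfl

theorem locRC_conj' {a : H} (c : H) (h : LocRC (c * a * c⁻¹)) : LocRC a := by
  intro H0 hH0 hh
  have hFG : (H0.map (MulAut.conj c).toMonoidHom).FG := by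
    obtain ⟨S, hS⟩ := hH0
    classical
    refine ⟨S.image (MulAut.conj c), ?_⟩
    rw [Finset.coe_image, ← hS, MonoidHom.map_closure]
    rfl
  have h1 := h (H0.map (MulAut.conj c).toMonoidHom) hFG ⟨a, hh, rfl⟩
  let e : H0 →* H0.map (MulAut.conj c).toMonoidHom :=
    ((MulAut.conj c).toMonoidHom.comp H0.subtype).codRestrict _ (fun x => ⟨x, x.2, rfl⟩)
  exact RCT.RC.comap e (g := ⟨a, hh⟩) h1

theorem locRC_isConj {a b : H} (hab : IsConj a b) : LocRC a ↔ LocRC b := by
  have key : ∀ a b : H, IsConj a b → LocRC b → LocRC a := by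
    intro a b hab h
    obtain ⟨c, hc⟩ := isConj_iff.1 hab
    apply locRC_conj' c
    rwa [hc]
  exact ⟨key b a hab.symm, key a b hab⟩

theorem nsmul_locRC {h : H} (hL : LocRC h) {k : ℕ} (e : Matrix (Fin k) (Fin k) (MonoidAlgebra A H))
    (he : e * e = e) : ∃ n : ℕ, 0 < n ∧ n • hs e h = 0 := by
  obtain ⟨H0, hH0, B, hB, hmap⟩ := exists_restrict e he
  have h1 : hs e h = ∑ i, ev (fun x : H0 => dl h x.1) (B i i) := by
    rw [hs_eq, ← hmap]
    exact Finset.sum_congr rfl fun i _ => ev_map H0.subtype (dl h) (B i i)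
  rw [h1]
  apply exists_nsmul
  · intro a b hab
    have hab' : IsConj (a : H) (b : H) := MonoidHom.map_isConj H0.subtype hab
    unfold dl
    by_cases hc : IsConj h a
    · rw [if_pos hc, if_pos (hc.trans hab')]
    · rw [if_neg hc, if_neg (fun hc' => hc (hc'.trans hab'.symm))]
  · intro x hx
    have hc : IsConj h (x : H) := by
      by_contra hcon
      apply hx
      unfold dl
      rw [if_neg hcon]
    exact torsion_hs ((locRC_isConj hc).1 hL H0 hH0 x.2) B hB

theorem trP (hH : ∀ h : H, InfOrd h → LocRC h) : TrP A H :=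
  fun _ e he g hg => nsmul_locRC (hH g hg) e he

/-- Extensions. -/
theorem trP_ext (K : Subgroup H) [K.Normal]
    (hK : ∀ h k : H, k ∈ K → InfOrd h → IsConj h (h * k) ∨ LocRC h ∨ LocRC (h * k))
    (hQ : TrP A (H ⧸ K)) : TrP A H := by
  classical
  intro k e he g hg
  by_cases hd : LocRC g
  · exact nsmul_locRC hd e he
  -- the quotient
  let π : H →* H ⧸ K := QuotientGroup.mk' K
  have hK' : ∀ h k : H, k ∈ K → InfOrd h → ¬ LocRC h → ¬ LocRC (h * k) → IsConj h (h * k) := by
    intro h k hk hh h1 h2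
    rcases hK h k hk hh with h3 | h3 | h3
    · exact h3
    · exact absurd h3 h1
    · exact absurd h3 h2
  have hord : InfOrd (π g) := by
    intro j hj h1
    rw [← map_pow] at h1
    have h2 : g ^ j ∈ K := (QuotientGroup.eq_one_iff _).1 h1
    have h3 := hK' (g ^ j) (g ^ j)⁻¹ (inv_mem h2) (by
      intro n hn h3
      rw [← pow_mul] at h3
      exact hg _ (Nat.mul_pos hj hn) h3) (fun h => hd (locRC_pow j h)) (by
      rw [mul_inv_cancel]
      exact locRC_one)
    rw [mul_inv_cancel] at h3
    exact hg j hj (isConj_one_right.1 h3.symm)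
  have hB : e.map (mapDomainRingHom A π) * e.map (mapDomainRingHom A π) =
      e.map (mapDomainRingHom A π) := by
    rw [← Matrix.map_mul, he]
  obtain ⟨n, hn, h1⟩ := hQ k (e.map (mapDomainRingHom A π)) hB (π g) hord
  have h2 : hs (e.map (mapDomainRingHom A π)) (π g) = ∑ i, ev (fun x => dl (π g) (π x)) (e i i) := by
    rw [hs_eq]
    exact Finset.sum_congr rfl fun i _ => ev_map π (dl (π g)) (e i i)
  obtain ⟨m, hm, h3⟩ := exists_nsmul e (fun x => dl (π g) (π x) - dl g x) (by
    intro a b hab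
    have e1 : dl (π g) (π a) = dl (π g) (π b) := by
      have hab' : IsConj (π a) (π b) := MonoidHom.map_isConj π hab
      unfold dl
      by_cases h : IsConj (π g) (π a)
      · rw [if_pos h, if_pos (h.trans hab')]
      · rw [if_neg h, if_neg (fun h' => h (h'.trans hab'.symm))]
    have e2 : dl g a = dl g b := by
      unfold dl
      by_cases h : IsConj g a
      · rw [if_pos h, if_pos (h.trans hab)]
      · rw [if_neg h, if_neg (fun h' => h (h'.trans hab.symm))]
    rw [e1, e2]) (by
    intro y hy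
    apply nsmul_locRC _ e he
    by_contra hnd
    apply hy
    have h4 : IsConj (π g) (π y) ↔ IsConj g y := by
      refine ⟨fun h4 => ?_, fun h4 => MonoidHom.map_isConj π h4⟩
      obtain ⟨c, hc⟩ := isConj_iff.1 h4.symm
      obtain ⟨c, rfl⟩ := QuotientGroup.mk_surjective c
      have h5 : π (g⁻¹ * (c * y * c⁻¹)) = 1 := by
        rw [map_mul, map_mul, map_mul, map_inv, map_inv, inv_mul_eq_one]
        exact hc.symm
      have h6 : g⁻¹ * (c * y * c⁻¹) ∈ K := (QuotientGroup.eq_one_iff _).1 h5
      have h7 := hK' g _ h6 hg hd (by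
        rw [mul_inv_cancel_left]
        exact fun h => hnd (locRC_conj' c h))
      rw [mul_inv_cancel_left] at h7
      exact h7.trans (isConj_iff.2 ⟨c, rfl⟩ : IsConj y (c * y * c⁻¹)).symm
    unfold dl
    by_cases h5 : IsConj g y
    · rw [if_pos h5, if_pos (h4.2 h5), sub_self]
    · rw [if_neg h5, if_neg (fun h6 => h5 (h4.1 h6)), sub_self])
  refine ⟨m * n, Nat.mul_pos hm hn, ?_⟩
  have h4 : ∑ i, ev (fun x => dl (π g) (π x) - dl g x) (e i i) =
      hs (e.map (mapDomainRingHom A π)) (π g) - hs e g := by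
    rw [h2, hs_eq, ← Finset.sum_sub_distrib]
    refine Finset.sum_congr rfl fun i _ => ?_
    unfold ev
    rw [← Finsupp.sum_sub]
    exact Finsupp.sum_congr fun x _ => sub_smul _ _ _
  rw [h4, nsmul_sub, sub_eq_zero] at h3
  calc (m * n) • hs e g = n • (m • hs e g) := by rw [mul_nsmul]
    _ = m • (n • hs (e.map (mapDomainRingHom A π)) (π g)) := by rw [← h3, ← mul_nsmul, ← mul_nsmul, mul_comm]
    _ = 0 := by rw [h1, nsmul_zero]

section comm

variable {R : Type u} [CommRing R]

theorem cl_inj (a : R) (h : cl R a = 0) : a = 0 := by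
  have h1 : Pool.Agent.Y75.DT.comms R = ⊥ := by
    unfold Pool.Agent.Y75.DT.comms
    rw [AddSubgroup.closure_eq_bot_iff]
    rintro x ⟨a, b, rfl⟩
    rw [mul_comm, sub_self]
    rfl
  have h2 := (QuotientAddGroup.eq_zero_iff a).1 h
  rw [h1] at h2
  exact (AddSubgroup.mem_bot).1 h2

/-- The Bass trace property at an element for the commutative rings without additive torsion. -/
theorem bass (hR : ∀ (n : ℕ) (x : R), 0 < n → n • x = 0 → x = 0) {g : H} (hg : LocRC g) {k : ℕ}
    (e : Matrix (Fin k) (Fin k) (MonoidAlgebra R H)) (he : e * e = e) :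
    ∑ i, ∑ᶠ (h : H) (_ : IsConj h g), (e i i).coeff h = 0 := by
  classical
  obtain ⟨n, hn, h1⟩ := nsmul_locRC hg e he
  have h2 : cl R (∑ i, ∑ᶠ (h : H) (_ : IsConj h g), (e i i).coeff h) = hs e g := by
    unfold hs
    rw [map_sum]
    refine Finset.sum_congr rfl fun i _ => ?_
    have h3 : ∀ h : H, (∑ᶠ (_ : IsConj h g), (e i i).coeff h) =
        if IsConj g h then (e i i).coeff h else 0 := by
      intro h
      by_cases hh : IsConj g h
      · rw [if_pos hh, finsum_eq_single _ hh.symm (fun b hb => absurd rfl hb)]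
      · rw [if_neg hh]
        have : IsEmpty (IsConj h g) := ⟨fun h' => hh h'.symm⟩
        exact finsum_of_isEmpty _
    rw [finsum_congr h3, finsum_eq_sum_of_support_subset (s := (e i i).coeff.support) _ (by
      intro h hh
      rw [Finset.mem_coe, Finsupp.mem_support_iff]
      intro h0
      apply hh
      dsimp only
      rw [h0, ite_self]), map_sum, Finsupp.sum]
    refine Finset.sum_congr rfl fun h _ => ?_
    split_ifs
    · rfl
    · exact map_zero _
  rw [← h2, ← map_nsmul] at h1
  exact hR n _ hn (cl_inj _ h1)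

end comm

end Pool.Agent.H416.TR
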