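import Pool.Agent.H416.QG
import Pool.Agent.H416.Dual

/-!
# Cycles of dimension one given by homomorphisms
-/

set_option autoImplicit false
set_option linter.unusedSectionVars false

namespace Pool.Agent.H416.OD

open MonoidAlgebra Pool.Agent.H416.Dual
open H219.WhC (fh pj mu mu_pj pairing exists_gamma)
open Pool.Agent.Y84.PK (bl bl_add_left bl_add_right bl_zero_left bl_zero_right bl_single pairing_bl)
open Pool.Agent.V11187.DG (Cyc onM word rh rh_single dh dh_single T1 T1_apply compT compT_one)

universe u v w

variable {K : Type u} [Field K] {G : Type w} [Group G] (φ : G →* Multiplicative K)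

/-- The derivation `g ↦ φ(g) g`. -/
noncomputable def dl : MonoidAlgebra K G →ₗ[K] MonoidAlgebra K G where
  toFun x := x.coeff.sum fun g a => single g ((φ g).toAdd * a)
  map_add' x y := by
    rw [MonoidAlgebra.coeff_add]
    exact Finsupp.sum_add_index' (by intro q; simp)
      (by intro q a b; rw [mul_add, MonoidAlgebra.single_add])
  map_smul' c x := by
    rw [MonoidAlgebra.coeff_smul, Finsupp.sum_smul_index' (by intro q; simp), RingHom.id_apply,
      Finsupp.smul_sum]
    refine Finsupp.sum_congr fun g _ => ?_
    rw [MonoidAlgebra.smul_single, smul_eq_mul, smul_eq_mul]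
    congr 1
    ring

theorem dl_single (g : G) (a : K) :
    dl φ (single g a) = single g ((φ g).toAdd * a) := by
  change (single g a : MonoidAlgebra K G).coeff.sum (fun g a => single g ((φ g).toAdd * a)) = _
  rw [coeff_single]
  exact Finsupp.sum_single_index (by simp)

theorem dl_mul (x y : MonoidAlgebra K G) : dl φ (x * y) = dl φ x * y + x * dl φ y := by
  induction x using MonoidAlgebra.induction_linear with
  | zero => simp
  | add x x' hx hx' => rw [add_mul, map_add, hx, hx', map_add, add_mul, add_mul]; abel
  | single g a =>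
    induction y using MonoidAlgebra.induction_linear with
    | zero => simp
    | add y y' hy hy' => rw [mul_add, map_add, hy, hy', map_add, mul_add, mul_add]; abel
    | single h b =>
      rw [single_mul_single, dl_single, dl_single, dl_single, single_mul_single, single_mul_single,
        ← single_add, map_mul, toAdd_mul]
      congr 1
      ring

open Classical in
/-- The sum of the coefficients over the kernel of all homomorphisms to `K`. -/
noncomputable def tN (K : Type u) [Field K] (G : Type w) [Group G] : MonoidAlgebra K G →ₗ[K] K where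
  toFun x := x.coeff.sum fun g a => if pj K G g = 1 then a else 0
  map_add' x y := by
    rw [MonoidAlgebra.coeff_add]
    refine Finsupp.sum_add_index' (by intro q; simp) ?_
    intro q a b
    split_ifs
    · rfl
    · rw [add_zero]
  map_smul' c x := by
    rw [MonoidAlgebra.coeff_smul, Finsupp.sum_smul_index' (by intro q; simp), RingHom.id_apply,
      smul_eq_mul, Finsupp.mul_sum]
    refine Finsupp.sum_congr fun g _ => ?_
    split_ifs
    · rw [smul_eq_mul]
    · rw [mul_zero]

open Classical in
theorem tN_single (g : G) (a : K) : tN K G (single g a) = if pj K G g = 1 then a else 0 := by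
  change (single g a : MonoidAlgebra K G).coeff.sum (fun g a => if pj K G g = 1 then a else 0) = _
  rw [coeff_single]
  exact Finsupp.sum_single_index (by simp)

theorem tN_comm (x y : MonoidAlgebra K G) : tN K G (x * y) = tN K G (y * x) := by
  classical
  induction x using MonoidAlgebra.induction_linear with
  | zero => simp
  | add x x' hx hx' => rw [add_mul, map_add, hx, hx', mul_add, map_add]
  | single g a =>
    induction y using MonoidAlgebra.induction_linear with
    | zero => simp
    | add y y' hy hy' => rw [mul_add, map_add, hy, hy', add_mul, map_add]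
    | single h b =>
      rw [single_mul_single, single_mul_single, tN_single, tN_single, map_mul, map_mul,
        mul_comm (pj K G g), mul_comm a b]

variable [CharZero K]

theorem tN_dl (x : MonoidAlgebra K G) : tN K G (dl φ x) = 0 := by
  classical
  induction x using MonoidAlgebra.induction_linear with
  | zero => simp
  | add x x' hx hx' => rw [map_add, map_add, hx, hx', add_zero]
  | single g a =>
    rw [dl_single, tN_single]
    split_ifs with h
    · have h1 := mu_pj φ g
      rw [h, map_one] at h1
      rw [← h1]
      exact zero_mul a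
    · rfl

theorem tN_bl (x y : MonoidAlgebra K G) : tN K G (x * dl φ y) = bl (fh φ) x y := by
  classical
  induction x using MonoidAlgebra.induction_linear with
  | zero => rw [zero_mul, map_zero, bl_zero_left]
  | add x x' hx hx' => rw [add_mul, map_add, hx, hx', bl_add_left]
  | single g a =>
    induction y using MonoidAlgebra.induction_linear with
    | zero => rw [map_zero, mul_zero, map_zero, bl_zero_right]
    | add y y' hy hy' => rw [map_add, mul_add, map_add, hy, hy', bl_add_right]
    | single h b =>
      rw [dl_single, single_mul_single, tN_single, bl_single]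
      unfold fh
      split_ifs
      · rw [smul_eq_mul]; ring
      · rw [smul_zero]

/-- The differential of the dual numbers. -/
noncomputable def dd : DN (MonoidAlgebra K G) →ₗ[K] DN (MonoidAlgebra K G) where
  toFun x := TrivSqZeroExt.inr (dl φ x.fst)
  map_add' x y := by rw [TrivSqZeroExt.fst_add, map_add, TrivSqZeroExt.inr_add]
  map_smul' c x := by
    rw [TrivSqZeroExt.fst_smul, map_smul, TrivSqZeroExt.inr_smul, RingHom.id_apply]

/-- The closed graded trace. -/
noncomputable def tt (K : Type u) [Field K] (G : Type w) [Group G] :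
    DN (MonoidAlgebra K G) →ₗ[K] K where
  toFun x := tN K G x.snd
  map_add' x y := by rw [TrivSqZeroExt.snd_add, map_add]
  map_smul' c x := by rw [TrivSqZeroExt.snd_smul, map_smul, RingHom.id_apply]

theorem dd_apply (x : DN (MonoidAlgebra K G)) : dd φ x = TrivSqZeroExt.inr (dl φ x.fst) := rfl

theorem tt_apply (x : DN (MonoidAlgebra K G)) : tt K G x = tN K G x.snd := rfl

theorem cyc_dd : Cyc 1 (gr K (MonoidAlgebra K G)) (dd φ) (tt K G) where
  deg := by
    intro i x hx
    match i with
    | 0 =>
      rw [zero_add, mem_one, dd_apply, TrivSqZeroExt.fst_inr]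
    | 1 =>
      rw [mem_one] at hx
      change dd φ x ∈ gr K _ (0 + 2)
      rw [mem_two, dd_apply, hx, map_zero, TrivSqZeroExt.inr_zero]
    | i + 2 =>
      rw [mem_two] at hx
      rw [hx, map_zero]
      exact Submodule.zero_mem _
  sq := by
    intro x
    rw [dd_apply, dd_apply, TrivSqZeroExt.fst_inr, map_zero, TrivSqZeroExt.inr_zero]
  leibniz := by
    intro i x hx y
    match i with
    | 0 =>
      rw [mem_zero] at hx
      rw [pow_zero, one_mul, dd_apply, dd_apply, dd_apply, TrivSqZeroExt.fst_mul, dl_mul,
        TrivSqZeroExt.inr_add]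
      congr 1
      · apply TrivSqZeroExt.ext
        · rw [TrivSqZeroExt.fst_inr, TrivSqZeroExt.fst_mul, TrivSqZeroExt.fst_inr, zero_mul]
        · rw [TrivSqZeroExt.snd_inr, TrivSqZeroExt.snd_mul, TrivSqZeroExt.fst_inr,
            TrivSqZeroExt.snd_inr, zero_smul, zero_add]
          rfl
      · apply TrivSqZeroExt.ext
        · rw [TrivSqZeroExt.fst_inr, TrivSqZeroExt.fst_mul, TrivSqZeroExt.fst_inr, mul_zero]
        · rw [TrivSqZeroExt.snd_inr, TrivSqZeroExt.snd_mul, TrivSqZeroExt.fst_inr,
            TrivSqZeroExt.snd_inr, MulOpposite.op_zero, zero_smul, add_zero]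
          rfl
    | 1 =>
      rw [mem_one] at hx
      have h1 : dd φ x = 0 := by rw [dd_apply, hx, map_zero, TrivSqZeroExt.inr_zero]
      have h2 : dd φ (x * y) = 0 := by
        rw [dd_apply, TrivSqZeroExt.fst_mul, hx, zero_mul, map_zero, TrivSqZeroExt.inr_zero]
      have h3 : x * dd φ y = 0 := by
        apply TrivSqZeroExt.ext
        · rw [TrivSqZeroExt.fst_mul, hx, zero_mul, TrivSqZeroExt.fst_zero]
        · rw [TrivSqZeroExt.snd_mul, hx, dd_apply, TrivSqZeroExt.fst_inr, TrivSqZeroExt.snd_inr,
            zero_smul, MulOpposite.op_zero, zero_smul, add_zero, TrivSqZeroExt.snd_zero]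
      rw [h1, h2, h3, zero_mul, mul_zero, add_zero]
    | i + 2 =>
      rw [mem_two] at hx
      rw [hx, zero_mul, map_zero, zero_mul, zero_mul, mul_zero, add_zero]
  closed := by
    intro x
    rw [dd_apply, tt_apply, TrivSqZeroExt.snd_inr, tN_dl]
  trace := by
    have hz : ∀ x y : DN (MonoidAlgebra K G), x.snd = 0 → tt K G (x * y) = tN K G (x.fst * y.snd) ∧
        tt K G (y * x) = tN K G (y.snd * x.fst) := by
      intro x y hx
      constructor
      · rw [tt_apply, TrivSqZeroExt.snd_mul, hx, smul_zero, add_zero]
        rfl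
      · rw [tt_apply, TrivSqZeroExt.snd_mul, hx, smul_zero, zero_add]
        rfl
    intro i j x hx y hy
    match i, j with
    | 0, j =>
      rw [mem_zero] at hx
      rw [zero_mul, pow_zero, one_mul, (hz x y hx).1, (hz x y hx).2, tN_comm]
    | i, 0 =>
      rw [mem_zero] at hy
      rw [mul_zero, pow_zero, one_mul, (hz y x hy).1, (hz y x hy).2, tN_comm]
    | 1, 1 =>
      rw [mem_one] at hx hy
      have h1 : ∀ a b : DN (MonoidAlgebra K G), a.fst = 0 → b.fst = 0 → a * b = 0 := by
        intro a b ha hb
        apply TrivSqZeroExt.ext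
        · rw [TrivSqZeroExt.fst_mul, ha, zero_mul, TrivSqZeroExt.fst_zero]
        · rw [TrivSqZeroExt.snd_mul, ha, hb, zero_smul, MulOpposite.op_zero, zero_smul, add_zero,
            TrivSqZeroExt.snd_zero]
      rw [h1 x y hx hy, h1 y x hy hx, mul_zero]
    | i + 2, j =>
      rw [mem_two] at hx
      rw [hx, zero_mul, mul_zero, mul_zero]
    | i, j + 2 =>
      rw [mem_two] at hy
      rw [hy, zero_mul, mul_zero, mul_zero]
  dim := by
    intro i hi x hx
    match i with
    | 0 =>
      rw [mem_zero] at hx
      rw [tt_apply, hx, map_zero]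
    | 1 => exact absurd rfl hi
    | i + 2 =>
      rw [mem_two] at hx
      rw [hx, map_zero]

/-- The inclusion. -/
noncomputable abbrev rr (K : Type u) [Field K] (G : Type w) [Group G] :
    MonoidAlgebra K G →+* DN (MonoidAlgebra K G) :=
  TrivSqZeroExt.inlHom (MonoidAlgebra K G) (MonoidAlgebra K G)

theorem rr_mem (a : MonoidAlgebra K G) : rr K G a ∈ gr K (MonoidAlgebra K G) 0 := by
  rw [mem_zero]
  exact TrivSqZeroExt.snd_inl _ a

theorem tt_mul (x y : MonoidAlgebra K G) :
    tt K G (rr K G x * dd φ (rr K G y)) = tN K G (x * dl φ y) := by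
  rw [tt_apply, TrivSqZeroExt.snd_mul, dd_apply, TrivSqZeroExt.snd_inr, TrivSqZeroExt.fst_inr]
  change tN K G (x * dl φ y + _) = _
  rw [MulOpposite.op_zero, zero_smul, add_zero]

/-- The value of the cycle. -/
theorem onM_dd {n : ℕ} (u v : Matrix (Fin n) (Fin n) (MonoidAlgebra K G)) :
    onM (dd φ) (tt K G) (rr K G) 0 u v = pairing (fh φ) v u := by
  unfold onM
  rw [pow_zero, mul_one, Matrix.trace, map_sum, pairing_bl]
  refine Finset.sum_congr rfl fun i _ => ?_
  rw [Matrix.diag_apply, Matrix.mul_apply, map_sum]
  refine Finset.sum_congr rfl fun j _ => ?_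
  rw [← tN_bl, ← tt_mul]
  rfl

open Classical in
/-- The cocycle with support at one. -/
noncomputable def fk : G → G → K := fun x y => if x * y = 1 then (φ y).toAdd else 0

theorem T1_bl (x y : MonoidAlgebra K G) :
    T1 G (tt K G) (rh (rr K G) x * dh G (dd φ) (rh (rr K G) y)) = bl (fk φ) x y := by
  classical
  induction x using MonoidAlgebra.induction_linear with
  | zero => rw [map_zero, zero_mul, map_zero, bl_zero_left]
  | add x x' hx hx' => rw [map_add, add_mul, map_add, hx, hx', bl_add_left]
  | single g a =>
    induction y using MonoidAlgebra.induction_linear with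
    | zero => rw [map_zero, map_zero, mul_zero, map_zero, bl_zero_right]
    | add y y' hy hy' => rw [map_add, map_add, mul_add, map_add, hy, hy', bl_add_right]
    | single h b =>
      rw [rh_single, rh_single, dh_single, single_mul_single, T1_apply, coeff_single,
        Finsupp.single_apply, bl_single]
      unfold fk
      by_cases hgh : g * h = 1
      · rw [if_pos hgh, if_pos hgh, tt_mul, dl_single, single_mul_single, hgh, tN_single, map_one,
          if_pos rfl, smul_eq_mul]
        ring
      · rw [if_neg hgh, if_neg hgh, map_zero, smul_zero]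

/-- The component at one of the value of the cycle. -/
theorem comp_dd {n : ℕ} (u v : Matrix (Fin n) (Fin n) (MonoidAlgebra K G)) :
    compT (tt K G) (word (dd φ) (rr K G) 0 u v) 1 = pairing (fk φ) v u := by
  rw [compT_one]
  unfold word
  rw [pow_zero, mul_one, Matrix.trace, map_sum, pairing_bl]
  refine Finset.sum_congr rfl fun i _ => ?_
  rw [Matrix.diag_apply, Matrix.mul_apply, map_sum]
  refine Finset.sum_congr rfl fun j _ => ?_
  rw [← T1_bl]
  rfl

/-- **The group element.** -/
theorem exists_gamma2 (hG : ∀ g : G, g ≠ 1 → LocRC g) {n : ℕ}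
    (u v : Matrix (Fin n) (Fin n) (MonoidAlgebra K G)) (huv : u * v = 1) (hvu : v * u = 1) :
    ∃ γ : G, ∀ φ : G →* Multiplicative K, pairing (fk φ) v u = (φ γ).toAdd := by
  obtain ⟨γ, hγ⟩ := exists_gamma (K := K) (⟨u, v, huv, hvu⟩ : (Matrix (Fin n) (Fin n) _)ˣ)
  refine ⟨γ, fun φ => ?_⟩
  rw [← hγ φ, ← comp_dd]
  change _ = pairing (fh φ) v u
  rw [← onM_dd]
  exact (QG.onM_one hG (fun k z hk hz => QG.no_torsion (K := K) k z hk hz) (n := 0) (cyc_dd φ)
    rr_mem u v huv hvu).symm

end Pool.Agent.H416.OD
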