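import Pool.Graph.R_pool_sql_team_seeded_843ab51a.V11187.DG.EvG
import Pool.Agent.H416.RC

/-!
# Components of cycles at elements of infinite order in the abelianisation of the centraliser

The argument of `Pool.Agent.V11187.DG` for integer valued functions, for functions with rational
values.
-/

set_option autoImplicit false
set_option linter.unusedSectionVars false

namespace Pool.Agent.H416.QE

open MonoidAlgebra
open Pool.Agent.Y75.DT (cs cs_spec cs_mul comm_cs conj_mem)
open Pool.Agent.V11187.DG (Form FormE Hm Dm Dm_apply dh dh_coeff dh_single dh_mul Sg Sg_induction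
  mem_Sg single_mem_Sg one_mem_Sg mul_mem_Sg Cyc neg_pow_mul trace_odd eT eT_zero eT_add eT_single dg
  compT compT_eT wordE word mem_Hm rh rh_mem T1 T1_apply cyc_T1 rhA value value_T1 onI onM onI_T1
  onM_T1 onI_loc onM_loc wordE_mapDomain word_mapDomain dh_mapDomain rh_mapDomain compT_one
  restrict_pair onElt onElt_T1 suppE suppE_fg supp)

universe u v w x y

section cocycle

variable {G : Type w} [Group G] (g : G) (l : G → ℚ)
  (hl : ∀ a b : G, a * g = g * a → b * g = g * b → l (a * b) = l a + l b)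

/-- The cocycle. -/
noncomputable def ct (y h : G) : ℚ := l ((cs g (y * h * y⁻¹))⁻¹ * y * cs g h)

include hl in
theorem ct_mul {y z h : G} (hh : IsConj g h) :
    ct g l (y * z) h = ct g l y (z * h * z⁻¹) + ct g l z h := by
  unfold ct
  have e1 : (y * z) * h * (y * z)⁻¹ = y * (z * h * z⁻¹) * y⁻¹ := by group
  rw [e1, ← hl _ _ (comm_cs g (conj_mem g hh)) (comm_cs g hh)]
  congr 1
  group

theorem ct_self {h : G} (hh : IsConj g h) : ct g l h h = l g := by
  unfold ct
  have e1 : h * h * h⁻¹ = h := by group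
  have h1 := cs_mul g hh
  rw [e1]
  congr 1
  rw [mul_assoc, ← h1]
  group

include hl in
/-- The cyclic cocycle identity. -/
theorem ct_cyc {y z w : G} (hh : IsConj g (y * (z * w))) :
    ct g l (z * w) (y * (z * w)) = ct g l z (w * y * z) + ct g l w (y * z * w) := by
  rw [ct_mul g l hl hh]
  have e1 : w * (y * (z * w)) * w⁻¹ = w * y * z := by group
  have e2 : y * (z * w) = y * z * w := by group
  rw [e1, e2]

end cocycle

section Form

variable {Ω : Type v} [Ring Ω] {G : Type w} [Group G] (g : G) (l : G → ℚ) (T : Ω →+ ℚ)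

open Classical in
/-- The bilinear form. -/
noncomputable def PT (a b : MonoidAlgebra Ω G) : ℚ :=
  a.coeff.sum fun y r => b.coeff.sum fun z s =>
    if IsConj g (y * z) then ct g l z (y * z) * T (r * s) else 0

theorem PT_add_left (a a' b : MonoidAlgebra Ω G) :
    PT g l T (a + a') b = PT g l T a b + PT g l T a' b := by
  unfold PT
  rw [MonoidAlgebra.coeff_add, Finsupp.sum_add_index']
  · intro y
    simp [Finsupp.sum]
  · intro y r r'
    rw [← Finsupp.sum_add]
    refine Finsupp.sum_congr fun z _ => ?_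
    split_ifs with h
    · rw [add_mul, map_add, mul_add]
    · rw [add_zero]

theorem PT_add_right (a b b' : MonoidAlgebra Ω G) :
    PT g l T a (b + b') = PT g l T a b + PT g l T a b' := by
  unfold PT
  rw [← Finsupp.sum_add]
  refine Finsupp.sum_congr fun y _ => ?_
  rw [MonoidAlgebra.coeff_add, Finsupp.sum_add_index']
  · intro z
    simp
  · intro z s s'
    split_ifs with h
    · rw [mul_add, map_add, mul_add]
    · rw [add_zero]

theorem PT_zero_left (b : MonoidAlgebra Ω G) : PT g l T 0 b = 0 := by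
  have := PT_add_left g l T (0 : MonoidAlgebra Ω G) 0 b
  rw [add_zero] at this
  exact left_eq_add.1 this

theorem PT_zero_right (a : MonoidAlgebra Ω G) : PT g l T a 0 = 0 := by
  have := PT_add_right g l T a (0 : MonoidAlgebra Ω G) 0
  rw [add_zero] at this
  exact left_eq_add.1 this

open Classical in
theorem PT_single (y z : G) (r s : Ω) :
    PT g l T (MonoidAlgebra.single y r) (MonoidAlgebra.single z s) =
      if IsConj g (y * z) then ct g l z (y * z) * T (r * s) else 0 := by
  unfold PT
  rw [MonoidAlgebra.coeff_single, MonoidAlgebra.coeff_single, Finsupp.sum_single_index,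
    Finsupp.sum_single_index]
  · simp
  · simp

theorem PT_one (a : MonoidAlgebra Ω G) : PT g l T 1 a = l g * eT T (dg g) a := by
  classical
  induction a using MonoidAlgebra.induction_linear with
  | zero => rw [PT_zero_right, eT_zero, mul_zero]
  | add x y hx hy => rw [PT_add_right, hx, hy, eT_add, mul_add]
  | single h r =>
    rw [MonoidAlgebra.one_def, PT_single, eT_single, one_mul, one_mul]
    unfold dg
    split_ifs with hh
    · rw [ct_self g l hh, one_zsmul]
    · rw [zero_zsmul, mul_zero]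

/-- The form on matrices. -/
noncomputable def PM {d : ℕ} (A A' : Matrix (Fin d) (Fin d) (MonoidAlgebra Ω G)) : ℚ :=
  ∑ i, ∑ j, PT g l T (A i j) (A' j i)

theorem PT_sum_left {ι : Type*} (s : Finset ι) (f : ι → MonoidAlgebra Ω G)
    (b : MonoidAlgebra Ω G) : PT g l T (∑ i ∈ s, f i) b = ∑ i ∈ s, PT g l T (f i) b := by
  classical
  induction s using Finset.induction_on with
  | empty => rw [Finset.sum_empty, Finset.sum_empty, PT_zero_left]
  | insert i s hi ih => rw [Finset.sum_insert hi, Finset.sum_insert hi, PT_add_left, ih]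

theorem PT_sum_right {ι : Type*} (s : Finset ι) (f : ι → MonoidAlgebra Ω G)
    (b : MonoidAlgebra Ω G) : PT g l T b (∑ i ∈ s, f i) = ∑ i ∈ s, PT g l T b (f i) := by
  classical
  induction s using Finset.induction_on with
  | empty => rw [Finset.sum_empty, Finset.sum_empty, PT_zero_right]
  | insert i s hi ih => rw [Finset.sum_insert hi, Finset.sum_insert hi, PT_add_right, ih]

theorem PM_one {d : ℕ} (A : Matrix (Fin d) (Fin d) (MonoidAlgebra Ω G)) :
    PM g l T 1 A = l g * ∑ i, eT T (dg g) (A i i) := by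
  classical
  unfold PM
  rw [Finset.mul_sum]
  refine Finset.sum_congr rfl fun i _ => ?_
  rw [Finset.sum_eq_single i]
  · rw [Matrix.one_apply_eq, PT_one g l]
  · intro j _ hj
    rw [Matrix.one_apply_ne (Ne.symm hj), PT_zero_left]
  · intro h
    exact absurd (Finset.mem_univ i) h

theorem PM_add_left {d : ℕ} (A A' B : Matrix (Fin d) (Fin d) (MonoidAlgebra Ω G)) :
    PM g l T (A + A') B = PM g l T A B + PM g l T A' B := by
  unfold PM
  rw [← Finset.sum_add_distrib]
  refine Finset.sum_congr rfl fun i _ => ?_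
  rw [← Finset.sum_add_distrib]
  refine Finset.sum_congr rfl fun j _ => ?_
  rw [Matrix.add_apply, PT_add_left]

theorem PM_add_right {d : ℕ} (A B B' : Matrix (Fin d) (Fin d) (MonoidAlgebra Ω G)) :
    PM g l T A (B + B') = PM g l T A B + PM g l T A B' := by
  unfold PM
  rw [← Finset.sum_add_distrib]
  refine Finset.sum_congr rfl fun i _ => ?_
  rw [← Finset.sum_add_distrib]
  refine Finset.sum_congr rfl fun j _ => ?_
  rw [Matrix.add_apply, PT_add_right]

/-- The conjugacy class of `w y z` and `y (z w)`. -/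
theorem conj_rot (y z w : G) : IsConj g (w * y * z) ↔ IsConj g (y * (z * w)) := by
  have e1 : w * y * z = w * (y * (z * w)) * w⁻¹ := by group
  rw [e1]
  constructor
  · intro h
    have := conj_mem g (y := w⁻¹) h
    have e3 : w⁻¹ * (w * (y * (z * w)) * w⁻¹) * w⁻¹⁻¹ = y * (z * w) := by group
    rwa [e3] at this
  · exact conj_mem g

section trace

variable (hl : ∀ a b : G, a * g = g * a → b * g = g * b → l (a * b) = l a + l b)

include hl in
theorem PT_cyc_single {y z w : G} {r s t : Ω} {ε : ℤ}
    (h : T (r * (s * t)) = ε • T (t * r * s)) :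
    PT g l T (single y r) (single z s * single w t) =
      ε • PT g l T (single w t * single y r) (single z s) +
        PT g l T (single y r * single z s) (single w t) := by
  classical
  rw [MonoidAlgebra.single_mul_single, MonoidAlgebra.single_mul_single,
    MonoidAlgebra.single_mul_single, PT_single, PT_single, PT_single]
  have e2 : y * z * w = y * (z * w) := by group
  have h1 := conj_rot g y z w
  by_cases hcj : IsConj g (y * (z * w))
  · rw [if_pos hcj, if_pos (h1.2 hcj), if_pos (by rw [e2]; exact hcj), ct_cyc g l hl hcj, add_mul,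
      mul_assoc r s t]
    congr 1
    rw [h, mul_smul_comm]
  · rw [if_neg hcj, if_neg (fun h => hcj (h1.1 h)), if_neg (by rw [e2]; exact hcj), smul_zero,
      add_zero]

include hl in
theorem PT_cyc_tr (hT : ∀ a b : Ω, T (a * b) = T (b * a)) (a b c : MonoidAlgebra Ω G) :
    PT g l T a (b * c) = PT g l T (c * a) b + PT g l T (a * b) c := by
  classical
  induction a using MonoidAlgebra.induction_linear with
  | zero => simp only [mul_zero, zero_mul, PT_zero_left, add_zero]
  | add x y hx hy =>
    rw [PT_add_left, hx, hy, mul_add, add_mul, PT_add_left, PT_add_left]; ring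
  | single y r =>
  induction b using MonoidAlgebra.induction_linear with
  | zero => simp only [mul_zero, zero_mul, PT_zero_left, PT_zero_right, add_zero]
  | add x y hx hy =>
    rw [add_mul, PT_add_right, hx, hy, mul_add, PT_add_left, PT_add_right]; ring
  | single z s =>
  induction c using MonoidAlgebra.induction_linear with
  | zero => simp only [mul_zero, zero_mul, PT_zero_left, PT_zero_right, add_zero]
  | add x y hx hy =>
    rw [mul_add, PT_add_right, hx, hy, add_mul, PT_add_left, PT_add_right]; ring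
  | single w t =>
  have h := PT_cyc_single g l T hl (y := y) (z := z) (w := w) (r := r) (s := s) (t := t) (ε := 1) (by
    rw [one_smul, mul_assoc t r s, hT t (r * s), mul_assoc r s t])
  rwa [one_smul] at h

theorem PM_cyc_aux {d : ℕ} {ε : ℤ} {A A' A'' : Matrix (Fin d) (Fin d) (MonoidAlgebra Ω G)}
    (h : ∀ x y z, PT g l T (A x y) (A' y z * A'' z x) =
      ε • PT g l T (A'' z x * A x y) (A' y z) + PT g l T (A x y * A' y z) (A'' z x)) :
    PM g l T A (A' * A'') = ε • PM g l T (A'' * A) A' + PM g l T (A * A') A'' := by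
  have h1 : PM g l T A (A' * A'') =
      ∑ x, ∑ y, ∑ z, (ε • PT g l T (A'' z x * A x y) (A' y z) +
        PT g l T (A x y * A' y z) (A'' z x)) := by
    unfold PM
    refine Finset.sum_congr rfl fun x _ => Finset.sum_congr rfl fun y _ => ?_
    rw [Matrix.mul_apply, PT_sum_right]
    exact Finset.sum_congr rfl fun z _ => h x y z
  have h2 : PM g l T (A'' * A) A' =
      ∑ x, ∑ y, ∑ z, PT g l T (A'' z x * A x y) (A' y z) := by
    unfold PM
    have : ∀ z y, PT g l T ((A'' * A) z y) (A' y z) =
        ∑ x, PT g l T (A'' z x * A x y) (A' y z) := by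
      intro z y
      rw [Matrix.mul_apply, PT_sum_left]
    simp only [this]
    calc ∑ z, ∑ y, ∑ x, PT g l T (A'' z x * A x y) (A' y z)
        = ∑ y, ∑ z, ∑ x, PT g l T (A'' z x * A x y) (A' y z) := Finset.sum_comm
      _ = ∑ y, ∑ x, ∑ z, PT g l T (A'' z x * A x y) (A' y z) :=
          Finset.sum_congr rfl fun y _ => Finset.sum_comm
      _ = ∑ x, ∑ y, ∑ z, PT g l T (A'' z x * A x y) (A' y z) := Finset.sum_comm
  have h3 : PM g l T (A * A') A'' =
      ∑ x, ∑ y, ∑ z, PT g l T (A x y * A' y z) (A'' z x) := by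
    unfold PM
    refine Finset.sum_congr rfl fun x _ => ?_
    rw [Finset.sum_comm]
    refine Finset.sum_congr rfl fun z _ => ?_
    rw [Matrix.mul_apply, PT_sum_left]
  rw [h1, h2, h3]
  simp only [Finset.sum_add_distrib, Finset.smul_sum]

include hl in
/-- **Degree zero.** The trace at `g` of an idempotent matrix is killed by `l g`. -/
theorem trace_idem (hT : ∀ a b : Ω, T (a * b) = T (b * a)) {d : ℕ}
    (e : Matrix (Fin d) (Fin d) (MonoidAlgebra Ω G)) (he : e * e = e) :
    l g * ∑ i, eT T (dg g) (e i i) = 0 := by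
  have hcyc : ∀ A B C : Matrix (Fin d) (Fin d) (MonoidAlgebra Ω G),
      PM g l T A (B * C) = PM g l T (C * A) B + PM g l T (A * B) C := by
    intro A B C
    have h := PM_cyc_aux g l T (ε := 1) (A := A) (A' := B) (A'' := C) (fun x y z => by
      rw [one_smul]
      exact PT_cyc_tr g l T hl hT _ _ _)
    rwa [one_smul] at h
  have h1 : PM g l T e e = PM g l T e e + PM g l T e e := by
    have h := hcyc e e e
    rwa [he] at h
  have h2 : PM g l T e e = 0 := left_eq_add.1 h1
  have h3 := hcyc 1 e e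
  rw [he, mul_one, one_mul, h2, add_zero, PM_one g l] at h3
  exact h3

end trace

end Form

section Cycle

variable {K : Type u} [CommRing K] {Ω : Type v} [Ring Ω] [Algebra K Ω] {G : Type w} [Group G]
  {M : Type x} [AddCommGroup M] [Module K M] {𝒜 : ℕ → Submodule K Ω} [GradedAlgebra 𝒜]
  {N n : ℕ} {δ : Ω →ₗ[K] Ω} {T : Ω →ₗ[K] M} {B : Type y} [Ring B]

variable (g : G) (l : G → ℚ)
  (hl : ∀ a b : G, a * g = g * a → b * g = g * b → l (a * b) = l a + l b) (f : M →+ ℚ)

include hl in
/-- The graded cyclic identity. -/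
theorem PT_cyc (hc : Cyc N 𝒜 δ T) {i j k : ℕ} {a b c : MonoidAlgebra Ω G} (ha : a ∈ Sg 𝒜 G i)
    (hb : b ∈ Sg 𝒜 G j) (hcc : c ∈ Sg 𝒜 G k) :
    PT g l (f.comp T.toAddMonoidHom) a (b * c) =
      ((-1 : ℤ) ^ (k * (i + j))) • PT g l (f.comp T.toAddMonoidHom) (c * a) b +
        PT g l (f.comp T.toAddMonoidHom) (a * b) c := by
  classical
  refine Sg_induction (p := fun a => PT g l (f.comp T.toAddMonoidHom) a (b * c) =
      ((-1 : ℤ) ^ (k * (i + j))) • PT g l (f.comp T.toAddMonoidHom) (c * a) b +
        PT g l (f.comp T.toAddMonoidHom) (a * b) c) ?_ ?_ ?_ ha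
  · simp only [mul_zero, zero_mul, PT_zero_left, smul_zero, add_zero]
  · intro x y hx hy
    rw [PT_add_left, hx, hy, mul_add c x y, add_mul x y b, PT_add_left, PT_add_left, smul_add]
    abel
  intro y r hr
  refine Sg_induction (p := fun b => PT g l (f.comp T.toAddMonoidHom) (single y r) (b * c) =
      ((-1 : ℤ) ^ (k * (i + j))) • PT g l (f.comp T.toAddMonoidHom) (c * single y r) b +
        PT g l (f.comp T.toAddMonoidHom) (single y r * b) c) ?_ ?_ ?_ hb
  · simp only [mul_zero, zero_mul, PT_zero_left, PT_zero_right, smul_zero, add_zero]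
  · intro x x' hx hy
    rw [add_mul x x' c, PT_add_right, hx, hy, mul_add (single y r) x x', PT_add_left,
      PT_add_right, smul_add]
    abel
  intro z s hs
  refine Sg_induction (p := fun c => PT g l (f.comp T.toAddMonoidHom) (single y r) (single z s * c) =
      ((-1 : ℤ) ^ (k * (i + j))) • PT g l (f.comp T.toAddMonoidHom) (c * single y r) (single z s) +
        PT g l (f.comp T.toAddMonoidHom) (single y r * single z s) c) ?_ ?_ ?_ hcc
  · simp only [mul_zero, zero_mul, PT_zero_left, PT_zero_right, smul_zero, add_zero]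
  · intro x x' hx hy
    rw [mul_add (single z s) x x', PT_add_right, hx, hy, add_mul x x' (single y r), PT_add_left,
      PT_add_right, smul_add]
    abel
  intro w t ht
  apply PT_cyc_single g l _ hl
  have h3 := hc.trace (i + j) k (r * s) (SetLike.GradedMul.mul_mem hr hs) t ht
  rw [mul_assoc] at h3
  change f (T (r * (s * t))) = _ • f (T (t * r * s))
  rw [h3, neg_pow_mul, map_zsmul, map_zsmul, mul_comm (i + j) k, mul_assoc]

theorem PT_closed (hc : Cyc N 𝒜 δ T) (i : ℕ) {α : MonoidAlgebra Ω G} (ha : α ∈ Sg 𝒜 G i)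
    (β : MonoidAlgebra Ω G) : PT g l (f.comp T.toAddMonoidHom) (dh G δ α) β +
      ((-1 : ℤ) ^ i) • PT g l (f.comp T.toAddMonoidHom) α (dh G δ β) = 0 := by
  classical
  refine Sg_induction (p := fun α => PT g l (f.comp T.toAddMonoidHom) (dh G δ α) β +
      ((-1 : ℤ) ^ i) • PT g l (f.comp T.toAddMonoidHom) α (dh G δ β) = 0) ?_ ?_ ?_ ha
  · rw [map_zero, PT_zero_left, PT_zero_left, smul_zero, add_zero]
  · intro a a' h h'
    rw [map_add, PT_add_left, PT_add_left, smul_add]
    calc _ = (PT g l (f.comp T.toAddMonoidHom) (dh G δ a) β +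
        ((-1 : ℤ) ^ i) • PT g l (f.comp T.toAddMonoidHom) a (dh G δ β)) +
        (PT g l (f.comp T.toAddMonoidHom) (dh G δ a') β +
        ((-1 : ℤ) ^ i) • PT g l (f.comp T.toAddMonoidHom) a' (dh G δ β)) := by abel
      _ = 0 := by rw [h, h', add_zero]
  · intro y r hr
    induction β using MonoidAlgebra.induction_linear with
    | zero => rw [map_zero, PT_zero_right, PT_zero_right, smul_zero, add_zero]
    | add b b' h h' =>
      rw [map_add, PT_add_right, PT_add_right, smul_add]
      calc _ = (PT g l (f.comp T.toAddMonoidHom) (dh G δ (single y r)) b +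
          ((-1 : ℤ) ^ i) • PT g l (f.comp T.toAddMonoidHom) (single y r) (dh G δ b)) +
          (PT g l (f.comp T.toAddMonoidHom) (dh G δ (single y r)) b' +
          ((-1 : ℤ) ^ i) • PT g l (f.comp T.toAddMonoidHom) (single y r) (dh G δ b')) := by abel
        _ = 0 := by rw [h, h', add_zero]
    | single z s =>
      rw [dh_single, dh_single, PT_single, PT_single]
      split_ifs with hyz
      · have h1 := hc.leibniz i r hr s
        rw [neg_pow_mul] at h1
        have h2 := hc.closed (r * s)
        rw [h1, map_add, map_zsmul] at h2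
        have h3 : f (T (δ r * s)) + ((-1 : ℤ) ^ i) • f (T (r * δ s)) = 0 := by
          rw [← map_zsmul, ← map_add, h2, map_zero]
        change _ * f (T (δ r * s)) + _ • (_ * f (T (r * δ s))) = 0
        rw [← mul_smul_comm, ← mul_add, h3, mul_zero]
      · rw [smul_zero, add_zero]

theorem Hm_one {d : ℕ} : (1 : Matrix (Fin d) (Fin d) (MonoidAlgebra Ω G)) ∈ Hm 𝒜 G d 0 := by
  intro a b
  rw [Matrix.one_apply]
  split_ifs
  · exact one_mem_Sg
  · exact Submodule.zero_mem _

theorem Hm_mul {d : ℕ} (i j : ℕ) (A B : Matrix (Fin d) (Fin d) (MonoidAlgebra Ω G))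
    (hA : A ∈ Hm 𝒜 G d i) (hB : B ∈ Hm 𝒜 G d j) : A * B ∈ Hm 𝒜 G d (i + j) := by
  intro a b
  rw [Matrix.mul_apply]
  exact Submodule.sum_mem _ fun k _ => mul_mem_Sg (hA a k) (hB k b)

theorem Hm_deg (hc : Cyc N 𝒜 δ T) {d : ℕ} (i : ℕ)
    (A : Matrix (Fin d) (Fin d) (MonoidAlgebra Ω G)) (hA : A ∈ Hm 𝒜 G d i) :
    Dm δ G d A ∈ Hm 𝒜 G d (i + 1) := by
  intro a b
  rw [Dm_apply]
  intro h
  rw [dh_coeff]
  exact hc.deg i _ (hA a b h)

theorem Hm_leib (hc : Cyc N 𝒜 δ T) {d : ℕ} (i : ℕ)
    (A B : Matrix (Fin d) (Fin d) (MonoidAlgebra Ω G)) (hA : A ∈ Hm 𝒜 G d i) :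
    Dm δ G d (A * B) = Dm δ G d A * B + ((-1 : ℤ) ^ i) • (A * Dm δ G d B) := by
  ext1 a b
  rw [Dm_apply, Matrix.add_apply, Matrix.smul_apply, Matrix.mul_apply, Matrix.mul_apply,
    Matrix.mul_apply, map_sum, Finset.smul_sum, ← Finset.sum_add_distrib]
  refine Finset.sum_congr rfl fun k _ => ?_
  rw [dh_mul hc (hA a k), neg_pow_mul]
  rfl

theorem Hm_sq (hc : Cyc N 𝒜 δ T) {d : ℕ} (A : Matrix (Fin d) (Fin d) (MonoidAlgebra Ω G)) :
    Dm δ G d (Dm δ G d A) = 0 := by
  ext1 a b
  rw [Dm_apply, Dm_apply]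
  apply coeff_injective
  ext h
  rw [dh_coeff, dh_coeff, hc.sq]
  rfl

theorem PM_closed (hc : Cyc N 𝒜 δ T) {d : ℕ} (i : ℕ)
    (A B : Matrix (Fin d) (Fin d) (MonoidAlgebra Ω G)) (hA : A ∈ Hm 𝒜 G d i) :
    PM g l (f.comp T.toAddMonoidHom) (Dm δ G d A) B +
      ((-1 : ℤ) ^ i) • PM g l (f.comp T.toAddMonoidHom) A (Dm δ G d B) = 0 := by
  unfold PM
  rw [Finset.smul_sum, ← Finset.sum_add_distrib]
  refine Finset.sum_eq_zero fun a _ => ?_
  rw [Finset.smul_sum, ← Finset.sum_add_distrib]
  exact Finset.sum_eq_zero fun b _ => PT_closed g l f hc i (hA a b) (B b a)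

include hl in
theorem formE (hc : Cyc N 𝒜 δ T) (d : ℕ) :
    FormE (Hm 𝒜 G d) (Dm δ G d) (PM g l (f.comp T.toAddMonoidHom)) where
  one := Hm_one
  mul := Hm_mul
  deg := Hm_deg hc
  leib := Hm_leib hc
  sq := Hm_sq hc
  add_left A A' B := PM_add_left g l _ A A' B
  cyc _ _ _ _ _ _ hA hB hC := PM_cyc_aux g l _ fun x y z =>
    PT_cyc g l hl f hc (hA x y) (hB y z) (hC z x)
  closed i A B hA := PM_closed g l f hc i A B hA

include hl in
theorem form (hc : Cyc (2 * n + 1) 𝒜 δ T) (d : ℕ) :
    Form (Hm 𝒜 G d) (Dm δ G d) (PM g l (f.comp T.toAddMonoidHom)) where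
  one := Hm_one
  mul := Hm_mul
  deg := Hm_deg hc
  leib := Hm_leib hc
  sq := Hm_sq hc
  add_left A A' B := PM_add_left g l _ A A' B
  add_right A B B' := PM_add_right g l _ A B B'
  cyc A B C := by
    have h := PM_cyc_aux g l (f.comp T.toAddMonoidHom) (ε := 1) (A := A) (A' := B) (A'' := C)
      (fun x y z => by
        rw [one_smul]
        exact PT_cyc_tr g l _ hl (fun a b => congrArg f (trace_odd hc a b)) _ _ _)
    rwa [one_smul] at h
  closed i A B hA := by
    have h := PM_closed g l f hc (2 * i) A B hA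
    rwa [pow_mul, neg_one_sq, one_pow, one_smul] at h

theorem eT_comp (φ : G → ℤ) (a : MonoidAlgebra Ω G) :
    eT (f.comp T.toAddMonoidHom) φ a = f (eT T.toAddMonoidHom φ a) := by
  induction a using MonoidAlgebra.induction_linear with
  | zero => rw [eT_zero, eT_zero, map_zero]
  | add x y hx hy => rw [eT_add, eT_add, hx, hy, map_add]
  | single h r =>
    rw [eT_single, eT_single, map_zsmul]
    rfl

include hl in
/-- Even dimension: the component at `g` is killed by all homomorphisms to the rational numbers. -/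
theorem comp_wordE (hg : l g ≠ 0) (hc : Cyc N 𝒜 δ T) {ρ : MonoidAlgebra B G →+* Ω}
    (hρ : ∀ a, ρ a ∈ 𝒜 0) {d : ℕ} (e : Matrix (Fin d) (Fin d) (MonoidAlgebra B G)) (he : e * e = e)
    (m : ℕ) : f (compT T (wordE δ ρ m e) g) = 0 := by
  have h := (formE g l hl f hc d).main (mem_Hm hρ e) (by rw [← Matrix.map_mul, he]) m
  rw [PM_one] at h
  rw [compT_eT, map_sum]
  have h1 := (mul_eq_zero.1 h).resolve_left hg
  simp only [eT_comp] at h1
  exact h1

include hl in
/-- Odd dimension: the component at `g` is killed by all homomorphisms to the rational numbers. -/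
theorem comp_word (hg : l g ≠ 0) (hc : Cyc (2 * n + 1) 𝒜 δ T) {ρ : MonoidAlgebra B G →+* Ω}
    (hρ : ∀ a, ρ a ∈ 𝒜 0) {d : ℕ} (u v : Matrix (Fin d) (Fin d) (MonoidAlgebra B G))
    (huv : u * v = 1) (hvu : v * u = 1) (m : ℕ) : f (compT T (word δ ρ m u v) g) = 0 := by
  have h := (form g l hl f hc d).main (mem_Hm hρ u) (mem_Hm hρ v) (by
    rw [← Matrix.map_mul, huv]
    exact map_one (rh ρ).mapMatrix) (by
    rw [← Matrix.map_mul, hvu]
    exact map_one (rh ρ).mapMatrix) m
  rw [PM_one] at h
  rw [compT_eT, map_sum]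
  have h1 := (mul_eq_zero.1 h).resolve_left hg
  simp only [eT_comp] at h1
  exact h1

end Cycle

/-- An element killed by all homomorphisms to the rational numbers is a torsion element. -/
theorem torsion_of {M : Type x} [AddCommGroup M] (m : M) (h : ∀ f : M →+ ℚ, f m = 0) :
    ∃ k : ℤ, k ≠ 0 ∧ k • m = 0 := by
  by_contra hcon
  push Not at hcon
  obtain ⟨f, hf⟩ := RCT.exists_rat m fun n hn => by
    by_contra h0
    exact hcon n h0 hn
  rw [h f] at hf
  exact zero_ne_one hf

end Pool.Agent.H416.QE
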