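import Pool.Agent.H416.QE

/-!
# Cycles over group rings: all conjugacy classes together
-/

set_option autoImplicit false
set_option linter.unusedSectionVars false

namespace Pool.Agent.H416

universe u v w x y

/-- `LocRC g`: in every finitely generated subgroup containing `g` the element `g` has infinite order
in the abelianisation of its centraliser. -/
def LocRC {G : Type w} [Group G] (g : G) : Prop :=
  ∀ (H : Subgroup G) (_ : H.FG) (hg : g ∈ H), RC (⟨g, hg⟩ : H)

theorem RC.loc {G : Type w} [Group G] {g : G} (h : RC g) : LocRC g := by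
  intro H _ hg
  exact RCT.RC.comap H.subtype (g := ⟨g, hg⟩) h

theorem RC.pow_ne {G : Type w} [Group G] {g : G} (h : RC g) (n : ℕ) (hn : 0 < n) : g ^ n ≠ 1 := by
  obtain ⟨l, h1, h2⟩ := h
  intro h3
  have h4 := RCT.additive_pow h1 n
  have h5 := RCT.additive_pow h1 0
  rw [pow_zero, Nat.cast_zero, zero_mul] at h5
  rw [h3, h5, h2, mul_one] at h4
  have : (n : ℚ) ≠ 0 := by exact_mod_cast hn.ne'
  exact this h4.symm

namespace QG

open MonoidAlgebra QE
open Pool.Agent.V11187.DG (Cyc neg_pow_mul trace_odd Sg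
  compT wordE word mem_Hm rh rh_mem T1 T1_apply cyc_T1 rhA value value_T1 onI onM onI_T1
  onM_T1 onI_loc onM_loc wordE_mapDomain word_mapDomain dh_mapDomain rh_mapDomain compT_one
  restrict_pair onElt onElt_T1 suppE suppE_fg supp dh)
open Pool.Agent.V11187.DT (exists_restrict)

section Gen

variable {K : Type u} [CommRing K] {Ω : Type v} [Ring Ω] [Algebra K Ω] {G : Type w} [Group G]
  {M : Type x} [AddCommGroup M] [Module K M] {𝒜 : ℕ → Submodule K Ω} [GradedAlgebra 𝒜]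
  {N : ℕ} {δ : Ω →ₗ[K] Ω} {T : Ω →ₗ[K] M} {B : Type y} [Ring B]

/-- The components at the elements of infinite order in the abelianisation of the centraliser are
torsion elements (even dimension). -/
theorem torsionE {g : G} (hg : RC g) (hc : Cyc N 𝒜 δ T) {ρ : MonoidAlgebra B G →+* Ω}
    (hρ : ∀ a, ρ a ∈ 𝒜 0) {d n : ℕ} (e : Matrix (Fin d) (Fin d) (MonoidAlgebra B G))
    (he : e * e = e) : ∃ k : ℤ, k ≠ 0 ∧ k • compT T (wordE δ ρ n e) g = 0 := by
  obtain ⟨l, hl, hlg⟩ := hg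
  exact torsion_of _ fun f => comp_wordE g l hl f (by rw [hlg]; exact one_ne_zero) hc hρ e he n

/-- The same in odd dimension. -/
theorem torsionM {g : G} (hg : RC g) {n : ℕ} (hc : Cyc (2 * n + 1) 𝒜 δ T)
    {ρ : MonoidAlgebra B G →+* Ω} (hρ : ∀ a, ρ a ∈ 𝒜 0) {d : ℕ}
    (u v : Matrix (Fin d) (Fin d) (MonoidAlgebra B G)) (huv : u * v = 1) (hvu : v * u = 1) (m : ℕ) :
    ∃ k : ℤ, k ≠ 0 ∧ k • compT T (word δ ρ m u v) g = 0 := by
  obtain ⟨l, hl, hlg⟩ := hg
  exact torsion_of _ fun f =>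
    comp_word g l hl f (by rw [hlg]; exact one_ne_zero) hc hρ u v huv hvu m

/-- Only the identity contributes (even dimension). -/
theorem onI_one (hG : ∀ g : G, g ≠ 1 → LocRC g)
    (hM : ∀ (k : ℤ) (z : M), k ≠ 0 → k • z = 0 → z = 0) (hc : Cyc N 𝒜 δ T)
    {ρ : MonoidAlgebra B G →+* Ω} (hρ : ∀ a, ρ a ∈ 𝒜 0) {d n : ℕ}
    (e : Matrix (Fin d) (Fin d) (MonoidAlgebra B G)) (he : e * e = e) :
    onI δ T ρ n e = compT T (wordE δ ρ n e) 1 := by
  obtain ⟨H, hH, e', he', rfl⟩ := exists_restrict e he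
  have h1 : onI δ T ρ n (e'.map (mapDomainRingHom B H.subtype)) =
      onI δ T (ρ.comp (mapDomainRingHom B H.subtype)) n e' := by
    unfold onI
    rw [Matrix.map_map]
    rfl
  rw [h1, compT_one, wordE_mapDomain H ρ e' (dh_mapDomain H δ) (rh_mapDomain H ρ)]
  have h2 := onI_loc (T := T) (ρ.comp (mapDomainRingHom B H.subtype)) (n := n) (δ := δ) e'
    (fun g hg => by
      obtain ⟨k, hk, hk1⟩ := torsionE (hG g.1 (fun h => hg (Subtype.ext h)) H hH g.2) hc
        (ρ := ρ.comp (mapDomainRingHom B H.subtype)) (fun a => hρ _) (n := n) e' he'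
      exact hM _ _ hk hk1)
  rw [h2, onI_T1, Matrix.trace, Matrix.trace, map_sum, map_sum]
  refine Finset.sum_congr rfl fun i _ => ?_
  rw [T1_apply, T1_apply]
  congr 1
  change _ = (MonoidAlgebra.mapDomain H.subtype _).coeff 1
  rw [MonoidAlgebra.coeff_mapDomain]
  exact (Finsupp.mapDomain_apply (f := H.subtype) H.subtype_injective _ 1).symm

/-- Only the identity contributes (odd dimension). -/
theorem onM_one (hG : ∀ g : G, g ≠ 1 → LocRC g)
    (hM : ∀ (k : ℤ) (z : M), k ≠ 0 → k • z = 0 → z = 0) {n : ℕ} (hc : Cyc (2 * n + 1) 𝒜 δ T)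
    {ρ : MonoidAlgebra B G →+* Ω} (hρ : ∀ a, ρ a ∈ 𝒜 0) {d : ℕ}
    (u v : Matrix (Fin d) (Fin d) (MonoidAlgebra B G)) (huv : u * v = 1) (hvu : v * u = 1) :
    onM δ T ρ n u v = compT T (word δ ρ n u v) 1 := by
  obtain ⟨H, hH, u', v', huv', hvu', rfl, rfl⟩ := restrict_pair u v huv hvu
  have h1 : onM δ T ρ n (u'.map (mapDomainRingHom B H.subtype))
      (v'.map (mapDomainRingHom B H.subtype)) =
      onM δ T (ρ.comp (mapDomainRingHom B H.subtype)) n u' v' := by
    unfold onM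
    rw [Matrix.map_map, Matrix.map_map]
    rfl
  rw [h1, compT_one, word_mapDomain]
  have h2 := onM_loc (trace_odd hc) (ρ.comp (mapDomainRingHom B H.subtype)) (n := n) (δ := δ) u' v'
    (fun g hg => by
      obtain ⟨k, hk, hk1⟩ := torsionM (hG g.1 (fun h => hg (Subtype.ext h)) H hH g.2) hc
        (ρ := ρ.comp (mapDomainRingHom B H.subtype)) (fun a => hρ _) u' v' huv' hvu' n
      exact hM _ _ hk hk1)
  rw [h2, onM_T1, Matrix.trace, Matrix.trace, map_sum, map_sum]
  refine Finset.sum_congr rfl fun i _ => ?_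
  rw [T1_apply, T1_apply]
  congr 1
  change _ = (MonoidAlgebra.mapDomain H.subtype _).coeff 1
  rw [MonoidAlgebra.coeff_mapDomain]
  exact (Finsupp.mapDomain_apply (f := H.subtype) H.subtype_injective _ 1).symm

end Gen

variable {K : Type u} [Field K] {G : Type w} [Group G] {Ω : Type v} [Ring Ω] [Algebra K Ω]
  {M : Type x} [AddCommGroup M] [Module K M]

theorem no_torsion [CharZero K] (k : ℤ) (z : M) (hk : k ≠ 0) (h : k • z = 0) : z = 0 := by
  rw [← Int.cast_smul_eq_zsmul K, smul_eq_zero] at h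
  exact h.resolve_left (Int.cast_ne_zero.2 hk)

theorem onI_zero_all [CharZero K] (hG : ∀ g : G, g ≠ 1 → RC g) {d : ℕ}
    (e : Matrix (Fin d) (Fin d) (MonoidAlgebra K G)) (he : e * e = e)
    (𝒜 : ℕ → Submodule K Ω) [GradedAlgebra 𝒜] (δ : Ω →ₗ[K] Ω) (T : Ω →ₗ[K] M) (n : ℕ)
    (hn : 1 ≤ n) (hc : Cyc (2 * n) 𝒜 δ T) (ρ : MonoidAlgebra K G →ₐ[K] Ω) (hρ : ∀ a, ρ a ∈ 𝒜 0)
    (s : Finset K) (F : Finset M) (hF : ∀ (a : G) (l : List G), l.length = 2 * n →
      a * l.prod = 1 → value δ T ρ a l ∈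
        Submodule.span (Algebra.adjoin ℤ (s : Set K)) (F : Set M)) :
    onI δ T (ρ : MonoidAlgebra K G →+* Ω) n e = 0 := by
  classical
  have hc1 := cyc_T1 (G := G) hc
  have h0 := (Pool.Agent.Results.MP_1a2884_al.EvenCyclesFiniteQuotients.result K G (Fin d) e he
    (MonoidAlgebra Ω G) (Sg 𝒜 G) M (dh G δ) (T1 G T) n hn
    ⟨hc1.deg, hc1.sq, hc1.leibniz, hc1.closed, hc1.trace, hc1.dim⟩ (rhA ρ)
    (fun a => rh_mem hρ a)).1 ⊤ (fun _ _ _ _ => trivial) s F
  have hv : ∀ (a : (⊤ : Subgroup G)) (l : List (⊤ : Subgroup G)),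
      Pool.Agent.Results.MP_1a2884_al.EvenCyclesFiniteQuotients.value (dh G δ) (T1 G T) (rhA ρ)
        (a : G) (l.map Subtype.val) =
        if (a : G) * (l.map Subtype.val).prod = 1 then value δ T ρ (a : G) (l.map Subtype.val)
          else 0 := fun a l => value_T1 δ T ρ (a : G) (l.map Subtype.val)
  have h1 := h0 (fun a l hl => by
    rw [hv]
    split_ifs with h3
    · exact hF _ _ (by rw [List.length_map]; exact hl) h3
    · exact Submodule.zero_mem _) (fun g hg _ => Or.inl fun a l _ hal => by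
    rw [hv, if_neg]
    intro h3
    apply hg
    have h4 : a * l.prod = 1 := by
      apply Subtype.ext
      rw [Subgroup.coe_mul]
      have h5 : ((l.prod : (⊤ : Subgroup G)) : G) = (l.map Subtype.val).prod :=
        map_list_prod (Subgroup.subtype ⊤) l
      rw [h5, h3]
      rfl
    rw [h4] at hal
    exact isConj_one_left.1 hal) (Or.inl (by
    have h2 : {p : ℕ | p.Prime ∧ ∀ x : (⊤ : Subgroup G), x ^ p = 1 → x = 1} =
        {p : ℕ | p.Prime} := by
      ext p
      refine ⟨fun h => h.1, fun h => ⟨h, fun z hz => ?_⟩⟩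
      by_contra hne
      have h3 := (hG z.1 (fun h4 => hne (Subtype.ext h4))).pow_ne p h.pos
      exact h3 (congrArg Subtype.val hz)
    rw [h2]
    exact Nat.infinite_setOf_prime))
  rw [onI_loc (ρ : MonoidAlgebra K G →+* Ω) e]
  · exact h1
  · intro g hg
    obtain ⟨k, hk, hk1⟩ := torsionE (hG g hg) hc (ρ := (ρ : MonoidAlgebra K G →+* Ω)) hρ (n := n)
      e he
    exact no_torsion (K := K) k _ hk hk1

/-- Even dimensional cycles vanish in positive dimension. -/
theorem onI_zero [CharZero K] (hG : ∀ g : G, g ≠ 1 → LocRC g) {d : ℕ}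
    (e : Matrix (Fin d) (Fin d) (MonoidAlgebra K G)) (he : e * e = e)
    (𝒜 : ℕ → Submodule K Ω) [GradedAlgebra 𝒜] (δ : Ω →ₗ[K] Ω) (T : Ω →ₗ[K] M) (n : ℕ)
    (hn : 1 ≤ n) (hc : Cyc (2 * n) 𝒜 δ T) (ρ : MonoidAlgebra K G →ₐ[K] Ω) (hρ : ∀ a, ρ a ∈ 𝒜 0)
    (s : Finset K) (F : Finset M) (hF : ∀ (a : suppE e) (l : List (suppE e)),
      l.length = 2 * n → a * l.prod = 1 → value δ T ρ a (l.map Subtype.val) ∈
        Submodule.span (Algebra.adjoin ℤ (s : Set K)) (F : Set M)) :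
    onI δ T (ρ : MonoidAlgebra K G →+* Ω) n e = 0 := by
  classical
  have hG' : ∀ g : suppE e, g ≠ 1 → RC g := fun g hg =>
    hG g.1 (fun h => hg (Subtype.ext h)) _ (suppE_fg e) g.2
  have hHe : ∀ i j g, (e i j).coeff g ≠ 0 → g ∈ suppE e := fun i j g hg =>
    Subgroup.subset_closure ⟨i, j, hg⟩
  generalize suppE e = H at *
  let j : MonoidAlgebra K H →ₐ[K] MonoidAlgebra K G :=
    MonoidAlgebra.mapDomainAlgHom K K H.subtype
  have hj : Function.Injective j := MonoidAlgebra.mapDomain_injective H.subtype_injective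
  let e' : Matrix (Fin d) (Fin d) (MonoidAlgebra K H) :=
    Matrix.of fun a b => MonoidAlgebra.comapDomain H.subtype H.subtype_injective (e a b)
  have hres : e'.map j = e := by
    ext1 a b
    exact Pool.Agent.H290R4.ChernZ.restrict_eq H _ (fun g hg => hHe a b g hg)
  have he' : e' * e' = e' := by
    have h4 : (e' * e').map j = e'.map j := by
      rw [Matrix.map_mul, hres, he]
    ext1 i i'
    apply hj
    exact congrFun (congrFun h4 i) i'
  have hs : ∀ (b : H) (k : K), j (single b k) = single (b : G) k := fun b k =>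
    MonoidAlgebra.mapDomain_single
  have h1 := onI_zero_all hG' e' he' 𝒜 δ T n hn hc (ρ.comp j) (fun a => hρ _) s F
    (fun a l hl hal => by
      have h2 := hF a l hl hal
      unfold value at h2 ⊢
      rw [List.map_map] at h2
      simp only [AlgHom.comp_apply, hs]
      exact h2)
  have h2 : onI δ T ((ρ.comp j : MonoidAlgebra K H →ₐ[K] Ω) : MonoidAlgebra K H →+* Ω) n e' =
      onI δ T (ρ : MonoidAlgebra K G →+* Ω) n e := by
    have h3 : e'.map ((ρ.comp j : MonoidAlgebra K H →ₐ[K] Ω) : MonoidAlgebra K H →+* Ω) =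
        e.map (ρ : MonoidAlgebra K G →+* Ω) := by
      conv_rhs => rw [← hres, Matrix.map_map]
      rfl
    unfold onI
    rw [h3]
  rw [← h2, h1]

/-- No element different from `1` is conjugate to one of its powers with an exponent `≥ 2`. -/
def NP (G : Type w) [Group G] : Prop := ∀ g : G, g ≠ 1 → ∀ m : ℕ, 2 ≤ m → ¬ IsConj g (g ^ m)

theorem NP.sub (h : NP G) (H : Subgroup G) : NP H := by
  intro g hg m hm hc
  refine h g.1 (fun h => hg (Subtype.ext h)) m hm ?_
  exact MonoidHom.map_isConj H.subtype hc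

/-- Odd dimensional cycles take the same value on an invertible matrix and a group element. -/
theorem onM_all [CharZero K] (hG : ∀ g : G, g ≠ 1 → RC g) (hNP : NP G) {d : ℕ}
    (u v : Matrix (Fin d) (Fin d) (MonoidAlgebra K G)) (huv : u * v = 1) (hvu : v * u = 1) :
    ∃ γ : G, ∀ (Ω : Type v) [Ring Ω] [Algebra K Ω] (𝒜 : ℕ → Submodule K Ω) [GradedAlgebra 𝒜]
      (M : Type x) [AddCommGroup M] [Module K M] (δ : Ω →ₗ[K] Ω) (T : Ω →ₗ[K] M) (n : ℕ),
      Cyc (2 * n + 1) 𝒜 δ T → ∀ ρ : MonoidAlgebra K G →ₐ[K] Ω, (∀ a, ρ a ∈ 𝒜 0) →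
      (∃ (s : Finset K) (F : Finset M), ∀ (a : G) (l : List G), l.length = 2 * n + 1 →
        a * l.prod = 1 → value δ T ρ a l ∈
          Submodule.span (Algebra.adjoin ℤ (s : Set K)) (F : Set M)) →
      onM δ T (ρ : MonoidAlgebra K G →+* Ω) n u v = onElt δ T ρ n γ := by
  classical
  obtain ⟨γ, hγ⟩ :=
    Pool.Agent.Results.MP_16fe43_al.WhiteheadTraces.result.{u, w, 0, max v w, x} K G (Fin d) u v
      huv hvu
  refine ⟨γ, fun Ω _ _ 𝒜 _ M _ _ δ T n hc ρ hρ hF => ?_⟩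
  obtain ⟨s, F, hF⟩ := hF
  have hc1 := cyc_T1 (G := G) hc
  have h1 := hγ (MonoidAlgebra Ω G) (Sg 𝒜 G) M (dh G δ) (T1 G T) n
    ⟨hc1.deg, hc1.sq, hc1.leibniz, hc1.closed, hc1.trace, hc1.dim⟩ (rhA ρ)
    (fun a => rh_mem hρ a) (Or.inl ⟨⟨s, F, fun a l hl => ?_⟩, fun g hg => Or.inl ?_⟩)
  · rw [onM_loc (trace_odd hc) (ρ : MonoidAlgebra K G →+* Ω) u v]
    · exact h1.trans (onElt_T1 δ T ρ n γ)
    · intro g hg
      obtain ⟨k, hk, hk1⟩ := torsionM (hG g hg) hc (ρ := (ρ : MonoidAlgebra K G →+* Ω)) hρ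
        u v huv hvu n
      exact no_torsion (K := K) k _ hk hk1
  · have h2 : Pool.Agent.Results.MP_16fe43_al.WhiteheadTraces.value (dh G δ) (T1 G T) (rhA ρ) a
        (l.map Subtype.val) = value (dh G δ) (T1 G T) (rhA ρ) a (l.map Subtype.val) := rfl
    rw [h2, value_T1]
    split_ifs with h3
    · exact hF _ _ (by rw [List.length_map]; exact hl) h3
    · exact Submodule.zero_mem _
  · have h2 : {p : ℕ | p.Prime ∧ ∀ j, 1 ≤ j → ¬ IsConj g (g ^ p ^ j)} = {p : ℕ | p.Prime} := by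
      ext p
      refine ⟨fun h => h.1, fun h => ⟨h, fun j hj hcj => ?_⟩⟩
      refine NP.sub hNP _ g hg (p ^ j) ?_ hcj
      calc 2 ≤ p := h.two_le
        _ = p ^ 1 := (pow_one p).symm
        _ ≤ p ^ j := Nat.pow_le_pow_right h.pos hj
    rw [h2]
    exact Nat.infinite_setOf_prime

theorem supp_fg {d : ℕ} (u v : Matrix (Fin d) (Fin d) (MonoidAlgebra K G)) : (supp u v).FG := by
  classical
  refine ⟨Finset.univ.biUnion fun i => Finset.univ.biUnion fun j =>
    (u i j).coeff.support ∪ (v i j).coeff.support, ?_⟩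
  unfold supp
  congr 1
  ext g
  simp [Finsupp.mem_support_iff]

theorem onM_supp [CharZero K] (hG : ∀ g : G, g ≠ 1 → LocRC g) (hNP : NP G) {d : ℕ}
    (u v : Matrix (Fin d) (Fin d) (MonoidAlgebra K G)) (huv : u * v = 1) (hvu : v * u = 1) :
    ∃ γ : G, γ ∈ supp u v ∧
      ∀ (Ω : Type v) [Ring Ω] [Algebra K Ω] (𝒜 : ℕ → Submodule K Ω) [GradedAlgebra 𝒜]
      (M : Type x) [AddCommGroup M] [Module K M] (δ : Ω →ₗ[K] Ω) (T : Ω →ₗ[K] M) (n : ℕ),
      Cyc (2 * n + 1) 𝒜 δ T → ∀ ρ : MonoidAlgebra K G →ₐ[K] Ω, (∀ a, ρ a ∈ 𝒜 0) →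
      (∃ (s : Finset K) (F : Finset M), ∀ (a : supp u v) (l : List (supp u v)),
        l.length = 2 * n + 1 → a * l.prod = 1 → value δ T ρ a (l.map Subtype.val) ∈
          Submodule.span (Algebra.adjoin ℤ (s : Set K)) (F : Set M)) →
      onM δ T (ρ : MonoidAlgebra K G →+* Ω) n u v = onElt δ T ρ n γ := by
  classical
  have hG' : ∀ g : supp u v, g ≠ 1 → RC g := fun g hg =>
    hG g.1 (fun h => hg (Subtype.ext h)) _ (supp_fg u v) g.2
  have hNP' : NP (supp u v) := hNP.sub _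
  generalize hH : supp u v = H at *
  let j : MonoidAlgebra K H →ₐ[K] MonoidAlgebra K G :=
    MonoidAlgebra.mapDomainAlgHom K K H.subtype
  have hj : Function.Injective j := MonoidAlgebra.mapDomain_injective H.subtype_injective
  let res : Matrix (Fin d) (Fin d) (MonoidAlgebra K G) → Matrix (Fin d) (Fin d) (MonoidAlgebra K H) :=
    fun e => Matrix.of fun a b => MonoidAlgebra.comapDomain H.subtype H.subtype_injective (e a b)
  have hres : ∀ e : Matrix (Fin d) (Fin d) (MonoidAlgebra K G),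
      (∀ i j g, (e i j).coeff g ≠ 0 → g ∈ H) → (res e).map j = e := by
    intro e hH
    ext1 a b
    exact Pool.Agent.H290R4.ChernZ.restrict_eq H _ (fun g hg => hH a b g hg)
  have hHu : ∀ i j g, (u i j).coeff g ≠ 0 → g ∈ H := fun i j g hg => by
    rw [← hH]
    exact Subgroup.subset_closure ⟨i, j, Or.inl hg⟩
  have hHv : ∀ i j g, (v i j).coeff g ≠ 0 → g ∈ H := fun i j g hg => by
    rw [← hH]
    exact Subgroup.subset_closure ⟨i, j, Or.inr hg⟩
  have hinv : ∀ a b : Matrix (Fin d) (Fin d) (MonoidAlgebra K H), a.map j * b.map j = 1 →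
      a * b = 1 := by
    intro a b hab
    have h4 : (a * b).map j = (1 : Matrix (Fin d) (Fin d) (MonoidAlgebra K H)).map j := by
      rw [Matrix.map_mul, hab, Matrix.map_one _ (map_zero j) (map_one j)]
    ext1 i i'
    apply hj
    exact congrFun (congrFun h4 i) i'
  have huv' : res u * res v = 1 := hinv _ _ (by rw [hres u hHu, hres v hHv, huv])
  have hvu' : res v * res u = 1 := hinv _ _ (by rw [hres u hHu, hres v hHv, hvu])
  obtain ⟨γ, hγ⟩ := onM_all.{u, v, w, x} hG' hNP' (res u) (res v) huv' hvu'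
  refine ⟨γ, γ.2, fun Ω _ _ 𝒜 _ M _ _ δ T n hc ρ hρ hF => ?_⟩
  obtain ⟨s, F, hF⟩ := hF
  have hs : ∀ (b : H) (k : K), j (single b k) = single (b : G) k := fun b k =>
    MonoidAlgebra.mapDomain_single
  have h1 := hγ Ω 𝒜 M δ T n hc (ρ.comp j) (fun a => hρ _) ⟨s, F, fun a l hl hal => by
    have h2 := hF a l hl hal
    unfold value at h2 ⊢
    rw [List.map_map] at h2
    simp only [AlgHom.comp_apply, hs]
    exact h2⟩
  have h2 : onM δ T ((ρ.comp j : MonoidAlgebra K H →ₐ[K] Ω) : MonoidAlgebra K H →+* Ω) n (res u)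
      (res v) = onM δ T (ρ : MonoidAlgebra K G →+* Ω) n u v := by
    have h3 : ∀ e : Matrix (Fin d) (Fin d) (MonoidAlgebra K G),
        (∀ i j g, (e i j).coeff g ≠ 0 → g ∈ H) →
        (res e).map ((ρ.comp j : MonoidAlgebra K H →ₐ[K] Ω) : MonoidAlgebra K H →+* Ω) =
          e.map (ρ : MonoidAlgebra K G →+* Ω) := by
      intro e he
      conv_rhs => rw [← hres e he, Matrix.map_map]
      rfl
    unfold onM
    rw [h3 u hHu, h3 v hHv]
  have h3 : onElt δ T (ρ.comp j) n γ = onElt δ T ρ n (γ : G) := by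
    unfold onElt
    simp only [AlgHom.comp_apply, hs]
    rfl
  rw [← h2, h1, h3]

end QG

end Pool.Agent.H416
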